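import Pool.Agent.Helper92.HF.Sad
import Pool.Agent.W169.HF.Small
import Pool.Agent.W169.HF.Aut3
import Pool.Agent.W327.HF.Fwd
import Pool.Agent.W85.HF.Bwd
import Pool.Agent.W45.HF.Prof
import Pool.Agent.W363.HF.JU
import Pool.Agent.W736.HF.JL
import Pool.Agent.W351.HF.TC
import Pool.Agent.W397.HF.Lcx
import Pool.Agent.W565.HF.Hup
import Pool.Agent.W565.HF.Inv
import Pool.Agent.W366.HF.Hlo

/-!
# Project HF: assembly of the two theorems on zero-free strips (helper92)
-/

set_option autoImplicit false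

namespace Pool.Agent.Helper92.HF

open Pool.Agent.W169.HF

theorem prof_all : S_PROF := Pool.Agent.W45.HF.prof_of Pool.Agent.W351.HF.tc Pool.Agent.W397.HF.lcx

theorem jl_all : S_JL := Pool.Agent.W736.HF2.jl_of sadl

theorem fwd_all : S_FWD := W327.HF.fwd_of prof_all Pool.Agent.W363.HF.ju jl_all

theorem inv_all : S_INV := Pool.Agent.W565.HF.inv hs_all sg_all heat_all

theorem hlo_all : S_HLO := Pool.Agent.W366.HF.hlo_of prof_all Pool.Agent.W363.HF.ju jl_all

theorem bwd_all : S_BWD := Pool.Agent.W85.HF.bwd_of sadl Pool.Agent.W351.HF.tc Pool.Agent.W565.HF.hup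
  hlo_all inv_all

end Pool.Agent.Helper92.HF
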