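import Pool.Agent.Helper92.HF.Gen

/-!
# Project HF: the two theorems for analytic data (helper92)
-/

set_option autoImplicit false

open Complex Set MeasureTheory intervalIntegral Filter Topology
open scoped ComplexConjugate NNReal ENNReal

namespace Pool.Agent.Helper92.HF

open H353.E H353.F Pool.Agent.W169.HF

lemma heat_shift (t : ℝ) (F : ℂ → ℂ) (c z : ℂ) : heat t (fun u => F (c + u)) z = heat t F (c + z) := by
  unfold heat
  simp only [add_assoc]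

lemma heat_smul (t : ℝ) (F : ℂ → ℂ) (c z : ℂ) : heat t (fun u => c * F u) z = c * heat t F z := by
  unfold heat
  have : ∀ v : ℝ, ((Real.exp (-v ^ 2) : ℝ) : ℂ) * (c * F (z + ((2 * Real.sqrt t * v : ℝ) : ℂ))) =
      c * (((Real.exp (-v ^ 2) : ℝ) : ℂ) * F (z + ((2 * Real.sqrt t * v : ℝ) : ℂ))) := fun v => by ring
  simp_rw [this]
  rw [MeasureTheory.integral_const_mul]
  ring

lemma D_close {m : ℕ} (hm : 1 ≤ m) {N : ℝ} (hN : 1 ≤ N) {μ : Fin m → ℂ} (hμ : ∀ j, (μ j).re ≤ 1 / 2)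
    {K0 ℓ y : ℝ} (hℓ : |ℓ - 1 / 2 * Real.log (cnd N μ y)| ≤ K0) :
    ‖gaD N μ (3 / 2 + y * I) - ℓ‖ ≤ K0 + 13 * m := by
  have hm' : (1 : ℝ) ≤ m := by exact_mod_cast hm
  have gp := gaf_GP hm hN hμ
  have h1 := gaD_re_ge hN hμ y
  have h2 := gaD_re_le hN hμ y
  change 1 / 2 * Real.log (cnd N μ y) - 7 * m ≤ _ at h1
  change _ ≤ 1 / 2 * Real.log (cnd N μ y) + 5 * m at h2
  have h3 := gp.im (3 / 2 + y * I) (by simp; norm_num)
  refine (Complex.norm_le_abs_re_add_abs_im _).trans ?_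
  rw [sub_re, sub_im, ofReal_re, ofReal_im, sub_zero]
  have h4 : |(gaD N μ (3 / 2 + y * I)).re - ℓ| ≤ K0 + 7 * m := by
    rw [abs_le] at hℓ ⊢
    constructor <;> linarith [hℓ.1, hℓ.2]
  linarith

lemma zeros_strip {X : ℂ → ℂ} (hslow : Slow X) (hfe : Fe X) (hzer : ∀ z, X z = 0 → z.re ≤ 1)
    (hne : ∃ z, X z ≠ 0) {t : ℝ} (ht : 0 ≤ t) {s : ℂ} (hs : heat t X s = 0) : |s.re - 1 / 2| ≤ 1 / 2 := by
  obtain ⟨-, hcl⟩ := db_all (1 / 2) X ⟨hslow, hfe, fun s hs => by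
    have := hzer s hs
    linarith⟩ hne t ht
  have h1 := hcl.zer s hs
  obtain ⟨ε, hε, hfe'⟩ := hcl.fe
  have h2 : heat t X (1 - conj s) = 0 := by
    have h3 := hfe' (1 - conj s)
    have e : 1 - conj (1 - conj s) = s := by simp
    rw [e, hs, map_zero, mul_zero] at h3
    exact h3
  have h3 := hcl.zer _ h2
  rw [sub_re, one_re, conj_re] at h3
  rw [abs_le]
  constructor <;> linarith

lemma half_line {y : ℝ} {s : ℂ} (hs : s.im = y) : (1 / 2 + y * I + ((s.re - 1 / 2 : ℝ) : ℂ) : ℂ) = s := by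
  apply Complex.ext
  · simp
  · simp [hs]

theorem fwdE {m : ℕ} (hm : 1 ≤ m) {B1 : ℝ} {B2 : ℝ → ℝ} (hB1 : 1 ≤ B1) (hB2 : 1 ≤ B2 1) {K0 ϑ g : ℝ}
    (hK0 : 0 ≤ K0) (hϑ : 0 ≤ ϑ) (hϑ1 : ϑ ≤ 3 / 2) (hg : 0 < g) :
    ∃ R ℓ0 t1 : ℝ, 0 < t1 ∧ ∀ (N : ℝ) (μ : Fin m → ℂ) (E : ℂ → ℂ) (ε : ℂ) (Λ : ℂ → ℂ),
      Dat B1 B2 N μ E ε Λ → ∀ y ℓ t : ℝ, |ℓ - 1 / 2 * Real.log (cnd N μ y)| ≤ K0 → ℓ0 ≤ ℓ → 0 < t →
      t ≤ t1 → 2 * ϑ + g ≤ 2 * t * ℓ → (∀ z, XX N Λ z = 0 → |z.im - y| ≤ R → z.re ≤ 1 / 2 + ϑ) →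
      ∀ s : ℂ, s.im = y → heat t (XX N Λ) s = 0 → s.re = 1 / 2 := by
  have hm' : (1 : ℝ) ≤ m := by exact_mod_cast hm
  obtain ⟨c, hc⟩ : ∃ c : ℝ, c = K0 + 13 * m := ⟨_, rfl⟩
  have hc0 : 0 < c := by rw [hc]; linarith
  have hBB : 1 ≤ BB m B2 := by
    unfold BB
    have : 1 ≤ Real.exp ((6 * m : ℝ) ^ 2 / 4 + 64) := Real.one_le_exp (by positivity)
    nlinarith
  have hC : (1 : ℝ) ≤ 6 * m := by linarith
  have hKU := one_le_KU (C := 6 * m) (B := BB m B2) (C1 := c) hC hBB hc0.le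
  obtain ⟨R, ℓ1, H⟩ := fwd_all (KU (6 * m) (BB m B2) c) (3 / 2) ϑ g 4 hKU (by norm_num) (by norm_num)
    hϑ hϑ1 hg (by norm_num)
  obtain ⟨t1, ℓ2, ht1, HL⟩ := local_of_sharp lap_all rep_all (6 * m) (BB m B2) 2
    (fun K => 4 * Real.exp (2 * |K| + 10)) hC hBB (by norm_num) (by norm_num)
    (show (0 : ℝ) < 1 / 2 by norm_num)
  refine ⟨R, max ℓ1 (ℓ2 + c), min t1 (1 / (4 * c)), lt_min ht1 (by positivity), ?_⟩
  intro N μ E ε Λ d y ℓ t hℓ hℓ0 ht htt h1 hfree s hs hz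
  obtain ⟨S, hslow, hfe, hzer, hne⟩ := sharpE hm hB1 hB2 d
  have hD := D_close hm d.one_le d.re_le hℓ
  rw [← hc] at hD
  have hta : t ≤ t1 := htt.trans (min_le_left _ _)
  have htb : t ≤ 1 / (4 * c) := htt.trans (min_le_right _ _)
  rw [le_div_iff₀ (by positivity)] at htb
  have hℓ1 : ℓ1 ≤ ℓ := (le_max_left _ _).trans hℓ0
  have hℓ2 : ℓ2 + c ≤ ℓ := (le_max_right _ _).trans hℓ0
  have hDre : ℓ - c ≤ (gaD N μ (3 / 2 + y * I)).re := by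
    have h3 := (Complex.abs_re_le_norm _).trans hD
    rw [sub_re, ofReal_re] at h3
    linarith [(abs_le.1 h3).1]
  rcases le_or_gt (2 * t * ℓ) 4 with h4 | h4
  · have hud := ud_of_sharp S hslow (by norm_num) (by norm_num) hc0.le y ℓ hD
    have e32 : (2 : ℝ) - 1 / 2 = 3 / 2 := by norm_num
    rw [e32] at hud
    by_contra hcon
    have hx := zeros_strip hslow ⟨ε, d.norm_eq, hfe⟩ hzer hne ht.le hz
    refine H ℓ _ t _ hℓ1 hud ht h1 h4 (fun u hu hur h0 => ?_) (s.re - 1 / 2)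
      (fun h => hcon (by linarith)) (by linarith) ?_
    · have h5 := hfree (1 / 2 + y * I + u) h0 (by
        have : (1 / 2 + y * I + u : ℂ).im - y = u.im := by simp
        rw [this]
        exact hur)
      have h6 : (1 / 2 + y * I + u : ℂ).re = 1 / 2 + u.re := by simp
      rw [h6] at h5
      linarith
    · rw [heat_shift t (XX N Λ) (1 / 2 + y * I) _, half_line hs]
      exact hz
  · refine HL (XX N Λ) (gaf N μ) (gaD N μ) S hslow t y ht hta (by linarith) ?_ s hs hz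
    have h5 : 2 * t * (ℓ - c) ≤ 2 * t * (gaD N μ (3 / 2 + y * I)).re :=
      mul_le_mul_of_nonneg_left hDre (by positivity)
    have h6 : 2 * t * (ℓ - c) = 2 * t * ℓ - t * (4 * c) / 2 := by ring
    linarith

theorem bwdE {m : ℕ} (hm : 1 ≤ m) {B1 : ℝ} {B2 : ℝ → ℝ} (hB1 : 1 ≤ B1) (hB2 : 1 ≤ B2 1) {K0 g : ℝ}
    (hK0 : 0 ≤ K0) (hg : 0 < g) :
    ∃ R ℓ0 : ℝ, ∀ (N : ℝ) (μ : Fin m → ℂ) (E : ℂ → ℂ) (ε : ℂ) (Λ : ℂ → ℂ),
      Dat B1 B2 N μ E ε Λ → ∀ y ℓ t : ℝ, |ℓ - 1 / 2 * Real.log (cnd N μ y)| ≤ K0 → ℓ0 ≤ ℓ → 0 < t →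
      g ≤ 2 * t * ℓ → 2 * t * ℓ ≤ 2 →
      (∀ s : ℂ, heat t (XX N Λ) s = 0 → |s.im - y| ≤ R → s.re = 1 / 2) →
      ∀ z : ℂ, z.im = y → XX N Λ z = 0 → |z.re - 1 / 2| < 2 * t * ℓ + g := by
  have hm' : (1 : ℝ) ≤ m := by exact_mod_cast hm
  obtain ⟨c, hc⟩ : ∃ c : ℝ, c = K0 + 13 * m := ⟨_, rfl⟩
  have hc0 : 0 < c := by rw [hc]; linarith
  have hBB : 1 ≤ BB m B2 := by
    unfold BB
    have : 1 ≤ Real.exp ((6 * m : ℝ) ^ 2 / 4 + 64) := Real.one_le_exp (by positivity)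
    nlinarith
  have hC : (1 : ℝ) ≤ 6 * m := by linarith
  have hKU := one_le_KU (C := 6 * m) (B := BB m B2) (C1 := c) hC hBB hc0.le
  obtain ⟨R, ℓ1, H⟩ := bwd_all (KU (6 * m) (BB m B2) c) (3 / 2) g 2 hKU (by norm_num) (by norm_num)
    hg (by norm_num)
  refine ⟨R, ℓ1, ?_⟩
  intro N μ E ε Λ d y ℓ t hℓ hℓ0 ht h1 h2 hline z hzy hz
  obtain ⟨S, hslow, hfe, hzer, hne⟩ := sharpE hm hB1 hB2 d
  have hD := D_close hm d.one_le d.re_le hℓ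
  rw [← hc] at hD
  have hud := ud_of_sharp S hslow (by norm_num) (by norm_num) hc0.le y ℓ hD
  have e32 : (2 : ℝ) - 1 / 2 = 3 / 2 := by norm_num
  rw [e32] at hud
  have key : ∀ w : ℂ, w.im = y → XX N Λ w = 0 → w.re - 1 / 2 < 2 * t * ℓ + g := by
    intro w hwy hw
    by_contra hcon
    push Not at hcon
    have hw1 := hzer w hw
    refine H ℓ _ t _ hℓ0 hud ht h1 h2 (fun u hu hur h0 => ?_) (w.re - 1 / 2) hcon (by linarith) ?_
    · rw [heat_shift t (XX N Λ) (1 / 2 + y * I) _] at h0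
      have h5 := hline _ h0 (by
        have : (1 / 2 + y * I + u : ℂ).im - y = u.im := by simp
        rw [this]
        exact hur)
      have h6 : (1 / 2 + y * I + u : ℂ).re = 1 / 2 + u.re := by simp
      rw [h6] at h5
      linarith
    · show XX N Λ (1 / 2 + y * I + ((w.re - 1 / 2 : ℝ) : ℂ)) = 0
      rw [half_line hwy]
      exact hw
  have k1 := key z hzy hz
  have h0 : XX N Λ (1 - conj z) = 0 := by
    have h3 := hfe (1 - conj z)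
    have e : 1 - conj (1 - conj z) = z := by simp
    rw [e, hz, map_zero, mul_zero] at h3
    exact h3
  have k2 := key (1 - conj z) (by simp [hzy]) h0
  rw [sub_re, one_re, conj_re] at k2
  rw [abs_lt]
  constructor <;> linarith

end Pool.Agent.Helper92.HF
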