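import Pool.Agent.Helper92.HF.Ev
import Pool.Agent.Helper92.HF.Flow

/-!
# Project HF: the completed L-function of an elliptic curve over a number field (helper92)
-/

set_option autoImplicit false

open NumberField IsDedekindDomain Complex Filter Topology Set
open scoped ComplexConjugate

namespace Pool.Agent.Helper92.HF

open Pool.Agent.Helper92.MQ (trv trv_poss intCast_mem_iff)
open Pool.Agent.W164.RC (lpoly Poss)
open Pool.Agent.H921R2.TatePole (two_le_nm nm)
open Pool.Agent.W169.HF (heat Slow Fe XX cnd mono_all line_iff)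
open H353.E (conj_cpow_real)
open H353.F (norm_tprod_le)

/-- the completed L-function of `E : y² = x³ + a x + b` over `K`, with arbitrary possible Euler
polynomials at the primes dividing `D` -/
structure Comp (K : Type) [Field K] [NumberField K] (a b D : ℤ) (P : ℕ → Polynomial ℝ)
    (A : ℝ) (Λ : ℂ → ℂ) : Prop where
  one_le : 1 ≤ A
  two : 2 ∣ D
  poly : ∀ p ∈ D.natAbs.primeFactors, IsEP (Module.finrank ℚ K) p (P p)
  entire : Differentiable ℂ Λ
  growth : ∀ σ₁ σ₂ : ℝ, ∃ M : ℝ, ∀ s : ℂ, σ₁ ≤ s.re → s.re ≤ σ₂ →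
    ‖Λ s‖ ≤ Real.exp (M * (1 + |s.im|))
  euler : ∀ s : ℂ, 3 / 2 < s.re → Λ s = (A : ℂ) ^ (s / 2) *
    ((2 * Real.pi : ℂ) ^ (-s) * Gamma s) ^ (Module.finrank ℚ K) * (EG K a b D s * EQ D P s)
  fe : ∃ w : ℂ, (w = 1 ∨ w = -1) ∧ ∀ s : ℂ, Λ s = w * Λ (2 - s)

lemma lpoly_conj (a ε : ℤ) {n : ℕ} (hn : 0 < n) (s : ℂ) :
    lpoly a ε n (conj s) = conj (lpoly a ε n s) := by
  have h : ∀ w : ℂ, conj ((n : ℂ) ^ w) = (n : ℂ) ^ (conj w) := fun w => by
    have := conj_cpow_real (N := (n : ℝ)) (by exact_mod_cast hn) w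
    simpa using this
  unfold lpoly
  simp only [map_add, map_sub, map_mul, h, map_one, map_neg, map_ofNat, map_intCast]

section
variable {K : Type} [Field K] [NumberField K] {a b D : ℤ} {P : ℕ → Polynomial ℝ}
  {A : ℝ} {Λ : ℂ → ℂ}

lemma gp_conj (v : HeightOneSpectrum (𝓞 K)) (s : ℂ) : gp a b D v (conj s) = conj (gp a b D v s) := by
  have h2 : 0 < Ideal.absNorm v.asIdeal := by
    have := two_le_nm v
    unfold nm at this
    omega
  unfold gp
  split_ifs
  · rw [map_one]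
  · exact lpoly_conj _ _ h2 s

lemma natCast_cpow_conj {n : ℕ} (hn : 0 < n) (w : ℂ) : conj ((n : ℂ) ^ w) = (n : ℂ) ^ (conj w) := by
  have := conj_cpow_real (N := (n : ℝ)) (by exact_mod_cast hn) w
  simpa using this

lemma eq_conj (D : ℤ) (P : ℕ → Polynomial ℝ) (s : ℂ) : EQ D P (conj s) = conj (EQ D P s) := by
  unfold EQ
  rw [map_prod]
  refine Finset.prod_congr rfl fun p hp => ?_
  rw [map_inv₀, ← Polynomial.aeval_conj, natCast_cpow_conj (Nat.prime_of_mem_primeFactors hp).pos,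
    map_neg]

theorem comp_conj (h : Comp K a b D P A Λ) (s : ℂ) : Λ (conj s) = conj (Λ s) := by
  have hA : 0 < A := by linarith [h.one_le]
  have hd : Differentiable ℂ (fun s => conj (Λ (conj s))) := fun s => by
    have := (h.entire (conj s)).conj_conj
    rw [Complex.conj_conj] at this
    exact this
  have heq : ∀ s : ℂ, 3 / 2 < s.re → conj (Λ (conj s)) = Λ s := by
    intro s hs
    have hs' : 3 / 2 < (conj s).re := by rwa [Complex.conj_re]
    rw [h.euler _ hs', h.euler _ hs, map_mul, map_mul, conj_cpow_real hA, map_pow, map_mul, map_mul]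
    have e1 : conj (conj s / 2) = s / 2 := by
      rw [map_div₀, Complex.conj_conj, map_ofNat]
    have e2 : conj ((2 * Real.pi : ℂ) ^ (-conj s)) = (2 * Real.pi : ℂ) ^ (-s) := by
      have := conj_cpow_real (N := 2 * Real.pi) (by positivity) (-conj s)
      push_cast at this
      rw [this, map_neg, Complex.conj_conj]
    have e3 : conj (Gamma (conj s)) = Gamma s := by
      rw [Complex.Gamma_conj, Complex.conj_conj]
    have e4 : conj (EG K a b D (conj s)) = EG K a b D s := by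
      obtain ⟨hfs, -, -, -⟩ := ee_summable (K := K) (a := a) (b := b) h.two (x := s.re - 1 / 2)
        (by linarith) (s := conj s) (by rw [Complex.conj_re]; linarith)
      obtain ⟨hm, -⟩ := norm_tprod_le _ hfs
      have h1 := (hm.hasProd.map (starRingEnd ℂ) Complex.continuous_conj).tprod_eq
      unfold EG
      rw [← h1]
      congr 1
      funext v
      show conj ((gp a b D v (conj s))⁻¹) = _
      rw [map_inv₀, gp_conj, Complex.conj_conj]
    have e5 : conj (EQ D P (conj s)) = EQ D P s := by rw [eq_conj, Complex.conj_conj]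
    rw [e1, e2, e3, e4, e5]
  have han1 : AnalyticOnNhd ℂ (fun s => conj (Λ (conj s))) univ := fun z _ => hd.analyticAt z
  have han2 : AnalyticOnNhd ℂ Λ univ := fun z _ => h.entire.analyticAt z
  have hev : (fun s => conj (Λ (conj s))) =ᶠ[𝓝 (2 : ℂ)] Λ := by
    have hmem : {s : ℂ | (3 : ℝ) / 2 < s.re} ∈ 𝓝 (2 : ℂ) :=
      (isOpen_lt continuous_const Complex.continuous_re).mem_nhds (by
        show (3 : ℝ) / 2 < (2 : ℂ).re
        norm_num)
    filter_upwards [hmem] with z hz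
    exact heq z hz
  have h2 := han1.eqOn_of_preconnected_of_eventuallyEq han2 isPreconnected_univ (mem_univ _) hev
    (mem_univ s)
  have h3 : conj (Λ (conj s)) = Λ s := h2
  rw [← h3, Complex.conj_conj]

end

/-- the shifts of the gamma factors -/
noncomputable def mu (n : ℕ) : Fin (n + n) → ℂ := Fin.append (fun _ => -(1 / 2)) (fun _ => -(3 / 2))

lemma mu_re (n : ℕ) (j : Fin (n + n)) : (mu n j).re ≤ 1 / 2 := by
  unfold mu
  refine Fin.addCases (fun i => ?_) (fun i => ?_) j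
  · rw [Fin.append_left]
    norm_num
  · rw [Fin.append_right]
    norm_num

lemma prod_gamma (n : ℕ) (z : ℂ) : ∏ j, Gammaℝ (z - mu n j) =
    (2 * ((2 * Real.pi : ℂ) ^ (-(z + 1 / 2)) * Gamma (z + 1 / 2))) ^ n := by
  unfold mu
  rw [Fin.prod_univ_add]
  simp only [Fin.append_left, Fin.append_right, Finset.prod_const, Finset.card_univ, Fintype.card_fin]
  rw [← mul_pow]
  congr 1
  have e1 : z - -(1 / 2) = z + 1 / 2 := by ring
  have e2 : z - -(3 / 2) = (z + 1 / 2) + 1 := by ring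
  rw [e1, e2, Complex.Gammaℝ_mul_Gammaℝ_add_one, Complex.Gammaℂ_def]
  ring

/-- the conductor at the height `y` -/
noncomputable def cond (n : ℕ) (A y : ℝ) : ℝ := A * (1 + |y|) ^ (2 * n)

lemma le_cond {n : ℕ} {A : ℝ} (hA : 1 ≤ A) (y : ℝ) : A ≤ cond n A y := by
  unfold cond
  have : 1 ≤ (1 + |y|) ^ (2 * n) := one_le_pow₀ (by linarith [abs_nonneg y])
  nlinarith

lemma cnd_mu (n : ℕ) (A y : ℝ) : cnd A (mu n) y =
    A * ((1 + ‖(y : ℂ) * I + 1 / 2‖) ^ n * (1 + ‖(y : ℂ) * I + 3 / 2‖) ^ n) := by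
  unfold cnd mu
  rw [Fin.prod_univ_add]
  simp only [Fin.append_left, Fin.append_right, Finset.prod_const, Finset.card_univ, Fintype.card_fin,
    sub_neg_eq_add]

lemma log_cnd {n : ℕ} {A : ℝ} (hA : 1 ≤ A) (y : ℝ) :
    |1 / 2 * Real.log (cond n A y) - 1 / 2 * Real.log (cnd A (mu n) y)| ≤ n := by
  have hA0 : 0 < A := by linarith
  have hr : 0 < 1 + |y| := by positivity
  have him : ∀ c : ℝ, |y| ≤ ‖(y : ℂ) * I + c‖ := fun c => by
    have := Complex.abs_im_le_norm ((y : ℂ) * I + c)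
    simpa using this
  have hle : ∀ c : ℝ, 0 ≤ c → ‖(y : ℂ) * I + c‖ ≤ |y| + c := fun c hc => by
    refine (norm_add_le _ _).trans ?_
    rw [norm_mul, Complex.norm_I, Complex.norm_real, Complex.norm_real, Real.norm_eq_abs,
      Real.norm_eq_abs, abs_of_nonneg hc, mul_one]
  have key : ∀ c : ℝ, 0 ≤ c → Real.log (1 + |y|) ≤ Real.log (1 + ‖(y : ℂ) * I + c‖) ∧
      Real.log (1 + ‖(y : ℂ) * I + c‖) ≤ Real.log (1 + |y|) + c := by
    intro c hc
    refine ⟨Real.log_le_log hr (by linarith [him c]), ?_⟩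
    have h1 : 1 + ‖(y : ℂ) * I + c‖ ≤ (1 + |y|) * (1 + c) := by
      have := hle c hc
      have := abs_nonneg y
      nlinarith
    have h2 : Real.log (1 + ‖(y : ℂ) * I + c‖) ≤ Real.log ((1 + |y|) * (1 + c)) :=
      Real.log_le_log (by positivity) h1
    rw [Real.log_mul hr.ne' (by positivity)] at h2
    have h3 := Real.log_le_sub_one_of_pos (show (0 : ℝ) < 1 + c by positivity)
    linarith
  obtain ⟨a1, a2⟩ := key (1 / 2) (by norm_num)
  obtain ⟨b1, b2⟩ := key (3 / 2) (by norm_num)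
  have e1 : (((1 / 2 : ℝ)) : ℂ) = 1 / 2 := by push_cast; ring
  have e2 : (((3 / 2 : ℝ)) : ℂ) = 3 / 2 := by push_cast; ring
  rw [e1] at a1 a2
  rw [e2] at b1 b2
  have hn : (0 : ℝ) ≤ n := Nat.cast_nonneg n
  have hp : 0 < 1 + ‖(y : ℂ) * I + 1 / 2‖ := by positivity
  have hq : 0 < 1 + ‖(y : ℂ) * I + 3 / 2‖ := by positivity
  rw [cnd_mu]
  unfold cond
  rw [Real.log_mul hA0.ne' (by positivity), Real.log_mul hA0.ne' (by positivity),
    Real.log_mul (by positivity) (by positivity), Real.log_pow, Real.log_pow, Real.log_pow]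
  push_cast
  rw [abs_le]
  have h1 := mul_le_mul_of_nonneg_left a1 hn
  have h2 := mul_le_mul_of_nonneg_left a2 hn
  have h3 := mul_le_mul_of_nonneg_left b1 hn
  have h4 := mul_le_mul_of_nonneg_left b2 hn
  constructor <;> nlinarith

/-- the normalised function without the factor `A ^ (z / 2)` -/
noncomputable def LN (n : ℕ) (A : ℝ) (Λ : ℂ → ℂ) (z : ℂ) : ℂ :=
  2 ^ n * (A : ℂ) ^ (-((z + 1 / 2) / 2)) * Λ (z + 1 / 2)

lemma xx_ln (n : ℕ) {A : ℝ} (hA : 1 ≤ A) (Λ : ℂ → ℂ) (z : ℂ) :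
    XX A (LN n A Λ) z = (2 ^ n * (A : ℂ) ^ (-(1 / 4) : ℂ)) * Λ (1 / 2 + z) := by
  have hAc : (A : ℂ) ≠ 0 := by
    have : A ≠ 0 := by linarith
    exact_mod_cast this
  unfold XX LN
  have e : (A : ℂ) ^ (z / 2) * (A : ℂ) ^ (-((z + 1 / 2) / 2)) = (A : ℂ) ^ (-(1 / 4) : ℂ) := by
    rw [← cpow_add _ _ hAc]
    congr 1
    ring
  rw [← e, add_comm (1 / 2 : ℂ) z]
  ring

lemma cst_ne (n : ℕ) {A : ℝ} (hA : 1 ≤ A) : (2 ^ n * (A : ℂ) ^ (-(1 / 4) : ℂ) : ℂ) ≠ 0 := by
  have hAc : (A : ℂ) ≠ 0 := by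
    have : A ≠ 0 := by linarith
    exact_mod_cast this
  refine mul_ne_zero (pow_ne_zero _ two_ne_zero) ?_
  rw [Ne, cpow_eq_zero_iff]
  tauto

lemma xx_zero (n : ℕ) {A : ℝ} (hA : 1 ≤ A) (Λ : ℂ → ℂ) (z : ℂ) :
    XX A (LN n A Λ) z = 0 ↔ Λ (1 / 2 + z) = 0 := by
  rw [xx_ln n hA]
  constructor
  · intro h
    exact (mul_eq_zero.1 h).resolve_left (cst_ne n hA)
  · intro h
    rw [h, mul_zero]

lemma heat_xx (n : ℕ) {A : ℝ} (hA : 1 ≤ A) (Λ : ℂ → ℂ) (t : ℝ) (z : ℂ) :
    heat t (XX A (LN n A Λ)) z = 0 ↔ heat t Λ (1 / 2 + z) = 0 := by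
  have e : XX A (LN n A Λ) = fun z => (2 ^ n * (A : ℂ) ^ (-(1 / 4) : ℂ)) * Λ (1 / 2 + z) :=
    funext fun z => xx_ln n hA Λ z
  rw [e, heat_smul, heat_shift]
  constructor
  · intro h
    exact (mul_eq_zero.1 h).resolve_left (cst_ne n hA)
  · intro h
    rw [h, mul_zero]

section
variable {K : Type} [Field K] [NumberField K] {a b D : ℤ} {P : ℕ → Polynomial ℝ}
  {A : ℝ} {Λ : ℂ → ℂ} {n : ℕ}

theorem dat_of (hn : Module.finrank ℚ K = n) (h : Comp K a b D P A Λ) :
    ∃ w : ℂ, Dat (EB1 n) (EB2 n) A (mu n) (EE K a b D P) w (LN n A Λ) := by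
  have hA := h.one_le
  have hA0 : 0 < A := by linarith
  have hAc : (A : ℂ) ≠ 0 := by exact_mod_cast hA0.ne'
  obtain ⟨w, hw, hfe⟩ := h.fe
  refine ⟨w, ?_⟩
  have hwn : ‖w‖ = 1 := by rcases hw with rfl | rfl <;> simp
  refine
    { one_le := hA
      re_le := mu_re n
      norm_eq := hwn
      entire := ?_
      euler := fun z hz => ?_
      close := fun z hz => ee_close hn h.two (fun p hp => hn ▸ h.poly p hp) hz
      two := fun η hη z hz => ee_two hn h.two (fun p hp => hn ▸ h.poly p hp) hη hz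
      fe := fun z => ?_
      bdd := fun c1 c2 => ?_ }
  · unfold LN
    refine Differentiable.mul (Differentiable.mul (differentiable_const _) (fun z => ?_))
      (h.entire.comp (by fun_prop))
    have h1 : DifferentiableAt ℂ (fun z : ℂ => -((z + 1 / 2) / 2)) z := by fun_prop
    exact h1.const_cpow (Or.inl hAc)
  · have hre : 3 / 2 < (z + 1 / 2 : ℂ).re := by
      have : (z + 1 / 2 : ℂ).re = z.re + 1 / 2 := by simp
      rw [this]; linarith
    rw [prod_gamma]
    unfold LN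
    rw [h.euler _ hre, hn]
    have e : (A : ℂ) ^ (-((z + 1 / 2) / 2)) * (A : ℂ) ^ ((z + 1 / 2) / 2) = 1 := by
      rw [← cpow_add _ _ hAc]
      simp
    have e2 : EG K a b D (z + 1 / 2) * EQ D P (z + 1 / 2) = EE K a b D P z := rfl
    rw [e2, mul_pow (2 : ℂ)]
    linear_combination (2 ^ n * ((2 * Real.pi : ℂ) ^ (-(z + 1 / 2)) * Gamma (z + 1 / 2)) ^ n *
      EE K a b D P z) * e
  · unfold LN
    rw [map_mul, map_mul, conj_cpow_real hA0, map_pow, map_ofNat, ← comp_conj h]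
    have e1 : conj (-((1 - conj z + 1 / 2) / 2)) = -((3 / 2 - z) / 2) := by
      simp only [map_neg, map_div₀, map_add, map_sub, map_one, map_ofNat, Complex.conj_conj]
      ring
    have e2 : conj (1 - conj z + 1 / 2) = 2 - (z + 1 / 2) := by
      simp only [map_div₀, map_add, map_sub, map_one, map_ofNat, Complex.conj_conj]
      ring
    rw [e1, e2, hfe (z + 1 / 2)]
    have e3 : (A : ℂ) ^ (1 / 2 - z) * (A : ℂ) ^ (-((3 / 2 - z) / 2)) = (A : ℂ) ^ (-((z + 1 / 2) / 2)) := by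
      rw [← cpow_add _ _ hAc]
      congr 1
      ring
    rw [← e3]
    ring
  · obtain ⟨M, hM⟩ := h.growth (c1 + 1 / 2) (c2 + 1 / 2)
    obtain ⟨P, hP⟩ : ∃ P : ℝ, P = 2 ^ n * A ^ (|c1| + 1 : ℝ) := ⟨_, rfl⟩
    have hP1 : 1 ≤ P := by
      rw [hP]
      have h1 : (1 : ℝ) ≤ 2 ^ n := one_le_pow₀ (by norm_num)
      have h2 : 1 ≤ A ^ (|c1| + 1 : ℝ) := Real.one_le_rpow hA (by positivity)
      nlinarith
    refine ⟨Real.log P + M, fun s h1 h2 => ?_⟩
    unfold LN
    have hre : (s + 1 / 2 : ℂ).re = s.re + 1 / 2 := by simp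
    have him : (s + 1 / 2 : ℂ).im = s.im := by simp
    have h3 := hM (s + 1 / 2) (by rw [hre]; linarith) (by rw [hre]; linarith)
    rw [him] at h3
    rw [norm_mul, norm_mul, norm_pow, Complex.norm_cpow_eq_rpow_re_of_pos hA0]
    have h4 : (-((s + 1 / 2) / 2) : ℂ).re ≤ |c1| + 1 := by
      have e : (-((s + 1 / 2) / 2) : ℂ).re = -((s.re + 1 / 2) / 2) := by
        rw [neg_re, show (2 : ℂ) = ((2 : ℝ) : ℂ) by norm_num, Complex.div_ofReal_re]
        simp
      rw [e]
      have := neg_abs_le c1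
      have := abs_nonneg c1
      linarith
    have h5 : A ^ (-((s + 1 / 2) / 2) : ℂ).re ≤ A ^ (|c1| + 1 : ℝ) := Real.rpow_le_rpow_of_exponent_le hA h4
    have h6 : ‖(2 : ℂ)‖ = 2 := by norm_num
    rw [h6]
    have hlogP := Real.log_nonneg hP1
    calc 2 ^ n * A ^ (-((s + 1 / 2) / 2) : ℂ).re * ‖Λ (s + 1 / 2)‖
        ≤ 2 ^ n * A ^ (|c1| + 1 : ℝ) * Real.exp (M * (1 + |s.im|)) := by gcongr
      _ = Real.exp (Real.log P) * Real.exp (M * (1 + |s.im|)) := by
          rw [Real.exp_log (by linarith), hP]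
      _ ≤ Real.exp (Real.log P * (1 + |s.im|)) * Real.exp (M * (1 + |s.im|)) := by
          apply mul_le_mul_of_nonneg_right _ (Real.exp_pos _).le
          apply Real.exp_le_exp.2
          have := abs_nonneg s.im
          nlinarith
      _ = Real.exp ((Real.log P + M) * (1 + |s.im|)) := by
          rw [← Real.exp_add]
          congr 1
          ring

end

end Pool.Agent.Helper92.HF
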