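import Pool.Agent.Helper92.MQ.Lfun
import Pool.Agent.H353R7.G3

/-!
# Project HF: uniform bounds for the Euler product of an elliptic curve over a number field (helper92)
-/

set_option autoImplicit false

open NumberField IsDedekindDomain Complex Filter Topology

namespace Pool.Agent.Helper92.HF

open Pool.Agent.Helper92.MQ (trv trv_poss intCast_mem_iff)
open Pool.Agent.W164.RC (lpoly Poss)
open Pool.Agent.H921R2.TatePole (below nm nm_eq nm_summable two_le_nm below_le_nm fiber_card_le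
  tsum_fiber summable_fiber)
open H353.F (norm_tprod_le prod_sub_one)

/-- factorisation of a polynomial without small zeros -/
lemma poly_fac (m : ℕ) : ∀ (P : Polynomial ℂ) (r : ℝ), 0 < r → P.coeff 0 = 1 → P.natDegree ≤ m →
    (∀ x : ℂ, ‖x‖ * r < 1 → P.eval x ≠ 0) →
    ∃ c : Fin m → ℂ, (∀ j, ‖c j‖ ≤ r) ∧ ∀ x : ℂ, P.eval x = ∏ j, (1 - c j * x) := by
  induction m with
  | zero =>
    intro P r hr h0 hdeg hroot
    refine ⟨fun _ => 0, fun j => j.elim0, fun x => ?_⟩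
    rw [Polynomial.eq_C_of_natDegree_le_zero hdeg, h0]
    simp
  | succ m ih =>
    intro P r hr h0 hdeg hroot
    rcases Nat.lt_or_ge m P.natDegree with h | h
    · have hdeg0 : P.degree ≠ 0 := by
        intro h1
        have := Polynomial.natDegree_eq_zero_iff_degree_le_zero.2 h1.le
        omega
      obtain ⟨ρ, hρ⟩ := IsAlgClosed.exists_root P hdeg0
      have hρ0 : ρ ≠ 0 := by
        rintro rfl
        rw [Polynomial.IsRoot.def, ← Polynomial.coeff_zero_eq_eval_zero, h0] at hρ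
        exact one_ne_zero hρ
      obtain ⟨Q, hQ⟩ := Polynomial.dvd_iff_isRoot.2 hρ
      have hρr : ‖ρ⁻¹‖ ≤ r := by
        by_contra hcon
        push Not at hcon
        refine hroot ρ ?_ hρ
        rw [norm_inv] at hcon
        have h1 : 0 < ‖ρ‖ := norm_pos_iff.2 hρ0
        calc ‖ρ‖ * r < ‖ρ‖ * ‖ρ‖⁻¹ := mul_lt_mul_of_pos_left hcon h1
          _ = 1 := mul_inv_cancel₀ h1.ne'
      have hQ' : P = (Polynomial.C 1 - Polynomial.C ρ⁻¹ * Polynomial.X) * (Polynomial.C (-ρ) * Q) := by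
        rw [hQ]
        have e : (Polynomial.C 1 - Polynomial.C ρ⁻¹ * Polynomial.X) * (Polynomial.C (-ρ) * Q) =
            ((Polynomial.C (ρ⁻¹ * ρ)) * Polynomial.X - Polynomial.C ρ) * Q := by
          rw [Polynomial.C_neg, Polynomial.C_mul, Polynomial.C_1]
          ring
        rw [e, inv_mul_cancel₀ hρ0, Polynomial.C_1, one_mul]
      obtain ⟨T, hT⟩ : ∃ T : Polynomial ℂ, T = Polynomial.C (-ρ) * Q := ⟨_, rfl⟩
      rw [← hT] at hQ'
      have hT0 : T.coeff 0 = 1 := by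
        have h1 := congrArg (fun p => Polynomial.eval 0 p) hQ'
        simp only [Polynomial.eval_mul, Polynomial.eval_sub, Polynomial.eval_C, Polynomial.eval_X,
          mul_zero, sub_zero, one_mul] at h1
        rw [← Polynomial.coeff_zero_eq_eval_zero, ← Polynomial.coeff_zero_eq_eval_zero, h0] at h1
        exact h1.symm
      have hTdeg : T.natDegree ≤ m := by
        have hQ0 : Q ≠ 0 := by
          rintro rfl
          rw [hT, mul_zero, Polynomial.coeff_zero] at hT0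
          exact zero_ne_one hT0
        have h1 : P.natDegree = 1 + Q.natDegree := by
          rw [hQ, Polynomial.natDegree_mul (Polynomial.X_sub_C_ne_zero ρ) hQ0,
            Polynomial.natDegree_X_sub_C]
        have h2 : T.natDegree ≤ Q.natDegree := by
          rw [hT]
          exact Polynomial.natDegree_C_mul_le _ _
        omega
      obtain ⟨c, hc, hfac⟩ := ih T r hr hT0 hTdeg (fun x hx h1 => hroot x hx (by
        rw [hQ', Polynomial.eval_mul, h1, mul_zero]))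
      refine ⟨Fin.cons ρ⁻¹ c, fun j => ?_, fun x => ?_⟩
      · refine Fin.cases ?_ (fun i => ?_) j
        · rw [Fin.cons_zero]; exact hρr
        · rw [Fin.cons_succ]; exact hc i
      · rw [Fin.prod_univ_succ]
        simp only [Fin.cons_zero, Fin.cons_succ]
        rw [← hfac x, hQ', Polynomial.eval_mul]
        simp
    · obtain ⟨c, hc, hfac⟩ := ih P r hr h0 h hroot
      refine ⟨Fin.cons 0 c, fun j => ?_, fun x => ?_⟩
      · refine Fin.cases ?_ (fun i => ?_) j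
        · rw [Fin.cons_zero, norm_zero]; exact hr.le
        · rw [Fin.cons_succ]; exact hc i
      · rw [Fin.prod_univ_succ]
        simp only [Fin.cons_zero, Fin.cons_succ]
        rw [← hfac x]
        simp

/-- the local factor as a product of two linear factors -/
lemma lpoly_roots {t ε : ℤ} {Q : ℕ} (hQ : 2 ≤ Q) (h : Poss Q t ε) (s : ℂ) :
    ∃ c : Fin 2 → ℂ, (∀ j, ‖c j‖ ≤ (Q : ℝ) ^ (-(s.re - 1 / 2))) ∧ lpoly t ε Q s = ∏ j, (1 - c j) := by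
  have hn0 : (0 : ℝ) < Q := by exact_mod_cast (by omega : 0 < Q)
  have hn1 : (1 : ℝ) ≤ Q := by exact_mod_cast (by omega : 1 ≤ Q)
  obtain ⟨X, hXd⟩ : ∃ X : ℂ, X = (Q : ℂ) ^ (-s) := ⟨_, rfl⟩
  have hX : ‖X‖ = (Q : ℝ) ^ (-s.re) := by
    rw [hXd, Complex.norm_natCast_cpow_of_pos (by omega), Complex.neg_re]
  have e1 : (Q : ℂ) ^ (1 - 2 * s) = Q * X ^ 2 := by
    rw [hXd]
    exact Pool.Agent.H82R3.EK.prime_cpow Q (by omega) s
  have hsq : Real.sqrt Q * (Q : ℝ) ^ (-s.re) = (Q : ℝ) ^ (-(s.re - 1 / 2)) := by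
    rw [Real.sqrt_eq_rpow, ← Real.rpow_add hn0]
    congr 1
    ring
  rcases h with ⟨rfl, ht⟩ | ⟨rfl, ht⟩
  · have hd : 0 ≤ 4 * (Q : ℝ) - (t : ℝ) ^ 2 := by
      have : ((t ^ 2 : ℤ) : ℝ) ≤ ((4 * (Q : ℤ) : ℤ) : ℝ) := by exact_mod_cast ht
      push_cast at this
      linarith
    obtain ⟨r, hr⟩ : ∃ r : ℝ, r = Real.sqrt (4 * (Q : ℝ) - (t : ℝ) ^ 2) := ⟨_, rfl⟩
    have hr2 : r ^ 2 = 4 * (Q : ℝ) - (t : ℝ) ^ 2 := by rw [hr]; exact Real.sq_sqrt hd
    have hnorm : ∀ r' : ℝ, r' ^ 2 = r ^ 2 → ‖((t : ℝ) / 2 : ℂ) + ((r' / 2 : ℝ) : ℂ) * I‖ = Real.sqrt Q := by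
      intro r' hr'
      have e2 : ((t : ℝ) / 2 : ℂ) + ((r' / 2 : ℝ) : ℂ) * I = ((t / 2 : ℝ) : ℂ) + ((r' / 2 : ℝ) : ℂ) * I := by
        push_cast; ring
      rw [e2, Complex.norm_add_mul_I]
      congr 1
      rw [div_pow, div_pow, hr', hr2]
      ring
    have hrc : (r : ℂ) ^ 2 = 4 * (Q : ℂ) - (t : ℂ) ^ 2 := by
      have := congrArg (fun x : ℝ => (x : ℂ)) hr2
      push_cast at this
      exact this
    refine ⟨![(((t : ℝ) / 2 : ℂ) + ((r / 2 : ℝ) : ℂ) * I) * X, (((t : ℝ) / 2 : ℂ) + (((-r) / 2 : ℝ) : ℂ) * I) * X],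
      fun j => ?_, ?_⟩
    · fin_cases j
      · show ‖(((t : ℝ) / 2 : ℂ) + ((r / 2 : ℝ) : ℂ) * I) * X‖ ≤ _
        rw [norm_mul, hnorm r rfl, hX, hsq]
      · show ‖(((t : ℝ) / 2 : ℂ) + (((-r) / 2 : ℝ) : ℂ) * I) * X‖ ≤ _
        rw [norm_mul, hnorm (-r) (by ring), hX, hsq]
    · rw [Fin.prod_univ_two]
      simp only [Matrix.cons_val_zero, Matrix.cons_val_one]
      unfold lpoly
      rw [← hXd, e1]
      have hI : (I : ℂ) ^ 2 = -1 := Complex.I_sq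
      push_cast
      linear_combination (-(X ^ 2) / 4) * hrc + (X ^ 2 * (r : ℂ) ^ 2 / 4) * hI
  · refine ⟨![(t : ℂ) * X, 0], fun j => ?_, ?_⟩
    · have hx0 : 0 ≤ (Q : ℝ) ^ (-(s.re - 1 / 2)) := by positivity
      fin_cases j
      · show ‖(t : ℂ) * X‖ ≤ _
        rw [norm_mul, hX, Complex.norm_intCast]
        have ht1 : |(t : ℝ)| ≤ 1 := by
          rw [← sq_le_one_iff_abs_le_one]
          exact_mod_cast ht
        calc |(t : ℝ)| * (Q : ℝ) ^ (-s.re) ≤ 1 * (Q : ℝ) ^ (-s.re) :=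
              mul_le_mul_of_nonneg_right ht1 (by positivity)
          _ = (Q : ℝ) ^ (-s.re) := one_mul _
          _ ≤ _ := Real.rpow_le_rpow_of_exponent_le hn1 (by linarith)
      · show ‖(0 : ℂ)‖ ≤ _
        rw [norm_zero]
        exact hx0
    · rw [Fin.prod_univ_two]
      simp only [Matrix.cons_val_zero, Matrix.cons_val_one]
      unfold lpoly
      rw [← hXd]
      push_cast
      ring

/-- `∑ n^(-x)` -/
noncomputable def ZZ (x : ℝ) : ℝ := ∑' n : ℕ, (n : ℝ) ^ (-x)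

lemma ZZ_nonneg (x : ℝ) : 0 ≤ ZZ x := tsum_nonneg fun n => Real.rpow_nonneg (Nat.cast_nonneg _) _

lemma summable_ZZ {x : ℝ} (hx : 1 < x) : Summable (fun n : ℕ => (n : ℝ) ^ (-x)) :=
  Real.summable_nat_rpow.2 (by linarith)

lemma summable_pr {x : ℝ} (hx : 1 < x) : Summable (fun p : Nat.Primes => ((p : ℕ) : ℝ) ^ (-x)) :=
  Nat.Primes.summable_rpow.mpr (by linarith)

lemma pr_le_ZZ {x : ℝ} (hx : 1 < x) : ∑' p : Nat.Primes, ((p : ℕ) : ℝ) ^ (-x) ≤ ZZ x :=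
  (summable_ZZ hx).tsum_subtype_le _ {p : ℕ | p.Prime}
    (fun n => Real.rpow_nonneg (Nat.cast_nonneg n) _)

lemma fin_le_ZZ {x : ℝ} (hx : 1 < x) (S : Finset ℕ) : ∑ p ∈ S, (p : ℝ) ^ (-x) ≤ ZZ x :=
  (summable_ZZ hx).sum_le_tsum S fun n _ => Real.rpow_nonneg (Nat.cast_nonneg _) _

lemma small_pow {n : ℕ} (hn : 2 ≤ n) {x : ℝ} (hx : 4 ≤ x) :
    (n : ℝ) ^ (-x) ≤ 16 * (1 / 2 : ℝ) ^ x * (n : ℝ) ^ (-(4 : ℝ)) := by
  have hp : (2 : ℝ) ≤ (n : ℝ) := by exact_mod_cast hn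
  have e1 : (-x : ℝ) = -4 + -(x - 4) := by ring
  rw [e1, Real.rpow_add (by linarith), mul_comm]
  refine mul_le_mul_of_nonneg_right ?_ (Real.rpow_nonneg (by linarith) _)
  have h2 : (n : ℝ) ^ (-(x - 4)) ≤ (2 : ℝ) ^ (-(x - 4)) :=
    Real.rpow_le_rpow_of_nonpos (by norm_num) hp (by linarith)
  refine h2.trans (le_of_eq ?_)
  have e2 : (-(x - 4) : ℝ) = 4 + -x := by ring
  rw [e2, Real.rpow_add (by norm_num), one_div, Real.inv_rpow (by norm_num), Real.rpow_neg (by norm_num)]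
  norm_num

section
variable {K : Type} [Field K] [NumberField K]

lemma sum_nm_le {x : ℝ} (hx : 1 < x) : ∑' v : HeightOneSpectrum (𝓞 K), (nm v : ℝ) ^ (-x) ≤
    Module.finrank ℚ K * ∑' p : Nat.Primes, ((p : ℕ) : ℝ) ^ (-x) := by
  have hs := nm_summable (K := K) hx
  rw [tsum_fiber hs, ← tsum_mul_left]
  refine (summable_fiber hs).tsum_le_tsum (fun p => ?_) ((summable_pr hx).mul_left _)
  have hp0 : (0 : ℝ) < ((p : ℕ) : ℝ) := by exact_mod_cast p.2.pos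
  calc ∑ v : {v : HeightOneSpectrum (𝓞 K) // below v = p}, (nm v.1 : ℝ) ^ (-x)
      ≤ ∑ v : {v : HeightOneSpectrum (𝓞 K) // below v = p}, ((p : ℕ) : ℝ) ^ (-x) := by
        refine Finset.sum_le_sum fun v _ => ?_
        refine Real.rpow_le_rpow_of_nonpos hp0 ?_ (by linarith)
        have := below_le_nm v.1
        rw [v.2] at this
        exact_mod_cast this
    _ = (Fintype.card {v : HeightOneSpectrum (𝓞 K) // below v = p}) * ((p : ℕ) : ℝ) ^ (-x) := by simp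
    _ ≤ _ := by
        have h5 : (Fintype.card {v : HeightOneSpectrum (𝓞 K) // below v = p} : ℝ) ≤
          Module.finrank ℚ K := by exact_mod_cast fiber_card_le p
        exact mul_le_mul_of_nonneg_right h5 (by positivity)

end

/-- `‖∏' f - 1‖ ≤ exp (∑ ‖f - 1‖) - 1` -/
lemma tprod_sub_one {ι : Type*} {f : ι → ℂ} (hf : Summable fun i => ‖f i - 1‖) :
    ‖∏' i, f i - 1‖ ≤ Real.exp (∑' i, ‖f i - 1‖) - 1 := by
  obtain ⟨hm, -⟩ := norm_tprod_le f hf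
  have hlim : Tendsto (fun t : Finset ι => ∏ i ∈ t, f i - 1) atTop (𝓝 (∏' i, f i - 1)) :=
    Tendsto.sub_const hm.hasProd 1
  refine le_of_tendsto hlim.norm (Eventually.of_forall fun t => ?_)
  have h1 := Finset.norm_prod_one_add_sub_one_le t (fun i => f i - 1)
  simp only [add_sub_cancel] at h1
  refine h1.trans ?_
  have h2 := hf.sum_le_tsum t (fun _ _ => norm_nonneg _)
  have := Real.exp_le_exp.2 h2
  linarith

lemma fprod_sub_one {ι : Type*} (t : Finset ι) (f : ι → ℂ) :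
    ‖∏ i ∈ t, f i - 1‖ ≤ Real.exp (∑ i ∈ t, ‖f i - 1‖) - 1 := by
  have h1 := Finset.norm_prod_one_add_sub_one_le t (fun i => f i - 1)
  simpa only [add_sub_cancel] using h1

lemma fprod_le {ι : Type*} (t : Finset ι) (f : ι → ℂ) :
    ‖∏ i ∈ t, f i‖ ≤ Real.exp (∑ i ∈ t, ‖f i - 1‖) := by
  have h1 := fprod_sub_one t f
  have h2 := norm_add_le (∏ i ∈ t, f i - 1) 1
  rw [sub_add_cancel, norm_one] at h2
  linarith

/-- the constants -/
noncomputable def AE (m : ℕ) : ℝ := 2 * m * Real.exp (2 * m)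
/-- the exponent -/
noncomputable def XE (n : ℕ) (η : ℝ) : ℝ := (AE 2 * n + AE (2 * n)) * ZZ (1 + η)
noncomputable def EB2 (n : ℕ) (η : ℝ) : ℝ := Real.exp (XE n η)
noncomputable def AE4 (n : ℕ) : ℝ := (AE 2 * n + AE (2 * n)) * (16 * ZZ 4)
noncomputable def EB1 (n : ℕ) : ℝ := 1 + AE4 n * Real.exp (AE4 n)

lemma AE_nonneg (m : ℕ) : 0 ≤ AE m := by unfold AE; positivity

lemma AE4_nonneg (n : ℕ) : 0 ≤ AE4 n := by
  unfold AE4
  have := ZZ_nonneg 4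
  have := AE_nonneg 2
  have := AE_nonneg (2 * n)
  positivity

lemma XE_nonneg (n : ℕ) (η : ℝ) : 0 ≤ XE n η := by
  unfold XE
  have := ZZ_nonneg (1 + η)
  have := AE_nonneg 2
  have := AE_nonneg (2 * n)
  positivity

lemma one_le_EB1 (n : ℕ) : 1 ≤ EB1 n := by
  unfold EB1
  have := AE4_nonneg n
  have : 0 ≤ AE4 n * Real.exp (AE4 n) := by positivity
  linarith

lemma one_le_EB2 (n : ℕ) (η : ℝ) : 1 ≤ EB2 n η := Real.one_le_exp (XE_nonneg n η)

/-- a possible Euler polynomial at `p` for an elliptic curve over a field of degree `n` -/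
structure IsEP (n p : ℕ) (P : Polynomial ℝ) : Prop where
  zero : P.coeff 0 = 1
  deg : P.natDegree ≤ 2 * n
  root : ∀ x : ℂ, ‖x‖ * Real.sqrt p < 1 → Polynomial.aeval x P ≠ 0

/-- the local bounds at the bad primes -/
lemma bad_bound {n p : ℕ} (hp : p.Prime) {P : Polynomial ℝ} (h : IsEP n p P) {x : ℝ} (hx : 1 ≤ x)
    {s : ℂ} (hs : x + 1 / 2 ≤ s.re) :
    ‖(Polynomial.aeval ((p : ℂ) ^ (-s)) P)⁻¹ - 1‖ ≤ AE (2 * n) * (p : ℝ) ^ (-x) ∧
    ‖Polynomial.aeval ((p : ℂ) ^ (-s)) P - 1‖ ≤ AE (2 * n) * (p : ℝ) ^ (-x) ∧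
    (Polynomial.aeval ((p : ℂ) ^ (-s)) P)⁻¹ * Polynomial.aeval ((p : ℂ) ^ (-s)) P = 1 := by
  have hn0 : (0 : ℝ) < p := by exact_mod_cast hp.pos
  have hn1 : (1 : ℝ) ≤ p := by exact_mod_cast hp.one_le
  have hn2 : (2 : ℝ) ≤ p := by exact_mod_cast hp.two_le
  have hxh : (p : ℝ) ^ (-x) ≤ 1 / 2 := by
    calc (p : ℝ) ^ (-x) ≤ (p : ℝ) ^ (-1 : ℝ) := Real.rpow_le_rpow_of_exponent_le hn1 (by linarith)
      _ = (p : ℝ)⁻¹ := Real.rpow_neg_one _
      _ ≤ 1 / 2 := by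
          rw [one_div]
          exact inv_anti₀ (by norm_num) hn2
  have heval : ∀ y : ℂ, Polynomial.aeval y P = (P.map (algebraMap ℝ ℂ)).eval y := fun y => by
    rw [Polynomial.eval_map_algebraMap]
  obtain ⟨c, hc, hfac⟩ := poly_fac (2 * n) (P.map (algebraMap ℝ ℂ)) (Real.sqrt p)
    (Real.sqrt_pos.2 hn0) (by rw [Polynomial.coeff_map, h.zero, map_one])
    (Polynomial.natDegree_map_le.trans h.deg) (fun y hy => by
      rw [← heval]
      exact h.root y hy)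
  have hX : ‖(p : ℂ) ^ (-s)‖ = (p : ℝ) ^ (-s.re) := by
    rw [Complex.norm_natCast_cpow_of_pos hp.pos, Complex.neg_re]
  have hc' : ∀ j, ‖c j * (p : ℂ) ^ (-s)‖ ≤ (p : ℝ) ^ (-x) := fun j => by
    rw [norm_mul, hX]
    calc ‖c j‖ * (p : ℝ) ^ (-s.re) ≤ Real.sqrt p * (p : ℝ) ^ (-s.re) :=
          mul_le_mul_of_nonneg_right (hc j) (by positivity)
      _ = (p : ℝ) ^ (1 / 2 + -s.re) := by rw [Real.sqrt_eq_rpow, ← Real.rpow_add hn0]
      _ ≤ _ := Real.rpow_le_rpow_of_exponent_le hn1 (by linarith)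
  obtain ⟨k1, k2, k3⟩ := prod_sub_one (fun j => c j * (p : ℂ) ^ (-s)) (by positivity) hxh hc'
  have he : Polynomial.aeval ((p : ℂ) ^ (-s)) P = ∏ j, (1 - c j * (p : ℂ) ^ (-s)) := by
    rw [heval, hfac]
  have he' : (Polynomial.aeval ((p : ℂ) ^ (-s)) P)⁻¹ = ∏ j, (1 - c j * (p : ℂ) ^ (-s))⁻¹ := by
    rw [he, Finset.prod_inv_distrib]
  rw [he', he]
  exact ⟨k1, k2, k3⟩

section
variable {K : Type} [Field K] [NumberField K]

open Classical in
/-- the Euler polynomial at `v`, for the places not dividing `D` -/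
noncomputable def gp (a b D : ℤ) (v : HeightOneSpectrum (𝓞 K)) (s : ℂ) : ℂ :=
  if ((D : ℤ) : 𝓞 K) ∈ v.asIdeal then 1 else lpoly (trv a b v) 1 (Ideal.absNorm v.asIdeal) s

/-- the local bounds -/
lemma loc_bound {a b D : ℤ} (h2 : 2 ∣ D) {x : ℝ} (hx : 1 ≤ x) {s : ℂ} (hs : x + 1 / 2 ≤ s.re)
    (v : HeightOneSpectrum (𝓞 K)) :
    ‖(gp a b D v s)⁻¹ - 1‖ ≤ AE 2 * (nm v : ℝ) ^ (-x) ∧ ‖gp a b D v s - 1‖ ≤ AE 2 * (nm v : ℝ) ^ (-x) ∧
      (gp a b D v s)⁻¹ * gp a b D v s = 1 := by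
  have hA := AE_nonneg 2
  unfold gp
  split_ifs with h
  · simp only [inv_one, sub_self, norm_zero, mul_one, and_true, and_self]
    positivity
  have h2v := two_le_nm v
  have hn0 : (0 : ℝ) < nm v := by exact_mod_cast (by omega : 0 < nm v)
  have hn1 : (1 : ℝ) ≤ nm v := by exact_mod_cast (by omega : 1 ≤ nm v)
  have hn2 : (2 : ℝ) ≤ nm v := by exact_mod_cast h2v
  have hxh : (nm v : ℝ) ^ (-x) ≤ 1 / 2 := by
    calc (nm v : ℝ) ^ (-x) ≤ (nm v : ℝ) ^ (-1 : ℝ) := Real.rpow_le_rpow_of_exponent_le hn1 (by linarith)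
      _ = (nm v : ℝ)⁻¹ := Real.rpow_neg_one _
      _ ≤ 1 / 2 := by
          rw [one_div]
          exact inv_anti₀ (by norm_num) hn2
  obtain ⟨c, hc, he⟩ := lpoly_roots h2v (t := trv a b v) (ε := 1) (Or.inl ⟨rfl, trv_poss v (by
    intro h3
    apply h
    rw [intCast_mem_iff, h3]
    exact h2)⟩) s
  have hc' : ∀ j, ‖c j‖ ≤ (nm v : ℝ) ^ (-x) := fun j =>
    (hc j).trans (Real.rpow_le_rpow_of_exponent_le hn1 (by linarith))
  obtain ⟨k1, k2, k3⟩ := prod_sub_one c (by positivity) hxh hc'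
  have e0 : lpoly (trv a b v) 1 (Ideal.absNorm v.asIdeal) s = ∏ j, (1 - c j) := he
  have he' : (lpoly (trv a b v) 1 (Ideal.absNorm v.asIdeal) s)⁻¹ = ∏ j, (1 - c j)⁻¹ := by
    rw [e0, Finset.prod_inv_distrib]
  rw [he', e0]
  exact ⟨k1, k2, k3⟩

/-- the product over the good places -/
noncomputable def EG (K : Type) [Field K] [NumberField K] (a b D : ℤ) (s : ℂ) : ℂ :=
  ∏' v : HeightOneSpectrum (𝓞 K), (gp a b D v s)⁻¹

/-- the product over the bad primes -/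
noncomputable def EQ (D : ℤ) (P : ℕ → Polynomial ℝ) (s : ℂ) : ℂ :=
  ∏ p ∈ D.natAbs.primeFactors, (Polynomial.aeval ((p : ℂ) ^ (-s)) (P p))⁻¹

/-- the normalised Euler product -/
noncomputable def EE (K : Type) [Field K] [NumberField K] (a b D : ℤ) (P : ℕ → Polynomial ℝ)
    (z : ℂ) : ℂ := EG K a b D (z + 1 / 2) * EQ D P (z + 1 / 2)

lemma ee_summable {a b D : ℤ} (h2 : 2 ∣ D) {x : ℝ} (hx : 1 < x) {s : ℂ} (hs : x + 1 / 2 ≤ s.re) :
    (Summable fun v : HeightOneSpectrum (𝓞 K) => ‖(gp a b D v s)⁻¹ - 1‖) ∧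
    (Summable fun v : HeightOneSpectrum (𝓞 K) => ‖gp a b D v s - 1‖) ∧
    ∑' v : HeightOneSpectrum (𝓞 K), ‖(gp a b D v s)⁻¹ - 1‖ ≤ AE 2 * (Module.finrank ℚ K * ∑' p : Nat.Primes, ((p : ℕ) : ℝ) ^ (-x)) ∧
    ∑' v : HeightOneSpectrum (𝓞 K), ‖gp a b D v s - 1‖ ≤ AE 2 * (Module.finrank ℚ K * ∑' p : Nat.Primes, ((p : ℕ) : ℝ) ^ (-x)) := by
  have hloc := loc_bound (K := K) (a := a) (b := b) h2 hx.le hs
  have hS := (nm_summable (K := K) hx).mul_left (AE 2)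
  have hfs : Summable fun v : HeightOneSpectrum (𝓞 K) => ‖(gp a b D v s)⁻¹ - 1‖ :=
    Summable.of_nonneg_of_le (fun _ => norm_nonneg _) (fun v => (hloc v).1) hS
  have hgs : Summable fun v : HeightOneSpectrum (𝓞 K) => ‖gp a b D v s - 1‖ :=
    Summable.of_nonneg_of_le (fun _ => norm_nonneg _) (fun v => (hloc v).2.1) hS
  have hT : ∑' v : HeightOneSpectrum (𝓞 K), AE 2 * (nm v : ℝ) ^ (-x) ≤
      AE 2 * (Module.finrank ℚ K * ∑' p : Nat.Primes, ((p : ℕ) : ℝ) ^ (-x)) := by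
    rw [tsum_mul_left]
    exact mul_le_mul_of_nonneg_left (sum_nm_le hx) (AE_nonneg 2)
  exact ⟨hfs, hgs, (hfs.tsum_le_tsum (fun v => (hloc v).1) hS).trans hT,
    (hgs.tsum_le_tsum (fun v => (hloc v).2.1) hS).trans hT⟩

theorem ee_two {n : ℕ} (hn : Module.finrank ℚ K = n) {a b D : ℤ} (h2 : 2 ∣ D)
    {P : ℕ → Polynomial ℝ} (hP : ∀ p ∈ D.natAbs.primeFactors, IsEP n p (P p)) {η : ℝ} (hη : 0 < η)
    {z : ℂ} (hz : 1 + η ≤ z.re) :
    ‖EE K a b D P z‖ ≤ EB2 n η ∧ 1 ≤ EB2 n η * ‖EE K a b D P z‖ := by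
  have hre : (z + 1 / 2 : ℂ).re = z.re + 1 / 2 := by simp
  have hs : (1 + η) + 1 / 2 ≤ (z + 1 / 2 : ℂ).re := by rw [hre]; linarith
  have hη1 : 1 < 1 + η := by linarith
  obtain ⟨hfs, hgs, hfb, hgb⟩ := ee_summable (K := K) (a := a) (b := b) h2 hη1 hs
  rw [hn] at hfb hgb
  obtain ⟨hfm, hf1⟩ := norm_tprod_le _ hfs
  obtain ⟨hgm, hg1⟩ := norm_tprod_le _ hgs
  have hpr := pr_le_ZZ hη1
  have hA2 := AE_nonneg 2
  have hAn := AE_nonneg (2 * n)
  have hle : AE 2 * (n * ∑' p : Nat.Primes, ((p : ℕ) : ℝ) ^ (-(1 + η))) ≤ AE 2 * n * ZZ (1 + η) := by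
    rw [mul_assoc]
    gcongr
  have hbad : ∀ p ∈ D.natAbs.primeFactors,
      ‖(Polynomial.aeval ((p : ℂ) ^ (-(z + 1 / 2))) (P p))⁻¹ - 1‖ ≤ AE (2 * n) * (p : ℝ) ^ (-(1 + η)) ∧
      ‖Polynomial.aeval ((p : ℂ) ^ (-(z + 1 / 2))) (P p) - 1‖ ≤ AE (2 * n) * (p : ℝ) ^ (-(1 + η)) ∧
      (Polynomial.aeval ((p : ℂ) ^ (-(z + 1 / 2))) (P p))⁻¹ *
        Polynomial.aeval ((p : ℂ) ^ (-(z + 1 / 2))) (P p) = 1 := fun p hp =>
    bad_bound (Nat.prime_of_mem_primeFactors hp) (hP p hp) hη1.le hs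
  have hsumle : ∀ g : ℕ → ℝ, (∀ p ∈ D.natAbs.primeFactors, g p ≤ AE (2 * n) * (p : ℝ) ^ (-(1 + η))) →
      ∑ p ∈ D.natAbs.primeFactors, g p ≤ AE (2 * n) * ZZ (1 + η) := fun g hg => by
    refine (Finset.sum_le_sum hg).trans ?_
    rw [← Finset.mul_sum]
    exact mul_le_mul_of_nonneg_left (fin_le_ZZ hη1 _) hAn
  have hb1 := (fprod_le D.natAbs.primeFactors
    (fun p => (Polynomial.aeval ((p : ℂ) ^ (-(z + 1 / 2))) (P p))⁻¹)).trans
    (Real.exp_le_exp.2 (hsumle _ fun p hp => (hbad p hp).1))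
  have hb2 := (fprod_le D.natAbs.primeFactors
    (fun p => Polynomial.aeval ((p : ℂ) ^ (-(z + 1 / 2))) (P p))).trans
    (Real.exp_le_exp.2 (hsumle _ fun p hp => (hbad p hp).2.1))
  have hf2 := hf1.trans (Real.exp_le_exp.2 (hfb.trans hle))
  have hg2 := hg1.trans (Real.exp_le_exp.2 (hgb.trans hle))
  have hEB : EB2 n η = Real.exp (AE 2 * n * ZZ (1 + η)) * Real.exp (AE (2 * n) * ZZ (1 + η)) := by
    rw [← Real.exp_add]
    unfold EB2 XE
    congr 1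
    ring
  have hup : ‖EE K a b D P z‖ ≤ EB2 n η := by
    rw [hEB]
    unfold EE
    rw [norm_mul]
    exact mul_le_mul hf2 hb1 (norm_nonneg _) (Real.exp_pos _).le
  refine ⟨hup, ?_⟩
  have hprod : EG K a b D (z + 1 / 2) * ∏' v : HeightOneSpectrum (𝓞 K), gp a b D v (z + 1 / 2) = 1 := by
    unfold EG
    rw [← hfm.tprod_mul hgm]
    have h1 : ∀ v : HeightOneSpectrum (𝓞 K), (gp a b D v (z + 1 / 2))⁻¹ * gp a b D v (z + 1 / 2) = 1 :=
      fun v => (loc_bound h2 hη1.le hs v).2.2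
    simp only [h1, tprod_one]
  have hprod2 : EQ D P (z + 1 / 2) * ∏ p ∈ D.natAbs.primeFactors,
      Polynomial.aeval ((p : ℂ) ^ (-(z + 1 / 2))) (P p) = 1 := by
    unfold EQ
    rw [← Finset.prod_mul_distrib]
    exact Finset.prod_eq_one fun p hp => (hbad p hp).2.2
  obtain ⟨u, hu⟩ : ∃ u : ℂ, u = ∏' v : HeightOneSpectrum (𝓞 K), gp a b D v (z + 1 / 2) := ⟨_, rfl⟩
  obtain ⟨u', hu'⟩ : ∃ u' : ℂ, u' = ∏ p ∈ D.natAbs.primeFactors,
      Polynomial.aeval ((p : ℂ) ^ (-(z + 1 / 2))) (P p) := ⟨_, rfl⟩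
  rw [← hu] at hprod hg2
  rw [← hu'] at hprod2 hb2
  have h3 : ‖EE K a b D P z‖ * (‖u‖ * ‖u'‖) = 1 := by
    rw [← norm_mul, ← norm_mul, ← norm_one (α := ℂ)]
    congr 1
    unfold EE
    calc EG K a b D (z + 1 / 2) * EQ D P (z + 1 / 2) * (u * u') =
        (EG K a b D (z + 1 / 2) * u) * (EQ D P (z + 1 / 2) * u') := by ring
      _ = 1 := by rw [hprod, hprod2, one_mul]
  rw [← h3, mul_comm (EB2 n η)]
  refine mul_le_mul_of_nonneg_left ?_ (norm_nonneg _)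
  rw [hEB]
  exact mul_le_mul hg2 hb2 (norm_nonneg _) (Real.exp_pos _).le

theorem ee_close {n : ℕ} (hn : Module.finrank ℚ K = n) {a b D : ℤ} (h2 : 2 ∣ D)
    {P : ℕ → Polynomial ℝ} (hP : ∀ p ∈ D.natAbs.primeFactors, IsEP n p (P p))
    {z : ℂ} (hz : 4 ≤ z.re) :
    ‖EE K a b D P z - 1‖ ≤ EB1 n * (1 / 2 : ℝ) ^ z.re := by
  have hre : (z + 1 / 2 : ℂ).re = z.re + 1 / 2 := by simp
  have hs : z.re + 1 / 2 ≤ (z + 1 / 2 : ℂ).re := by rw [hre]
  have hz1 : 1 < z.re := by linarith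
  obtain ⟨hfs, -, hfb, -⟩ := ee_summable (K := K) (a := a) (b := b) h2 hz1 hs
  rw [hn] at hfb
  obtain ⟨-, hf1⟩ := norm_tprod_le _ hfs
  set h : ℝ := (1 / 2 : ℝ) ^ z.re with hh
  have hh0 : 0 < h := Real.rpow_pos_of_pos (by norm_num) _
  have hh1 : h ≤ 1 := Real.rpow_le_one (by norm_num) (by norm_num) (by linarith)
  have hA2 := AE_nonneg 2
  have hAn := AE_nonneg (2 * n)
  have hZ := ZZ_nonneg 4
  have hS4 : Summable (fun p : Nat.Primes => ((p : ℕ) : ℝ) ^ (-(4 : ℝ))) := summable_pr (by norm_num)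
  obtain ⟨G, hG⟩ : ∃ G : ℝ, G = AE 2 * n * (16 * ZZ 4) := ⟨_, rfl⟩
  obtain ⟨B, hB⟩ : ∃ B : ℝ, B = AE (2 * n) * (16 * ZZ 4) := ⟨_, rfl⟩
  have hG0 : 0 ≤ G := by rw [hG]; positivity
  have hB0 : 0 ≤ B := by rw [hB]; positivity
  have hGB : AE4 n = G + B := by rw [hG, hB]; unfold AE4; ring
  have hsum : ∑' v : HeightOneSpectrum (𝓞 K), ‖(gp a b D v (z + 1 / 2))⁻¹ - 1‖ ≤ G * h := by
    refine hfb.trans ?_
    have h1 : ∑' p : Nat.Primes, ((p : ℕ) : ℝ) ^ (-z.re) ≤ 16 * h * ZZ 4 := by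
      have h3 : ∑' p : Nat.Primes, ((p : ℕ) : ℝ) ^ (-z.re) ≤
          ∑' p : Nat.Primes, 16 * h * ((p : ℕ) : ℝ) ^ (-(4 : ℝ)) :=
        (summable_pr hz1).tsum_le_tsum (fun p => small_pow p.2.two_le hz) (hS4.mul_left _)
      rw [tsum_mul_left] at h3
      exact h3.trans (mul_le_mul_of_nonneg_left (pr_le_ZZ (by norm_num)) (by positivity))
    calc AE 2 * (n * ∑' p : Nat.Primes, ((p : ℕ) : ℝ) ^ (-z.re))
        ≤ AE 2 * (n * (16 * h * ZZ 4)) := by gcongr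
      _ = G * h := by rw [hG]; ring
  have hbsum : ∑ p ∈ D.natAbs.primeFactors,
      ‖(Polynomial.aeval ((p : ℂ) ^ (-(z + 1 / 2))) (P p))⁻¹ - 1‖ ≤ B * h := by
    have h1 : ∀ p ∈ D.natAbs.primeFactors,
        ‖(Polynomial.aeval ((p : ℂ) ^ (-(z + 1 / 2))) (P p))⁻¹ - 1‖ ≤
          AE (2 * n) * (16 * h) * (p : ℝ) ^ (-(4 : ℝ)) := fun p hp => by
      refine (bad_bound (Nat.prime_of_mem_primeFactors hp) (hP p hp) hz1.le hs).1.trans ?_
      rw [mul_assoc]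
      exact mul_le_mul_of_nonneg_left (small_pow (Nat.prime_of_mem_primeFactors hp).two_le hz) hAn
    refine (Finset.sum_le_sum h1).trans ?_
    rw [← Finset.mul_sum]
    calc AE (2 * n) * (16 * h) * ∑ p ∈ D.natAbs.primeFactors, (p : ℝ) ^ (-(4 : ℝ))
        ≤ AE (2 * n) * (16 * h) * ZZ 4 :=
          mul_le_mul_of_nonneg_left (fin_le_ZZ (by norm_num) _) (by positivity)
      _ = B * h := by rw [hB]; ring
  have hexp : ∀ y : ℝ, 0 ≤ y → Real.exp y - 1 ≤ y * Real.exp y := fun y hy => by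
    have h5 := Real.add_one_le_exp (-y)
    have h6 : Real.exp y * Real.exp (-y) = 1 := by rw [← Real.exp_add]; simp
    nlinarith [Real.exp_pos y]
  have k1 : ‖EG K a b D (z + 1 / 2) - 1‖ ≤ Real.exp (G * h) - 1 := by
    have h3 := tprod_sub_one hfs
    have h4 := Real.exp_le_exp.2 hsum
    have h5 : ‖EG K a b D (z + 1 / 2) - 1‖ ≤
      Real.exp (∑' v : HeightOneSpectrum (𝓞 K), ‖(gp a b D v (z + 1 / 2))⁻¹ - 1‖) - 1 := h3
    linarith
  have k2 : ‖EQ D P (z + 1 / 2) - 1‖ ≤ Real.exp (B * h) - 1 := by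
    have h3 := fprod_sub_one D.natAbs.primeFactors
      (fun p => (Polynomial.aeval ((p : ℂ) ^ (-(z + 1 / 2))) (P p))⁻¹)
    have h4 := Real.exp_le_exp.2 hbsum
    have h5 : ‖EQ D P (z + 1 / 2) - 1‖ ≤ Real.exp (∑ p ∈ D.natAbs.primeFactors,
      ‖(Polynomial.aeval ((p : ℂ) ^ (-(z + 1 / 2))) (P p))⁻¹ - 1‖) - 1 := h3
    linarith
  have e : EE K a b D P z - 1 = (EG K a b D (z + 1 / 2) - 1) * (EQ D P (z + 1 / 2) - 1) +
      (EG K a b D (z + 1 / 2) - 1) + (EQ D P (z + 1 / 2) - 1) := by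
    unfold EE
    ring
  have k3 : ‖EE K a b D P z - 1‖ ≤ Real.exp (AE4 n * h) - 1 := by
    rw [e]
    have h3 : Real.exp (AE4 n * h) - 1 = (Real.exp (G * h) - 1) * (Real.exp (B * h) - 1) +
        (Real.exp (G * h) - 1) + (Real.exp (B * h) - 1) := by
      rw [hGB, add_mul, Real.exp_add]
      ring
    rw [h3]
    refine (norm_add_le _ _).trans (add_le_add ((norm_add_le _ _).trans (add_le_add ?_ k1)) k2)
    rw [norm_mul]
    exact mul_le_mul k1 k2 (norm_nonneg _) ((norm_nonneg _).trans k1)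
  have hA := AE4_nonneg n
  have h4 := hexp (AE4 n * h) (by positivity)
  have h7 : Real.exp (AE4 n * h) ≤ Real.exp (AE4 n) := Real.exp_le_exp.2 (by nlinarith)
  calc ‖EE K a b D P z - 1‖ ≤ (AE4 n * h) * Real.exp (AE4 n) :=
        k3.trans (h4.trans (mul_le_mul_of_nonneg_left h7 (by positivity)))
    _ ≤ EB1 n * h := by
        unfold EB1
        nlinarith

end

end Pool.Agent.Helper92.HF
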