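import Pool.Agent.Helper92.HF.Comp

/-!
# Project HF: families of elliptic curves over number fields (helper92)
-/

set_option autoImplicit false

open NumberField IsDedekindDomain Complex Filter Topology Set
open scoped ComplexConjugate

namespace Pool.Agent.Helper92.HF

open Pool.Agent.W169.HF (heat Slow Fe XX cnd mono_all line_iff)

/-- `Λ` is the completed L-function of an elliptic curve over a number field of degree `n` -/
def IsC (n : ℕ) (A : ℝ) (Λ : ℂ → ℂ) : Prop :=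
  ∃ (K : Type) (_ : Field K) (_ : NumberField K) (a b D : ℤ) (P : ℕ → Polynomial ℝ),
    Module.finrank ℚ K = n ∧ Comp K a b D P A Λ

section
variable {n : ℕ} {A : ℝ} {Λ : ℂ → ℂ}

lemma IsC.one_le (h : IsC n A Λ) : 1 ≤ A := by
  obtain ⟨K, _, _, a, b, D, P, hn, hc⟩ := h
  exact hc.one_le

lemma IsC.pos (h : IsC n A Λ) : 1 ≤ n := by
  obtain ⟨K, _, _, a, b, D, P, hn, hc⟩ := h
  rw [← hn]
  exact Module.finrank_pos

lemma IsC.dat (h : IsC n A Λ) : ∃ (E : ℂ → ℂ) (w : ℂ), Dat (EB1 n) (EB2 n) A (mu n) E w (LN n A Λ) := by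
  obtain ⟨K, _, _, a, b, D, P, hn, hc⟩ := h
  obtain ⟨w, hd⟩ := dat_of hn hc
  exact ⟨_, w, hd⟩

lemma half_add_half (s : ℂ) : (1 / 2 + (s - 1 / 2) : ℂ) = s := by ring

lemma re_sub_half (s : ℂ) : (s - 1 / 2 : ℂ).re = s.re - 1 / 2 := by simp

lemma im_sub_half (s : ℂ) : (s - 1 / 2 : ℂ).im = s.im := by simp

/-- the zeros lie in the strip -/
lemma IsC.strip (h : IsC n A Λ) {ρ : ℂ} (hρ : Λ ρ = 0) : |ρ.re - 1| ≤ 1 / 2 := by
  have hA := h.one_le
  have hn := h.pos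
  obtain ⟨E, w, hd⟩ := h.dat
  obtain ⟨-, hslow, hfe, hzer, hne⟩ := sharpE (by omega) (one_le_EB1 n) (one_le_EB2 n 1) hd
  have h0 : XX A (LN n A Λ) (ρ - 1 / 2) = 0 := by
    rw [xx_zero n hA, half_add_half]
    exact hρ
  have h1 := hzer _ h0
  have h2 : XX A (LN n A Λ) (1 - conj (ρ - 1 / 2)) = 0 := by
    have h3 := hfe (1 - conj (ρ - 1 / 2))
    have e : 1 - conj (1 - conj (ρ - 1 / 2)) = ρ - 1 / 2 := by simp
    rw [e, h0, map_zero, mul_zero] at h3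
    exact h3
  have h3 := hzer _ h2
  rw [sub_re, one_re, conj_re, re_sub_half] at h3
  rw [re_sub_half] at h1
  rw [abs_le]
  constructor <;> linarith

/-- monotonicity -/
lemma IsC.mono (h : IsC n A Λ) {t0 t : ℝ} (ht0 : 0 ≤ t0) (ht : t0 ≤ t)
    (h0 : ∀ s : ℂ, heat t0 Λ s = 0 → s.re = 1) (s : ℂ) (hs : heat t Λ s = 0) : s.re = 1 := by
  have hA := h.one_le
  have hn := h.pos
  obtain ⟨E, w, hd⟩ := h.dat
  obtain ⟨-, hslow, hfe, hzer, hne⟩ := sharpE (by omega) (one_le_EB1 n) (one_le_EB2 n 1) hd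
  have h1 := mono_all (XX A (LN n A Λ)) hslow ⟨w, hd.norm_eq, hfe⟩ hne t0 t ht0 ht (fun z hz => by
    rw [heat_xx n hA] at hz
    have := h0 _ hz
    rw [add_re] at this
    have e : (1 / 2 : ℂ).re = 1 / 2 := by norm_num
    rw [e] at this
    linarith) (s - 1 / 2) (by
    rw [heat_xx n hA, half_add_half]
    exact hs)
  rw [re_sub_half] at h1
  linarith

/-- the Riemann hypothesis in terms of the heat flow -/
lemma IsC.line (h : IsC n A Λ) : (∀ s : ℂ, Λ s = 0 → s.re = 1) ↔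
    ∀ t : ℝ, 0 < t → ∀ s : ℂ, heat t Λ s = 0 → s.re = 1 := by
  have hA := h.one_le
  have hn := h.pos
  obtain ⟨E, w, hd⟩ := h.dat
  obtain ⟨-, hslow, hfe, hzer, hne⟩ := sharpE (by omega) (one_le_EB1 n) (one_le_EB2 n 1) hd
  have hl := line_iff hslow ⟨w, hd.norm_eq, hfe⟩ hne (T := 1) one_pos
  have e12 : (1 / 2 : ℂ).re = 1 / 2 := by norm_num
  constructor
  · intro h0 t ht s hs
    have h1 := mono_all (XX A (LN n A Λ)) hslow ⟨w, hd.norm_eq, hfe⟩ hne 0 t le_rfl ht.le (fun z hz => by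
      rw [Pool.Agent.W169.HF.heat_zero_time _ hslow, xx_zero n hA] at hz
      have := h0 _ hz
      rw [add_re, e12] at this
      linarith) (s - 1 / 2) (by
      rw [heat_xx n hA, half_add_half]
      exact hs)
    rw [re_sub_half] at h1
    linarith
  · intro h0 s hs
    have h1 := hl.2 (fun t ht _ z hz => by
      rw [heat_xx n hA] at hz
      have := h0 t ht _ hz
      rw [add_re, e12] at this
      linarith) (s - 1 / 2) (by
      rw [xx_zero n hA, half_add_half]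
      exact hs)
    rw [re_sub_half] at h1
    linarith

end

lemma cond_pos {n : ℕ} {A : ℝ} (hA : 1 ≤ A) (y : ℝ) : 0 < cond n A y := by
  have := le_cond (n := n) hA y
  linarith

lemma cond_move (n : ℕ) {A : ℝ} (hA : 1 ≤ A) {y y' R : ℝ} (h : |y' - y| ≤ R) :
    cond n A y ≤ cond n A y' * (1 + |R|) ^ (2 * n) := by
  unfold cond
  rw [mul_assoc, ← mul_pow]
  apply mul_le_mul_of_nonneg_left _ (by linarith)
  apply pow_le_pow_left₀ (by positivity)
  have h1 : |y| ≤ |y'| + |y' - y| := by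
    have := abs_sub_abs_le_abs_sub y y'
    rw [abs_sub_comm] at this
    linarith
  have h2 : |y' - y| ≤ |R| := h.trans (le_abs_self R)
  have := abs_nonneg y'
  have := abs_nonneg R
  nlinarith

theorem fwd_comp {n : ℕ} (hn : 1 ≤ n) {ϑ g : ℝ} (hϑ : 0 ≤ ϑ) (hϑ1 : ϑ ≤ 3 / 2) (hg : 0 < g) :
    ∃ R C0 t1 : ℝ, 0 < t1 ∧ ∀ (A : ℝ) (Λ : ℂ → ℂ), IsC n A Λ → ∀ y t : ℝ, C0 ≤ cond n A y → 0 < t →
      t ≤ t1 → 2 * ϑ + g ≤ t * Real.log (cond n A y) →
      (∀ ρ, Λ ρ = 0 → |ρ.im - y| ≤ R → ρ.re ≤ 1 + ϑ) →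
      ∀ s : ℂ, s.im = y → heat t Λ s = 0 → s.re = 1 := by
  obtain ⟨R, ℓ0, t1, ht1, H⟩ := fwdE (m := n + n) (by omega) (one_le_EB1 n) (one_le_EB2 n 1)
    (Nat.cast_nonneg n) hϑ hϑ1 hg
  refine ⟨R, Real.exp (2 * ℓ0), t1, ht1, ?_⟩
  intro A Λ h y t hC ht htt h1 hfree s hs hz
  have hA := h.one_le
  obtain ⟨E, w, hd⟩ := h.dat
  have hℓ0 : ℓ0 ≤ 1 / 2 * Real.log (cond n A y) := by
    have := Real.log_le_log (Real.exp_pos _) hC
    rw [Real.log_exp] at this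
    linarith
  have h2 := H A (mu n) E w (LN n A Λ) hd y (1 / 2 * Real.log (cond n A y)) t (log_cnd hA y) hℓ0 ht htt
    (by linarith) (fun z hz hzy => by
      rw [xx_zero n hA] at hz
      have e : (1 / 2 + z : ℂ).im = z.im := by simp
      have := hfree _ hz (by rw [e]; exact hzy)
      rw [add_re] at this
      have e12 : (1 / 2 : ℂ).re = 1 / 2 := by norm_num
      rw [e12] at this
      linarith) (s - 1 / 2) (by rw [im_sub_half]; exact hs) (by
      rw [heat_xx n hA, half_add_half]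
      exact hz)
  rw [re_sub_half] at h2
  linarith

theorem bwd_comp {n : ℕ} (hn : 1 ≤ n) {g : ℝ} (hg : 0 < g) :
    ∃ R C0 : ℝ, ∀ (A : ℝ) (Λ : ℂ → ℂ), IsC n A Λ → ∀ y t : ℝ, C0 ≤ cond n A y → 0 < t →
      g ≤ t * Real.log (cond n A y) → t * Real.log (cond n A y) ≤ 2 →
      (∀ s : ℂ, heat t Λ s = 0 → |s.im - y| ≤ R → s.re = 1) →
      ∀ ρ : ℂ, ρ.im = y → Λ ρ = 0 → |ρ.re - 1| < t * Real.log (cond n A y) + g := by
  obtain ⟨R, ℓ0, H⟩ := bwdE (m := n + n) (by omega) (one_le_EB1 n) (one_le_EB2 n 1)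
    (Nat.cast_nonneg n) hg
  refine ⟨R, Real.exp (2 * ℓ0), ?_⟩
  intro A Λ h y t hC ht h1 h2 hline ρ hρ hz
  have hA := h.one_le
  obtain ⟨E, w, hd⟩ := h.dat
  have hℓ0 : ℓ0 ≤ 1 / 2 * Real.log (cond n A y) := by
    have := Real.log_le_log (Real.exp_pos _) hC
    rw [Real.log_exp] at this
    linarith
  have h3 := H A (mu n) E w (LN n A Λ) hd y (1 / 2 * Real.log (cond n A y)) t (log_cnd hA y) hℓ0 ht
    (by linarith) (by linarith) (fun z hz hzy => by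
      rw [heat_xx n hA] at hz
      have e : (1 / 2 + z : ℂ).im = z.im := by simp
      have := hline _ hz (by rw [e]; exact hzy)
      rw [add_re] at this
      have e12 : (1 / 2 : ℂ).re = 1 / 2 := by norm_num
      rw [e12] at this
      linarith) (ρ - 1 / 2) (by rw [im_sub_half]; exact hρ) (by
      rw [xx_zero n hA, half_add_half]
      exact hz)
  rw [re_sub_half] at h3
  have e : ρ.re - 1 / 2 - 1 / 2 = ρ.re - 1 := by ring
  rw [e] at h3
  linarith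

/-! ### families -/

/-- the zeros of the functions of the family are at distance at most `ϑ + o(1)` from the line, for large
conductor -/
def Near (n : ℕ) (F : Set (ℝ × (ℂ → ℂ))) (ϑ : ℝ) : Prop :=
  ∀ ε : ℝ, 0 < ε → ∃ C0 : ℝ, ∀ p ∈ F, ∀ ρ : ℂ, p.2 ρ = 0 → C0 ≤ cond n p.1 ρ.im → |ρ.re - 1| ≤ ϑ + ε

/-- the zeros of the heat flow are on the line from the time `(x + o(1)) / log (conductor)` on -/
def Flow (n : ℕ) (F : Set (ℝ × (ℂ → ℂ))) (x : ℝ) : Prop :=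
  ∀ ε : ℝ, 0 < ε → ∃ C0 t1 : ℝ, 0 < t1 ∧ ∀ p ∈ F, ∀ (t : ℝ) (s : ℂ), 0 < t → t ≤ t1 →
    C0 ≤ cond n p.1 s.im → x + ε ≤ t * Real.log (cond n p.1 s.im) → heat t p.2 s = 0 → s.re = 1

variable {n : ℕ} {F : Set (ℝ × (ℂ → ℂ))}

theorem flow_of_near (hn : 1 ≤ n) (hF : ∀ p ∈ F, IsC n p.1 p.2) {ϑ : ℝ} (hϑ : 0 ≤ ϑ) (hϑ1 : ϑ ≤ 1 / 2)
    (h : Near n F ϑ) : Flow n F (2 * ϑ) := by
  intro ε hε
  obtain ⟨δ, hδd⟩ : ∃ δ : ℝ, δ = min (ε / 4) 1 := ⟨_, rfl⟩
  have hδ : 0 < δ := by rw [hδd]; exact lt_min (by positivity) one_pos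
  have hδ1 : δ ≤ 1 := by rw [hδd]; exact min_le_right _ _
  have hδ2 : δ ≤ ε / 4 := by rw [hδd]; exact min_le_left _ _
  obtain ⟨R, C1, t1, ht1, H⟩ := fwd_comp hn (ϑ := ϑ + δ) (g := ε - 2 * δ) (by linarith) (by linarith)
    (by linarith)
  obtain ⟨C2, H2⟩ := h δ hδ
  refine ⟨max C1 (C2 * (1 + |R|) ^ (2 * n)), t1, ht1, ?_⟩
  intro p hp t s ht htt hC h1 hz
  have hA := (hF p hp).one_le
  refine H p.1 p.2 (hF p hp) s.im t ((le_max_left _ _).trans hC) ht htt (by linarith) (fun ρ hρ hρy => ?_)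
    s rfl hz
  have h2 := cond_move n hA hρy
  have h3 : C2 * (1 + |R|) ^ (2 * n) ≤ cond n p.1 ρ.im * (1 + |R|) ^ (2 * n) :=
    ((le_max_right _ _).trans hC).trans h2
  have h4 : C2 ≤ cond n p.1 ρ.im := le_of_mul_le_mul_right h3 (by positivity)
  have h5 := H2 p hp ρ hρ h4
  linarith [(abs_le.1 h5).2]

theorem near_half (hF : ∀ p ∈ F, IsC n p.1 p.2) : Near n F (1 / 2) := fun ε hε =>
  ⟨0, fun p hp ρ hρ _ => ((hF p hp).strip hρ).trans (by linarith)⟩

theorem flow_one (hn : 1 ≤ n) (hF : ∀ p ∈ F, IsC n p.1 p.2) : Flow n F 1 := by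
  have := flow_of_near hn hF (ϑ := 1 / 2) (by norm_num) le_rfl (near_half hF)
  have e : (2 : ℝ) * (1 / 2) = 1 := by norm_num
  rwa [e] at this

theorem near_of_flow (hn : 1 ≤ n) (hF : ∀ p ∈ F, IsC n p.1 p.2) {x : ℝ} (hx : 0 ≤ x)
    (h : Flow n F x) : Near n F x := by
  intro ε hε
  rcases le_or_gt (1 / 2) x with hx2 | hx2
  · exact ⟨0, fun p hp ρ hρ _ => ((hF p hp).strip hρ).trans (by linarith)⟩
  obtain ⟨δ, hδd⟩ : ∃ δ : ℝ, δ = min (ε / 4) (1 / 4) := ⟨_, rfl⟩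
  have hδ : 0 < δ := by rw [hδd]; exact lt_min (by positivity) (by norm_num)
  have hδ1 : δ ≤ 1 / 4 := by rw [hδd]; exact min_le_right _ _
  have hδ2 : δ ≤ ε / 4 := by rw [hδd]; exact min_le_left _ _
  obtain ⟨C1, t1, ht1, H1⟩ := h δ hδ
  obtain ⟨R, C2, H2⟩ := bwd_comp hn hδ
  obtain ⟨c, hc⟩ : ∃ c : ℝ, c = 2 * n * Real.log (1 + |R|) + 1 := ⟨_, rfl⟩
  have hlogR : 0 ≤ Real.log (1 + |R|) := Real.log_nonneg (by linarith [abs_nonneg R])
  have hc1 : 1 ≤ c := by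
    rw [hc]
    have : 0 ≤ 2 * n * Real.log (1 + |R|) := by positivity
    linarith
  have hc0 : 0 < c := by linarith
  refine ⟨max (max (C1 * (1 + |R|) ^ (2 * n)) C2) (max (Real.exp ((x + 2 * δ) / t1))
    (Real.exp ((x + 2 * δ) * c / δ))), ?_⟩
  intro p hp ρ hρ hC
  have hA := (hF p hp).one_le
  have hcp := cond_pos (n := n) hA ρ.im
  have hCa : C1 * (1 + |R|) ^ (2 * n) ≤ cond n p.1 ρ.im :=
    ((le_max_left _ _).trans (le_max_left _ _)).trans hC
  have hCb : C2 ≤ cond n p.1 ρ.im := ((le_max_right _ _).trans (le_max_left _ _)).trans hC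
  have hCc : Real.exp ((x + 2 * δ) / t1) ≤ cond n p.1 ρ.im :=
    ((le_max_left _ _).trans (le_max_right _ _)).trans hC
  have hCd : Real.exp ((x + 2 * δ) * c / δ) ≤ cond n p.1 ρ.im :=
    ((le_max_right _ _).trans (le_max_right _ _)).trans hC
  obtain ⟨L, hL⟩ : ∃ L : ℝ, L = Real.log (cond n p.1 ρ.im) := ⟨_, rfl⟩
  have hLc : (x + 2 * δ) / t1 ≤ L := by
    have := Real.log_le_log (Real.exp_pos _) hCc
    rwa [Real.log_exp, ← hL] at this
  have hLd : (x + 2 * δ) * c / δ ≤ L := by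
    have := Real.log_le_log (Real.exp_pos _) hCd
    rwa [Real.log_exp, ← hL] at this
  have hx0 : 0 < x + 2 * δ := by linarith
  have hL0 : 0 < L := lt_of_lt_of_le (by positivity) hLc
  obtain ⟨t, htd⟩ : ∃ t : ℝ, t = (x + 2 * δ) / L := ⟨_, rfl⟩
  have ht : 0 < t := by rw [htd]; positivity
  have htL : t * L = x + 2 * δ := by rw [htd]; field_simp
  have htt : t ≤ t1 := by
    rw [htd, div_le_iff₀ hL0]
    rw [div_le_iff₀ ht1] at hLc
    linarith
  have htc : t * c ≤ δ := by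
    rw [div_le_iff₀ hδ] at hLd
    rw [htd, div_mul_eq_mul_div, div_le_iff₀ hL0]
    linarith
  have h3 := H2 p.1 p.2 (hF p hp) ρ.im t hCb ht (by rw [← hL, htL]; linarith)
    (by rw [← hL, htL]; linarith) (fun s hs hsy => ?_) ρ rfl hρ
  · rw [← hL, htL] at h3
    linarith
  · have h4 := cond_move n hA hsy
    have h5 : C1 * (1 + |R|) ^ (2 * n) ≤ cond n p.1 s.im * (1 + |R|) ^ (2 * n) := hCa.trans h4
    have h6 : C1 ≤ cond n p.1 s.im := le_of_mul_le_mul_right h5 (by positivity)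
    refine H1 p hp t s ht htt h6 ?_ hs
    have h7 := Real.log_le_log hcp h4
    have hsp := cond_pos (n := n) hA s.im
    rw [Real.log_mul hsp.ne' (by positivity), Real.log_pow, ← hL] at h7
    push_cast at h7
    have h8 : L - c ≤ Real.log (cond n p.1 s.im) := by
      rw [hc]
      linarith
    have h9 := mul_le_mul_of_nonneg_left h8 ht.le
    nlinarith

theorem near_iff_flow (hn : 1 ≤ n) (hF : ∀ p ∈ F, IsC n p.1 p.2) : Near n F 0 ↔ Flow n F 0 := by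
  constructor
  · intro h
    have := flow_of_near hn hF (ϑ := 0) le_rfl (by norm_num) h
    rwa [mul_zero] at this
  · intro h
    exact near_of_flow hn hF le_rfl h

/-- the de Bruijn-Newman constants -/
theorem global_of_flow (hF : ∀ p ∈ F, IsC n p.1 p.2) {x : ℝ} (hx : 0 ≤ x) (h : Flow n F x) {ε : ℝ}
    (hε : 0 < ε) : ∃ A0 : ℝ, 1 < A0 ∧ ∀ p ∈ F, A0 ≤ p.1 → ∀ t : ℝ, (x + ε) / Real.log p.1 ≤ t →
      ∀ s : ℂ, heat t p.2 s = 0 → s.re = 1 := by
  obtain ⟨C0, t1, ht1, H⟩ := h ε hε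
  have hx0 : 0 < x + ε := by linarith
  refine ⟨max (max C0 2) (Real.exp ((x + ε) / t1)), ?_, ?_⟩
  · exact lt_of_lt_of_le (by norm_num) ((le_max_right C0 2).trans (le_max_left _ _))
  intro p hp hA t ht s hs
  have hA1 := (hF p hp).one_le
  have hA2 : 2 ≤ p.1 := (le_max_right C0 2).trans ((le_max_left _ _).trans hA)
  have hAC : C0 ≤ p.1 := (le_max_left C0 2).trans ((le_max_left _ _).trans hA)
  have hAe : Real.exp ((x + ε) / t1) ≤ p.1 := (le_max_right _ _).trans hA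
  have hlogpos : 0 < Real.log p.1 := Real.log_pos (by linarith)
  have hlog : (x + ε) / t1 ≤ Real.log p.1 := by
    have := Real.log_le_log (Real.exp_pos _) hAe
    rwa [Real.log_exp] at this
  obtain ⟨t0, ht0⟩ : ∃ t0 : ℝ, t0 = (x + ε) / Real.log p.1 := ⟨_, rfl⟩
  have ht0p : 0 < t0 := by rw [ht0]; positivity
  have ht01 : t0 ≤ t1 := by
    rw [ht0, div_le_iff₀ hlogpos]
    rw [div_le_iff₀ ht1] at hlog
    linarith
  rw [← ht0] at ht
  refine (hF p hp).mono ht0p.le ht (fun w hw => ?_) s hs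
  refine H p hp t0 w ht0p ht01 (hAC.trans (le_cond hA1 _)) ?_ hw
  have h1 : Real.log p.1 ≤ Real.log (cond n p.1 w.im) := Real.log_le_log (by linarith) (le_cond hA1 _)
  calc x + ε = t0 * Real.log p.1 := by rw [ht0]; field_simp
    _ ≤ t0 * Real.log (cond n p.1 w.im) := mul_le_mul_of_nonneg_left h1 ht0p.le

end Pool.Agent.Helper92.HF
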