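import Pool.Agent.Helper92.HF.Sc2

/-!
# Project HF: subconvexity and the heat flow in families (helper92)
-/

set_option autoImplicit false

open Complex Filter Topology Set
open scoped ComplexConjugate

namespace Pool.Agent.Helper92.HF

open Pool.Agent.W169.HF

/-- the size on the critical line -/
def Size (n : ℕ) (F : Set (ℝ × (ℂ → ℂ))) (μ : ℝ) : Prop :=
  ∀ ε : ℝ, 0 < ε → ∃ C0 : ℝ, ∀ p ∈ F, ∀ y : ℝ, C0 ≤ cond n p.1 y →
    ‖p.2 (1 + y * I)‖ ≤ (cond n p.1 y) ^ (μ + ε) * ‖gam n p.1 (1 + y * I)‖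

variable {n : ℕ} {F : Set (ℝ × (ℂ → ℂ))}

theorem flow_of_size (hn : 1 ≤ n) (hF : ∀ p ∈ F, IsC n p.1 p.2) {μ : ℝ} (hμ : 0 ≤ μ) (hμ1 : μ ≤ 1 / 4)
    (h : Size n F μ) : Flow n F (1 / (2 - 4 * μ)) := by
  intro ε hε
  obtain ⟨R, κ, C1, t1, hκ, ht1, H⟩ := fwd2_comp hn hμ hμ1 hε
  obtain ⟨C2, H2⟩ := h (κ / 2) (by positivity)
  obtain ⟨c, hc⟩ : ∃ c : ℝ, c = 2 * n * Real.log (1 + |R|) := ⟨_, rfl⟩
  have hlogR : 0 ≤ Real.log (1 + |R|) := Real.log_nonneg (by linarith [abs_nonneg R])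
  have hc0 : 0 ≤ c := by rw [hc]; positivity
  refine ⟨max (max C1 (C2 * (1 + |R|) ^ (2 * n))) (Real.exp ((μ + κ / 2) * c / (κ / 2))), t1, ht1, ?_⟩
  intro p hp t s ht htt hC h1 hz
  have hA := (hF p hp).one_le
  have hCa : C1 ≤ cond n p.1 s.im := (le_max_left _ _).trans ((le_max_left _ _).trans hC)
  have hCb : C2 * (1 + |R|) ^ (2 * n) ≤ cond n p.1 s.im :=
    (le_max_right _ _).trans ((le_max_left _ _).trans hC)
  have hCc : Real.exp ((μ + κ / 2) * c / (κ / 2)) ≤ cond n p.1 s.im := (le_max_right _ _).trans hC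
  have hcp := cond_pos (n := n) hA s.im
  obtain ⟨L, hL⟩ : ∃ L : ℝ, L = Real.log (cond n p.1 s.im) := ⟨_, rfl⟩
  have hLc : (μ + κ / 2) * c / (κ / 2) ≤ L := by
    have := Real.log_le_log (Real.exp_pos _) hCc
    rwa [Real.log_exp, ← hL] at this
  rw [div_le_iff₀ (by positivity)] at hLc
  refine H p.1 p.2 (hF p hp) s.im t hCa ht htt h1 (fun v hv => ?_) s rfl hz
  have h2 : |(s.im + v) - s.im| ≤ R := by
    rw [add_sub_cancel_left]
    exact hv
  have h2' : |s.im - (s.im + v)| ≤ R := by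
    rw [abs_sub_comm]
    exact h2
  have h3 := cond_move n hA h2
  have h3' := cond_move n hA h2'
  have hcv := cond_pos (n := n) hA (s.im + v)
  have h4 : C2 ≤ cond n p.1 (s.im + v) := le_of_mul_le_mul_right (hCb.trans h3) (by positivity)
  have h5 := H2 p hp (s.im + v) h4
  push_cast at h5
  refine h5.trans (mul_le_mul_of_nonneg_right ?_ (norm_nonneg _))
  rw [Real.rpow_def_of_pos hcv, Real.rpow_def_of_pos hcp]
  apply Real.exp_le_exp.2
  have h6 : Real.log (cond n p.1 (s.im + v)) ≤ L + c := by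
    have h7 := Real.log_le_log hcv h3'
    rw [Real.log_mul hcp.ne' (by positivity), Real.log_pow, ← hL] at h7
    rw [hc]
    push_cast at h7
    exact h7
  rw [← hL]
  have h8 : Real.log (cond n p.1 (s.im + v)) * (μ + κ / 2) ≤ (L + c) * (μ + κ / 2) :=
    mul_le_mul_of_nonneg_right h6 (by positivity)
  nlinarith

theorem size_of_flow (hn : 1 ≤ n) (hF : ∀ p ∈ F, IsC n p.1 p.2) {x : ℝ} (hx : 0 ≤ x) (hx1 : x ≤ 1)
    (h : Flow n F x) : Size n F (x / 4) := by
  intro ε hε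
  obtain ⟨δ, hδd⟩ : ∃ δ : ℝ, δ = min (ε / 4) (1 / 4) := ⟨_, rfl⟩
  have hδ : 0 < δ := by rw [hδd]; exact lt_min (by positivity) (by norm_num)
  have hδ1 : δ ≤ 1 / 4 := by rw [hδd]; exact min_le_right _ _
  have hδ2 : δ ≤ ε / 4 := by rw [hδd]; exact min_le_left _ _
  obtain ⟨C1, t1, ht1, H1⟩ := h δ hδ
  obtain ⟨R, C2, H2⟩ := size_comp hn hδ (κ := ε / 2) (by positivity)
  obtain ⟨c, hc⟩ : ∃ c : ℝ, c = 2 * n * Real.log (1 + |R|) + 1 := ⟨_, rfl⟩
  have hlogR : 0 ≤ Real.log (1 + |R|) := Real.log_nonneg (by linarith [abs_nonneg R])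
  have hc1 : 1 ≤ c := by
    rw [hc]
    have : 0 ≤ 2 * n * Real.log (1 + |R|) := by positivity
    linarith
  have hc0 : 0 < c := by linarith
  refine ⟨max (max (C1 * (1 + |R|) ^ (2 * n)) C2) (max (Real.exp ((x + 2 * δ) / t1))
    (Real.exp ((x + 2 * δ) * c / δ))), ?_⟩
  intro p hp y hC
  have hA := (hF p hp).one_le
  have hcp := cond_pos (n := n) hA y
  have hCa : C1 * (1 + |R|) ^ (2 * n) ≤ cond n p.1 y :=
    ((le_max_left _ _).trans (le_max_left _ _)).trans hC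
  have hCb : C2 ≤ cond n p.1 y := ((le_max_right _ _).trans (le_max_left _ _)).trans hC
  have hCc : Real.exp ((x + 2 * δ) / t1) ≤ cond n p.1 y :=
    ((le_max_left _ _).trans (le_max_right _ _)).trans hC
  have hCd : Real.exp ((x + 2 * δ) * c / δ) ≤ cond n p.1 y :=
    ((le_max_right _ _).trans (le_max_right _ _)).trans hC
  obtain ⟨L, hL⟩ : ∃ L : ℝ, L = Real.log (cond n p.1 y) := ⟨_, rfl⟩
  have hLc : (x + 2 * δ) / t1 ≤ L := by
    have := Real.log_le_log (Real.exp_pos _) hCc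
    rwa [Real.log_exp, ← hL] at this
  have hLd : (x + 2 * δ) * c / δ ≤ L := by
    have := Real.log_le_log (Real.exp_pos _) hCd
    rwa [Real.log_exp, ← hL] at this
  have hx0 : 0 < x + 2 * δ := by linarith
  have hL0 : 0 < L := lt_of_lt_of_le (by positivity) hLc
  obtain ⟨t, htd⟩ : ∃ t : ℝ, t = (x + 2 * δ) / L := ⟨_, rfl⟩
  have ht : 0 < t := by rw [htd]; positivity
  have htL : t * L = x + 2 * δ := by rw [htd]; field_simp
  have htt : t ≤ t1 := by
    rw [htd, div_le_iff₀ hL0]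
    rw [div_le_iff₀ ht1] at hLc
    linarith
  have htc : t * c ≤ δ := by
    rw [div_le_iff₀ hδ] at hLd
    rw [htd, div_mul_eq_mul_div, div_le_iff₀ hL0]
    linarith
  have h3 := H2 p.1 p.2 (hF p hp) y t hCb ht (by rw [← hL, htL]; linarith)
    (by rw [← hL, htL]; linarith) (fun s hs hsy => ?_)
  · refine h3.trans (mul_le_mul_of_nonneg_right ?_ (norm_nonneg _))
    rw [Real.rpow_def_of_pos hcp, Real.rpow_def_of_pos hcp]
    apply Real.exp_le_exp.2
    rw [← hL, htL]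
    apply mul_le_mul_of_nonneg_left _ hL0.le
    linarith
  · have h4 := cond_move n hA hsy
    have h5 : C1 * (1 + |R|) ^ (2 * n) ≤ cond n p.1 s.im * (1 + |R|) ^ (2 * n) := hCa.trans h4
    have h6 : C1 ≤ cond n p.1 s.im := le_of_mul_le_mul_right h5 (by positivity)
    refine H1 p hp t s ht htt h6 ?_ hs
    have h7 := Real.log_le_log hcp h4
    have hsp := cond_pos (n := n) hA s.im
    rw [Real.log_mul hsp.ne' (by positivity), Real.log_pow, ← hL] at h7
    push_cast at h7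
    have h8 : L - c ≤ Real.log (cond n p.1 s.im) := by
      rw [hc]
      linarith
    have h9 := mul_le_mul_of_nonneg_left h8 ht.le
    nlinarith

end Pool.Agent.Helper92.HF
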