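import Pool.Agent.Helper92.HF.Mq2
import Pool.Agent.Helper92.HF.Sc3

/-!
# Project HF: all theorems for families, and the unconditional theorem (helper92)
-/

set_option autoImplicit false

open NumberField IsDedekindDomain Complex Filter Topology

namespace Pool.Agent.Helper92.HF

open Pool.Agent.W169.HF (heat)
open Pool.Agent.Helper92.MQ (IsMQ sf sf_spec sf_squarefree)

theorem sf_unique {m D : ℤ} (hm : m ≠ 0) (hD : Squarefree D) (h : ∃ g : ℤ, m = D * g ^ 2) : D = sf m := by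
  obtain ⟨g, hg⟩ := h
  obtain ⟨g', hg'0, hg'⟩ := sf_spec hm
  obtain ⟨E, hE⟩ : ∃ E, E = sf m := ⟨_, rfl⟩
  have hEs : Squarefree E := by rw [hE]; exact sf_squarefree m
  rw [← hE] at hg' ⊢
  have hg0 : g ≠ 0 := by
    rintro rfl
    apply hm
    rw [hg]; ring
  have h1 : g ^ 2 ∣ (E * g') ^ 2 := ⟨D * E, by
    have : (E * g') ^ 2 = E * (E * g' ^ 2) := by ring
    rw [this, ← hg', hg]; ring⟩
  obtain ⟨h2, hh2⟩ := (Int.pow_dvd_pow_iff two_ne_zero).1 h1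
  have h3 : h2 ^ 2 = D * E := by
    have h4 : g ^ 2 * h2 ^ 2 = g ^ 2 * (D * E) := by
      have h5 : (E * g') ^ 2 = E * (E * g' ^ 2) := by ring
      have h6 : (g * h2) ^ 2 = E * (E * g' ^ 2) := by rw [← hh2, h5]
      rw [← hg', hg] at h6
      linear_combination h6
    exact mul_left_cancel₀ (pow_ne_zero 2 hg0) h4
  have h4 : D ∣ h2 := (hD.dvd_pow_iff_dvd two_ne_zero).1
    (Dvd.intro _ h3.symm)
  obtain ⟨e, he⟩ := h4
  have h5 : D * e ^ 2 = E := by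
    have h6 : D * (D * e ^ 2) = D * E := by rw [← h3, he]; ring
    exact mul_left_cancel₀ hD.ne_zero h6
  have h6 : IsUnit e := hEs e ⟨D, by rw [← h5]; ring⟩
  have h7 : e ^ 2 = 1 := by
    rcases Int.isUnit_iff.1 h6 with h | h <;> rw [h] <;> norm_num
  rw [← h5, h7, mul_one]

/-- the de Bruijn-Newman constants, uniformly in the degree `n` -/
theorem global_one {n : ℕ} (hn : 1 ≤ n) {ε : ℝ} (hε : 0 < ε) : ∃ A0 : ℝ, 1 < A0 ∧
    ∀ (A : ℝ) (Λ : ℂ → ℂ), IsC n A Λ → A0 ≤ A → ∀ t : ℝ, (1 + ε) / Real.log A ≤ t →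
      ∀ s : ℂ, heat t Λ s = 0 → s.re = 1 := by
  have hF : ∀ p ∈ {p : ℝ × (ℂ → ℂ) | IsC n p.1 p.2}, IsC n p.1 p.2 := fun p hp => hp
  obtain ⟨A0, hA0, H⟩ := global_of_flow hF zero_le_one (flow_one hn hF) hε
  exact ⟨A0, hA0, fun A Λ h => H (A, Λ) h⟩

end Pool.Agent.Helper92.HF
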