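import Pool.Agent.Helper92.HF.Asm

/-!
# Project HF: from analytic data with an abstract Dirichlet series to the theorems (helper92)
-/

set_option autoImplicit false

open Complex Set MeasureTheory intervalIntegral Filter Topology
open scoped ComplexConjugate NNReal ENNReal

namespace Pool.Agent.Helper92.HF

open H353.E H353.F Pool.Agent.W169.HF

/-- analytic data of an L-function `Λ`, completed except for the factor `N ^ (s / 2)`; `E` is the
Dirichlet series, `B1` and `B2` are bounds for it -/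
structure Dat {m : ℕ} (B1 : ℝ) (B2 : ℝ → ℝ) (N : ℝ) (μ : Fin m → ℂ) (E : ℂ → ℂ) (ε : ℂ) (Λ : ℂ → ℂ) :
    Prop where
  one_le : 1 ≤ N
  re_le : ∀ j, (μ j).re ≤ 1 / 2
  norm_eq : ‖ε‖ = 1
  entire : Differentiable ℂ Λ
  euler : ∀ s : ℂ, 1 < s.re → Λ s = (∏ j, Gammaℝ (s - μ j)) * E s
  close : ∀ s : ℂ, 4 ≤ s.re → ‖E s - 1‖ ≤ B1 * (1 / 2 : ℝ) ^ s.re
  two : ∀ η : ℝ, 0 < η → ∀ s : ℂ, 1 + η ≤ s.re → ‖E s‖ ≤ B2 η ∧ 1 ≤ B2 η * ‖E s‖
  fe : ∀ s : ℂ, Λ s = ε * (N : ℂ) ^ (1 / 2 - s) * conj (Λ (1 - conj s))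
  bdd : ∀ a b : ℝ, ∃ M, ∀ s : ℂ, a ≤ s.re → s.re ≤ b → ‖Λ s‖ ≤ Real.exp (M * (1 + |s.im|))

/-- the constant -/
noncomputable def BB (m : ℕ) (B2 : ℝ → ℝ) : ℝ := B2 1 * Real.exp ((6 * m : ℝ) ^ 2 / 4 + 64)

theorem sharpE {m : ℕ} (hm : 1 ≤ m) {B1 : ℝ} {B2 : ℝ → ℝ} (hB1 : 1 ≤ B1) (hB2 : 1 ≤ B2 1)
    {N : ℝ} {μ : Fin m → ℂ} {E : ℂ → ℂ} {ε : ℂ} {Λ : ℂ → ℂ} (d : Dat B1 B2 N μ E ε Λ) :
    Sharp (6 * m) (BB m B2) 2 (fun K => 4 * Real.exp (2 * |K| + 10)) (XX N Λ) (gaf N μ) (gaD N μ) ∧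
    Slow (XX N Λ) ∧ (∀ z : ℂ, XX N Λ z = ε * conj (XX N Λ (1 - conj z))) ∧
    (∀ z, XX N Λ z = 0 → z.re ≤ 1) ∧ ∃ z, XX N Λ z ≠ 0 := by
  have hm' : (1 : ℝ) ≤ m := by exact_mod_cast hm
  set C : ℝ := 6 * m with hC
  have hC1 : 1 ≤ C := by rw [hC]; linarith
  have hexp1 : 1 ≤ Real.exp (C ^ 2 / 4 + 64) := Real.one_le_exp (by positivity)
  have hBB : BB m B2 = B2 1 * Real.exp (C ^ 2 / 4 + 64) := rfl
  rw [hBB]
  have hN := d.one_le
  have hN0 : 0 < N := by linarith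
  have hNc : (N : ℂ) ≠ 0 := by exact_mod_cast hN0.ne'
  set X : ℂ → ℂ := XX N Λ with hX
  have hXdef : ∀ z, X z = (N : ℂ) ^ (z / 2) * Λ z := fun z => rfl
  have gp := gaf_GP hm hN d.re_le
  have hXd : Differentiable ℂ X := by
    rw [hX]
    unfold XX
    refine Differentiable.mul (fun z => ?_) d.entire
    exact (((hasDerivAt_id z).div_const 2).const_cpow (c := (N : ℂ)) (Or.inl hNc)).differentiableAt
  have hXe : ∀ z : ℂ, 1 < z.re → X z = gaf N μ z * E z := fun z hz => by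
    simp only [hXdef, gaf]
    rw [d.euler z hz, mul_assoc]
  have hclose : ∀ z : ℂ, 4 ≤ z.re → ‖X z - gaf N μ z‖ ≤ B1 * (1 / 2 : ℝ) ^ z.re * ‖gaf N μ z‖ :=
    fun z hz => by
      have e : X z - gaf N μ z = (E z - 1) * gaf N μ z := by
        rw [hXe z (by linarith)]
        ring
      rw [e, norm_mul]
      exact mul_le_mul_of_nonneg_right (d.close z hz) (norm_nonneg _)
  have hfe : ∀ z : ℂ, X z = ε * conj (X (1 - conj z)) := fun z => by
    simp only [hXdef]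
    rw [map_mul, conj_cpow_real hN0]
    have e1 : conj ((1 - conj z) / 2) = (1 - z) / 2 := by
      rw [map_div₀, map_sub, Complex.conj_conj, map_one, map_ofNat]
    have e2 : (N : ℂ) ^ (z / 2) * (N : ℂ) ^ (1 / 2 - z) = (N : ℂ) ^ ((1 - z) / 2) := by
      rw [← cpow_add _ _ hNc]
      congr 1
      ring
    rw [e1, d.fe z, ← e2]
    ring
  have hbdd : ∃ M, ∀ z : ℂ, -3 ≤ z.re → z.re ≤ 4 → ‖X z‖ ≤ Real.exp (M * (1 + |z.im|)) := by
    obtain ⟨M, hM⟩ := d.bdd (-3) 4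
    refine ⟨Real.log (N ^ (2 : ℝ)) + M, fun z h1 h2 => ?_⟩
    simp only [hXdef]
    rw [norm_mul, Complex.norm_cpow_eq_rpow_re_of_pos hN0]
    have e : (z / 2).re = z.re / 2 := by
      rw [show (2 : ℂ) = ((2 : ℝ) : ℂ) by norm_num, Complex.div_ofReal_re]
    rw [e]
    have h3 : N ^ (z.re / 2) ≤ N ^ (2 : ℝ) := Real.rpow_le_rpow_of_exponent_le hN (by linarith)
    have h4 := hM z h1 h2
    have h5 : 0 < N ^ (2 : ℝ) := Real.rpow_pos_of_pos hN0 _
    have h6 : 1 ≤ N ^ (2 : ℝ) := Real.one_le_rpow hN (by norm_num)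
    refine (mul_le_mul h3 h4 (norm_nonneg _) h5.le).trans ?_
    rw [add_mul, Real.exp_add]
    refine mul_le_mul_of_nonneg_right ?_ (Real.exp_pos _).le
    have h7 := Real.log_nonneg h6
    have h8 := abs_nonneg z.im
    calc N ^ (2 : ℝ) = Real.exp (Real.log (N ^ (2 : ℝ))) := (Real.exp_log h5).symm
      _ ≤ Real.exp (Real.log (N ^ (2 : ℝ)) * (1 + |z.im|)) := by
        apply Real.exp_le_exp.mpr
        nlinarith
  have L : LD (6 * m) ((1 + B1) * Real.exp (6 * m * 7)) (fun K => 4 * Real.exp (2 * |K| + 10)) X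
      (gaf N μ) (gaD N μ) :=
    LD_of gp hC1 hB1 hXd hclose ⟨ε, d.norm_eq, hfe⟩ hbdd
  have hE0 : ∀ z : ℂ, 1 < z.re → E z ≠ 0 := fun z hz h0 => by
    have := (d.two (z.re - 1) (by linarith) z (by linarith)).2
    rw [h0, norm_zero, mul_zero] at this
    linarith
  have hzer : ∀ z, X z = 0 → z.re ≤ 1 := fun z hz => by
    by_contra hcon
    push Not at hcon
    rw [hXe z (by linarith)] at hz
    rcases mul_eq_zero.mp hz with h | h
    · exact gp.ne z (by linarith) h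
    · exact hE0 z hcon h
  have hhi : ∀ z : ℂ, 2 ≤ z.re → ‖X z‖ ≤ B2 1 * ‖gaf N μ z‖ := fun z hz => by
    rw [hXe z (by linarith), norm_mul, mul_comm]
    exact mul_le_mul_of_nonneg_right (d.two 1 one_pos z (by linarith)).1 (norm_nonneg _)
  have S : Sharp C (B2 1 * Real.exp (C ^ 2 / 4 + 64)) 2 (fun K => 4 * Real.exp (2 * |K| + 10)) X
      (gaf N μ) (gaD N μ) := by
    refine
      { gp := gp, hC := hC1, hB := by nlinarith, hσ := by norm_num, diff := hXd,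
        fe := ⟨ε, d.norm_eq, hfe⟩, hi := fun z hz => ?_, lo := fun z hz => ?_,
        strip := fun z h1 h2 => ?_ }
    · refine (hhi z hz).trans (mul_le_mul_of_nonneg_right ?_ (norm_nonneg _))
      nlinarith
    · rw [hXe z (by linarith), norm_mul]
      have h3 := (d.two 1 one_pos z (by linarith)).2
      have h4 := norm_nonneg (gaf N μ z)
      have h5 : 1 ≤ B2 1 * Real.exp (C ^ 2 / 4 + 64) * ‖E z‖ := by
        calc (1 : ℝ) ≤ B2 1 * ‖E z‖ := h3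
          _ = B2 1 * 1 * ‖E z‖ := by ring
          _ ≤ B2 1 * Real.exp (C ^ 2 / 4 + 64) * ‖E z‖ := by gcongr
      calc ‖gaf N μ z‖ = ‖gaf N μ z‖ * 1 := by ring
        _ ≤ ‖gaf N μ z‖ * (B2 1 * Real.exp (C ^ 2 / 4 + 64) * ‖E z‖) := by gcongr
        _ = _ := by ring
    · have := strip_sharp gp hC1 hB2 (σ := 2) (by norm_num) (by norm_num) hXd hhi
        ⟨ε, d.norm_eq, hfe⟩ hbdd h1 h2
      exact this
  have hp1 : ∀ j, 1 ≤ 1 + ‖μ j‖ := fun j => by linarith [norm_nonneg (μ j)]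
  have hcond1 : 1 ≤ N * ∏ j, (1 + ‖μ j‖) := by
    have h1 : 1 ≤ ∏ j, (1 + ‖μ j‖) := by
      refine Finset.prod_induction _ (fun x => (1 : ℝ) ≤ x) (fun a b ha hb => ?_) le_rfl fun j _ => ?_
      · nlinarith
      · linarith [norm_nonneg (μ j)]
    nlinarith
  have hslow : Slow X := by
    refine slow_of_E hXd (slow_of L (a := Real.log (N * ∏ j, (1 + ‖μ j‖)) + 7 * m) (k := m) ?_
      (by linarith) (fun z hz => ?_))
    · have := Real.log_nonneg hcond1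
      linarith
    · have := gaD_norm hN d.re_le hz
      linarith
  refine ⟨S, hslow, hfe, hzer, 2, fun h => ?_⟩
  have := hzer 2 h
  norm_num at this

/-! ### unconditional data at the height `y` -/

variable {C B σ : ℝ} {Sg : ℝ → ℝ} {Λ γ D : ℂ → ℂ}

lemma gam_two (gp : GP C Sg γ D) {C1 y ℓ : ℝ} (hC1 : 0 ≤ C1) (hℓ : ‖D (3 / 2 + y * I) - ℓ‖ ≤ C1)
    {u : ℂ} (hu : 1 / 2 ≤ u.re) :
    ‖γ (1 / 2 + y * I + u)‖ ≤ ‖γ (3 / 2 + y * I)‖ *
      Real.exp (ℓ * (u.re - 1) + 2 * (C1 + C) * (1 + ‖u‖ ^ 2)) ∧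
    ‖γ (3 / 2 + y * I)‖ ≤ ‖γ (1 / 2 + y * I + u)‖ *
      Real.exp (-(ℓ * (u.re - 1)) + 2 * (C1 + C) * (1 + ‖u‖ ^ 2)) := by
  have hC := gp.C_nonneg
  have hz0 : (3 / 2 + y * I : ℂ).re = 3 / 2 := by simp
  have hzu : (1 / 2 + y * I + u : ℂ).re = 1 / 2 + u.re := by simp
  obtain ⟨v, hv⟩ : ∃ v : ℂ, v = u - 1 := ⟨_, rfl⟩
  have e0 : (1 / 2 + y * I + u : ℂ) = (3 / 2 + y * I) + v := by rw [hv]; ring
  have hvn : ‖v‖ ≤ 1 + ‖u‖ := by
    rw [hv]
    have := norm_sub_le u 1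
    rw [norm_one] at this
    linarith
  have hvre : v.re = u.re - 1 := by rw [hv]; simp
  have hD : ∀ t ∈ Icc (0 : ℝ) 1, ‖D (3 / 2 + y * I + t * v) - ℓ‖ ≤ C * ‖v‖ + C1 := by
    intro t ht
    have hre : 1 ≤ (3 / 2 + y * I + t * v : ℂ).re := by
      rw [add_re, hz0, Complex.re_ofReal_mul, hvre]
      nlinarith [ht.1, ht.2]
    have h1 := gp.lipD (ρ := 1) le_rfl hre (t := 3 / 2 + y * I) (by rw [hz0]; norm_num)
    rw [add_sub_cancel_left, div_one, norm_mul, Complex.norm_real, Real.norm_eq_abs, abs_of_nonneg ht.1] at h1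
    have h2 : ‖D (3 / 2 + y * I + t * v) - ℓ‖ ≤ ‖D (3 / 2 + y * I + t * v) - D (3 / 2 + y * I)‖ +
        ‖D (3 / 2 + y * I) - ℓ‖ := by
      have := norm_add_le (D (3 / 2 + y * I + t * v) - D (3 / 2 + y * I)) (D (3 / 2 + y * I) - ℓ)
      rwa [sub_add_sub_cancel] at this
    have h3 : C * (t * ‖v‖) ≤ C * ‖v‖ := by
      apply mul_le_mul_of_nonneg_left _ hC
      have := norm_nonneg v
      nlinarith [ht.2]
    linarith
  have hK : (C * ‖v‖ + C1) * ‖v‖ ≤ 2 * (C1 + C) * (1 + ‖u‖ ^ 2) := by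
    have h0 := norm_nonneg v
    have h1 : ‖v‖ ^ 2 ≤ 2 * (1 + ‖u‖ ^ 2) := by
      have : ‖v‖ ^ 2 ≤ (1 + ‖u‖) ^ 2 := pow_le_pow_left₀ h0 hvn 2
      nlinarith [sq_nonneg (‖u‖ - 1)]
    have h2 : ‖v‖ ≤ 2 * (1 + ‖u‖ ^ 2) := by
      nlinarith [sq_nonneg (‖u‖ - 1)]
    have h3 : C * ‖v‖ ^ 2 ≤ C * (2 * (1 + ‖u‖ ^ 2)) := mul_le_mul_of_nonneg_left h1 hC
    have h4 : C1 * ‖v‖ ≤ C1 * (2 * (1 + ‖u‖ ^ 2)) := mul_le_mul_of_nonneg_left h2 hC1
    nlinarith
  have hre1 : 1 ≤ (3 / 2 + y * I + v : ℂ).re := by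
    rw [← e0, hzu]; linarith
  constructor
  · have h1 := gam_move gp (s := 3 / 2 + y * I) (v := v) (ℓ := ℓ) (by rw [hz0]; norm_num) hre1 hD
    rw [e0]
    refine h1.trans (mul_le_mul_of_nonneg_left ?_ (norm_nonneg _))
    apply Real.exp_le_exp.2
    rw [hvre]
    linarith
  · have h1 := gam_move gp (s := 3 / 2 + y * I + v) (v := -v) (ℓ := ℓ) (K := C * ‖v‖ + C1) hre1
      (by rw [add_neg_cancel_right, hz0]; norm_num) (fun t ht => by
        have := hD (1 - t) ⟨by linarith [ht.2], by linarith [ht.1]⟩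
        have e2 : (3 / 2 + y * I + v + t * -v : ℂ) = 3 / 2 + y * I + ((1 - t : ℝ) : ℂ) * v := by
          push_cast; ring
        rw [e2]
        exact this)
    rw [add_neg_cancel_right, norm_neg, ← e0, neg_re, hvre] at h1
    refine h1.trans (mul_le_mul_of_nonneg_left ?_ (norm_nonneg _))
    apply Real.exp_le_exp.2
    linarith

/-- the constant of the unconditional data -/
noncomputable def KU (C B C1 : ℝ) : ℝ := 5 * (Real.log B + 2 * (C1 + C))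

lemma one_le_KU {C1 : ℝ} (hC : 1 ≤ C) (hB : 1 ≤ B) (hC1 : 0 ≤ C1) : 1 ≤ KU C B C1 := by
  have := Real.log_nonneg hB
  unfold KU
  linarith

lemma slow_add {f : ℂ → ℂ} (hf : Slow f) (c : ℂ) : Slow (fun u => f (c + u)) := by
  refine ⟨hf.1.comp (by fun_prop), fun δ hδ => ?_⟩
  obtain ⟨K, hK, hb⟩ := hf.2 (δ / 2) (by positivity)
  refine ⟨K * Real.exp (δ * ‖c‖ ^ 2), by positivity, fun z => (hb _).trans ?_⟩
  rw [mul_assoc, ← Real.exp_add]
  apply mul_le_mul_of_nonneg_left _ hK.le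
  apply Real.exp_le_exp.2
  have h1 := norm_add_le c z
  have h2 : ‖c + z‖ ^ 2 ≤ 2 * ‖c‖ ^ 2 + 2 * ‖z‖ ^ 2 := by
    have : ‖c + z‖ ^ 2 ≤ (‖c‖ + ‖z‖) ^ 2 := pow_le_pow_left₀ (norm_nonneg _) h1 2
    nlinarith [sq_nonneg (‖c‖ - ‖z‖)]
  nlinarith

theorem ud_of_sharp (S : Sharp C B σ Sg Λ γ D) (hslow : Slow Λ) (hσ : 1 ≤ σ) (hσ2 : σ ≤ 5 / 2)
    {C1 : ℝ} (hC1 : 0 ≤ C1) (y ℓ : ℝ) (hℓ : ‖D (3 / 2 + y * I) - ℓ‖ ≤ C1) :
    UD (KU C B C1) (σ - 1 / 2) ℓ (‖γ (3 / 2 + y * I)‖ * Real.exp (-ℓ))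
      (fun u : ℂ => Λ (1 / 2 + y * I + u)) := by
  have hC := S.hC
  have hB := S.hB
  have hB0 : 0 < B := by linarith
  have hlogB := Real.log_nonneg hB
  have hBexp : B = Real.exp (Real.log B) := (Real.exp_log hB0).symm
  obtain ⟨ε, hε, hfe⟩ := S.fe
  have hγ0 : 0 < ‖γ (3 / 2 + y * I)‖ := norm_pos_iff.2 (S.gp.ne _ (by simp; norm_num))
  have hfe' : ∀ u : ℂ, Λ (1 / 2 + y * I + u) = ε * conj (Λ (1 / 2 + y * I + -conj u)) := by
    intro u
    rw [hfe (1 / 2 + y * I + u)]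
    congr 3
    simp only [map_add, map_mul, Complex.conj_I, Complex.conj_ofReal, map_div₀, map_one, map_ofNat]
    ring
  have hre : ∀ u : ℂ, (1 / 2 + y * I + u : ℂ).re = 1 / 2 + u.re := fun u => by simp
  -- the upper bound for `Re u ≥ 0`
  have hup : ∀ u : ℂ, 0 ≤ u.re → ‖Λ (1 / 2 + y * I + u)‖ ≤ ‖γ (3 / 2 + y * I)‖ * Real.exp (-ℓ) *
      Real.exp (ℓ * max |u.re| (σ - 1 / 2) + KU C B C1 * (1 + ‖u‖ ^ 2)) := by
    intro u hu
    rcases le_total (σ - 1 / 2) u.re with h | h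
    · have h1 := S.hi (1 / 2 + y * I + u) (by rw [hre]; linarith)
      have h2 := (gam_two S.gp hC1 hℓ (u := u) (by linarith)).1
      rw [abs_of_nonneg hu, max_eq_left h]
      calc ‖Λ (1 / 2 + y * I + u)‖ ≤ B * (‖γ (3 / 2 + y * I)‖ *
            Real.exp (ℓ * (u.re - 1) + 2 * (C1 + C) * (1 + ‖u‖ ^ 2))) :=
            h1.trans (mul_le_mul_of_nonneg_left h2 hB0.le)
        _ = ‖γ (3 / 2 + y * I)‖ * (Real.exp (Real.log B) *
            Real.exp (ℓ * (u.re - 1) + 2 * (C1 + C) * (1 + ‖u‖ ^ 2))) := by rw [← hBexp]; ring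
        _ = ‖γ (3 / 2 + y * I)‖ * Real.exp (-ℓ) * Real.exp (ℓ * u.re + (Real.log B +
            2 * (C1 + C) * (1 + ‖u‖ ^ 2))) := by
            rw [← Real.exp_add, mul_assoc ‖γ (3 / 2 + y * I)‖, ← Real.exp_add]
            congr 2
            ring
        _ ≤ _ := by
            apply mul_le_mul_of_nonneg_left _ (by positivity)
            apply Real.exp_le_exp.2
            unfold KU
            have h3 : 0 ≤ ‖u‖ ^ 2 := by positivity
            nlinarith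
    · have h1 := S.strip (1 / 2 + y * I + u) (by rw [hre]; linarith) (by rw [hre]; linarith)
      have him : (1 / 2 + y * I + u : ℂ).im = y + u.im := by simp
      rw [him] at h1
      obtain ⟨w, hw⟩ : ∃ w : ℂ, w = ((σ - 1 / 2 : ℝ) : ℂ) + u.im * I := ⟨_, rfl⟩
      have hwre : w.re = σ - 1 / 2 := by rw [hw]; simp
      have hwim : w.im = u.im := by rw [hw]; simp
      have hwn : ‖w‖ ^ 2 ≤ 4 + ‖u‖ ^ 2 := by
        rw [← Complex.normSq_eq_norm_sq, ← Complex.normSq_eq_norm_sq, Complex.normSq_apply,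
          Complex.normSq_apply, hwre, hwim]
        nlinarith [sq_nonneg u.re]
      have h2 := (gam_two S.gp hC1 hℓ (u := w) (by rw [hwre]; linarith)).1
      have e1 : (σ + ((y + u.im : ℝ) : ℂ) * I : ℂ) = 1 / 2 + y * I + w := by
        rw [hw]; push_cast; ring
      rw [e1] at h1
      rw [abs_of_nonneg hu, max_eq_right h]
      calc ‖Λ (1 / 2 + y * I + u)‖ ≤ B * (‖γ (3 / 2 + y * I)‖ *
            Real.exp (ℓ * (w.re - 1) + 2 * (C1 + C) * (1 + ‖w‖ ^ 2))) :=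
            h1.trans (mul_le_mul_of_nonneg_left h2 hB0.le)
        _ = ‖γ (3 / 2 + y * I)‖ * (Real.exp (Real.log B) *
            Real.exp (ℓ * (w.re - 1) + 2 * (C1 + C) * (1 + ‖w‖ ^ 2))) := by rw [← hBexp]; ring
        _ = ‖γ (3 / 2 + y * I)‖ * Real.exp (-ℓ) * Real.exp (ℓ * (σ - 1 / 2) + (Real.log B +
            2 * (C1 + C) * (1 + ‖w‖ ^ 2))) := by
            rw [← Real.exp_add, mul_assoc ‖γ (3 / 2 + y * I)‖, ← Real.exp_add, hwre]
            congr 2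
            ring
        _ ≤ _ := by
            apply mul_le_mul_of_nonneg_left _ (by positivity)
            apply Real.exp_le_exp.2
            unfold KU
            have h3 : 0 ≤ ‖u‖ ^ 2 := by positivity
            have h4 : 2 * (C1 + C) * (1 + ‖w‖ ^ 2) ≤ 2 * (C1 + C) * (5 * (1 + ‖u‖ ^ 2)) := by
              apply mul_le_mul_of_nonneg_left _ (by linarith)
              linarith
            nlinarith
  refine { slow := slow_add hslow _, fe := ⟨ε, hε, hfe'⟩, hG := by positivity, up := fun u => ?_,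
           lo := fun u hu => ?_ }
  · rcases le_total 0 u.re with h | h
    · exact hup u h
    · have h1 := hup (-conj u) (by rw [neg_re, conj_re]; linarith)
      rw [neg_re, conj_re, abs_neg, norm_neg, Complex.norm_conj] at h1
      rw [hfe' u, norm_mul, hε, one_mul, Complex.norm_conj]
      exact h1
  · have h1 := S.lo (1 / 2 + y * I + u) (by rw [hre]; linarith)
    have h2 := (gam_two S.gp hC1 hℓ (u := u) (by linarith)).2
    calc ‖γ (3 / 2 + y * I)‖ * Real.exp (-ℓ) * Real.exp (ℓ * u.re - KU C B C1 * (1 + ‖u‖ ^ 2))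
        ≤ ‖γ (1 / 2 + y * I + u)‖ * Real.exp (-(ℓ * (u.re - 1)) + 2 * (C1 + C) * (1 + ‖u‖ ^ 2)) *
          Real.exp (-ℓ) * Real.exp (ℓ * u.re - KU C B C1 * (1 + ‖u‖ ^ 2)) := by gcongr
      _ = ‖γ (1 / 2 + y * I + u)‖ * Real.exp ((2 * (C1 + C) - KU C B C1) * (1 + ‖u‖ ^ 2)) := by
          rw [mul_assoc, mul_assoc, ← Real.exp_add, ← Real.exp_add]
          congr 2
          ring
      _ ≤ (B * ‖Λ (1 / 2 + y * I + u)‖) * Real.exp (-(Real.log B)) := by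
          refine mul_le_mul h1 ?_ (Real.exp_pos _).le (by positivity)
          apply Real.exp_le_exp.2
          unfold KU
          have h3 : 0 ≤ ‖u‖ ^ 2 := by positivity
          nlinarith
      _ = ‖Λ (1 / 2 + y * I + u)‖ := by
          rw [Real.exp_neg, Real.exp_log hB0]
          field_simp

end Pool.Agent.Helper92.HF
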