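import Pool.Agent.W108.TW.Mellin
import Pool.Agent.Y692.QN.Lf
import Pool.Agent.Y19.QT.Fams

/-!
# Project HF: completed L-functions of elliptic curves over the rationals (helper92)
-/

set_option autoImplicit false

open Complex Set MeasureTheory Filter Topology

namespace Pool.Agent.Helper92.HF

open Pool.Agent.W108.TW (Th continuousOn_Th Th_isBigO summable_term)
open Pool.Agent.Y19.QT (ap IsFormOf)
open Pool.Agent.Y692.QN (AF)
open Pool.Agent.H306R2.RZ (js)
open Pool.Agent.Y705.QT (js_mul js_one js_abs_le)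

/-- Hecke's theorem for a theta series of weight two -/
theorem mel {b : ℕ → ℂ} (hb0 : b 0 = 0)
    (hsum : ∀ s : ℂ, 3 / 2 < s.re → Summable (fun n : ℕ => ‖b n * (n : ℂ) ^ (-s)‖)) {R : ℝ} (hR : 0 < R)
    {w : ℂ} (hw : w ≠ 0)
    (hfe : ∀ t : ℝ, 0 < t → ∑' n : ℕ, b n * cexp (-(2 * Real.pi * n * (1 / t) / R)) =
      w * (t : ℂ) ^ 2 * ∑' n : ℕ, b n * cexp (-(2 * Real.pi * n * t / R))) :
    ∃ Λ : ℂ → ℂ, Differentiable ℂ Λ ∧ (∀ s, Λ (2 - s) = w * Λ s) ∧
      (∀ σ₁ σ₂ : ℝ, ∃ M : ℝ, ∀ s : ℂ, σ₁ ≤ s.re → s.re ≤ σ₂ → ‖Λ s‖ ≤ M) ∧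
      ∀ s : ℂ, 3 / 2 < s.re → Λ s = ((R / (2 * Real.pi) : ℝ) : ℂ) ^ s * Gamma s *
        ∑' n : ℕ, b n * (n : ℂ) ^ (-s) := by
  obtain ⟨c, hcd⟩ : ∃ c : ℝ, c = 2 * Real.pi / R := ⟨_, rfl⟩
  have hc : 0 < c := by rw [hcd]; have := Real.pi_pos; positivity
  -- a pointwise bound
  obtain ⟨C, hb⟩ : ∃ C : ℝ, ∀ n : ℕ, 1 ≤ n → ‖b n‖ ≤ C * (n : ℝ) ^ (2 : ℝ) := by
    have h2 := hsum 2 (by norm_num)
    refine ⟨∑' n : ℕ, ‖b n * (n : ℂ) ^ (-(2 : ℂ))‖, fun n hn => ?_⟩
    have h3 := h2.le_tsum n (fun _ _ => norm_nonneg _)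
    have hn0 : (0 : ℝ) < n := by exact_mod_cast hn
    rw [norm_mul, Complex.norm_natCast_cpow_of_pos hn] at h3
    have e : (-(2 : ℂ)).re = -2 := by norm_num
    rw [e, Real.rpow_neg hn0.le] at h3
    have h4 : 0 < (n : ℝ) ^ (2 : ℝ) := Real.rpow_pos_of_pos hn0 _
    calc ‖b n‖ = (‖b n‖ * ((n : ℝ) ^ (2 : ℝ))⁻¹) * (n : ℝ) ^ (2 : ℝ) := by field_simp
      _ ≤ _ := mul_le_mul_of_nonneg_right h3 h4.le
  let P : WeakFEPair ℂ :=
    { f := Th b c
      g := Th b c
      k := 2
      ε := w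
      f₀ := 0
      g₀ := 0
      hf_int := (continuousOn_Th hb0 hb hc).locallyIntegrableOn measurableSet_Ioi
      hg_int := (continuousOn_Th hb0 hb hc).locallyIntegrableOn measurableSet_Ioi
      hk := by norm_num
      hε := hw
      h_feq := by
        intro x (hx : 0 < x)
        have h := hfe x hx
        rw [smul_eq_mul, Th, Th]
        have e1 : ∀ n : ℕ, b n * ((Real.exp (-(c * n) * (1 / x)) : ℝ) : ℂ) =
            b n * cexp (-(2 * Real.pi * n * (1 / x) / R)) := by
          intro n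
          rw [Complex.ofReal_exp, hcd]
          push_cast
          congr 2
          ring
        have e2 : ∀ n : ℕ, b n * ((Real.exp (-(c * n) * x) : ℝ) : ℂ) =
            b n * cexp (-(2 * Real.pi * n * x / R)) := by
          intro n
          rw [Complex.ofReal_exp, hcd]
          push_cast
          congr 2
          ring
        simp only [e1, e2]
        rw [h]
        congr 2
        have : (x : ℝ) ^ (2 : ℝ) = x ^ 2 := by exact_mod_cast Real.rpow_natCast x 2
        rw [this]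
        push_cast
        ring
      hf_top := Th_isBigO hb0 hb hc
      hg_top := Th_isBigO hb0 hb hc }
  have hP : IsStrongFEPair P := ⟨rfl, rfl⟩
  have hΛf : P.Λ = mellin (Th b c) := hP.Λ_eq
  refine ⟨P.Λ, hP.differentiable_Λ, ?_, ?_, ?_⟩
  · intro s
    have h1 := P.functional_equation s
    have h2 : P.symm.Λ = P.Λ := by
      rw [hP.Λ_eq, hP.symm.Λ_eq]
      rfl
    rw [h2] at h1
    have e : (P.k : ℂ) = 2 := by
      show (((2 : ℝ)) : ℂ) = 2
      norm_num
    rw [e] at h1
    exact h1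
  · intro A B
    have hM := fun s => (hP.hasMellin s).1
    have hI : ∀ A : ℝ, IntegrableOn (fun t : ℝ => t ^ (A - 1) * ‖Th b c t‖) (Ioi 0) := by
      intro A
      have := (hM (A : ℂ)).norm
      refine IntegrableOn.congr_fun this (fun t (ht : 0 < t) => ?_) measurableSet_Ioi
      simp only [smul_eq_mul, norm_mul]
      rw [Complex.norm_cpow_eq_rpow_re_of_pos ht]
      simp [P]
    refine ⟨∫ t in Ioi (0 : ℝ), (t ^ (A - 1) * ‖Th b c t‖ + t ^ (B - 1) * ‖Th b c t‖),
      fun s hs1 hs2 => ?_⟩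
    rw [hΛf, mellin]
    refine (norm_integral_le_integral_norm _).trans ?_
    refine setIntegral_mono_on (hM s).norm ((hI A).add (hI B)) measurableSet_Ioi
      (fun t (ht : 0 < t) => ?_)
    rw [norm_smul, Complex.norm_cpow_eq_rpow_re_of_pos ht]
    have hre : (s - 1).re = s.re - 1 := by simp
    rw [hre, ← add_mul]
    refine mul_le_mul_of_nonneg_right ?_ (norm_nonneg _)
    rcases le_total t 1 with h1 | h1
    · have : t ^ (s.re - 1) ≤ t ^ (A - 1) :=
        Real.rpow_le_rpow_of_exponent_ge ht h1 (by linarith)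
      have h2 : 0 ≤ t ^ (B - 1) := by positivity
      linarith
    · have : t ^ (s.re - 1) ≤ t ^ (B - 1) :=
        Real.rpow_le_rpow_of_exponent_le h1 (by linarith)
      have h2 : 0 ≤ t ^ (A - 1) := by positivity
      linarith
  · intro s hs
    have hs0 : 0 < s.re := by linarith
    have h1 := hasSum_mellin (a := b) (p := fun n : ℕ => c * n) (F := Th b c) (s := s)
      (by
        intro n
        rcases Nat.eq_zero_or_pos n with rfl | hn
        · exact Or.inl hb0
        · right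
          have : (0 : ℝ) < n := by exact_mod_cast hn
          positivity) hs0
      (by
        intro t (ht : 0 < t)
        exact (summable_term hb0 hb hc ht).hasSum)
      (by
        have h2 := (hsum s hs).mul_left (1 / c ^ s.re)
        refine h2.congr fun n => ?_
        rcases Nat.eq_zero_or_pos n with rfl | hn
        · rw [hb0]; simp
        · have hn' : (0 : ℝ) < n := by exact_mod_cast hn
          rw [norm_mul, Complex.norm_natCast_cpow_of_pos hn, Complex.neg_re, Real.rpow_neg hn'.le,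
            Real.mul_rpow hc.le hn'.le]
          field_simp)
    have h2 := h1.tsum_eq
    rw [hΛf, ← h2, ← tsum_mul_left]
    refine tsum_congr (fun n => ?_)
    rcases Nat.eq_zero_or_pos n with rfl | hn
    · rw [hb0]; simp
    · have hn' : (n : ℂ) ≠ 0 := by exact_mod_cast hn.ne'
      have hcC : (c : ℂ) ≠ 0 := by exact_mod_cast hc.ne'
      have hnS : (n : ℂ) ^ s ≠ 0 := by
        rw [Complex.cpow_def_of_ne_zero hn']; exact Complex.exp_ne_zero _
      have hcs : (c : ℂ) ^ s ≠ 0 := by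
        rw [Complex.cpow_def_of_ne_zero hcC]; exact Complex.exp_ne_zero _
      have hRc : ((R / (2 * Real.pi) : ℝ) : ℂ) ^ s = ((c : ℂ) ^ s)⁻¹ := by
        have e : ((R / (2 * Real.pi) : ℝ) : ℂ) = (c : ℂ)⁻¹ := by
          rw [← Complex.ofReal_inv, hcd, inv_div]
        have harg : (c : ℂ).arg ≠ Real.pi := by
          rw [Complex.arg_ofReal_of_nonneg hc.le]; exact Real.pi_pos.ne
        rw [e, Complex.inv_cpow _ _ harg]
      rw [hRc, Complex.ofReal_mul, Complex.mul_cpow_ofReal_nonneg hc.le (Nat.cast_nonneg n),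
        Complex.cpow_neg]
      simp only [Complex.ofReal_natCast]
      field_simp

end Pool.Agent.Helper92.HF
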