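import Pool.Agent.Helper92.HF.Tw
import Pool.Agent.Helper92.HF.Fam

/-!
# Project HF: the completed L-functions over multiquadratic fields (helper92)
-/

set_option autoImplicit false

open NumberField IsDedekindDomain Complex Filter Topology

namespace Pool.Agent.Helper92.HF

open Pool.Agent.Y19.QT (ap)
open Pool.Agent.Y691.QT (ap_twist)
open Pool.Agent.Y692.QN (AF summable_coef fac euler decomp js_star)
open Pool.Agent.H306R2.RZ (js)
open Pool.Agent.Helper92.CM (trc)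
open Pool.Agent.Helper92.MQ (IsMQ hasProd_mq trc_ap sf sf_spec sf_squarefree jacobi_prod trv)
open Pool.Agent.W164.RC (lpoly)

/-- the completed L-function of the twist by the squarefree integer `D` -/
theorem twist_data {a b : ℤ} (hab : 4 * a ^ 3 + 27 * b ^ 2 ≠ 0) (hT : AllTw a b) {D : ℤ}
    (hD : Squarefree D) :
    ∃ (N : ℕ) (c : ℕ → ℂ) (Λ : ℂ → ℂ), AF 0 0 N c ∧ Differentiable ℂ Λ ∧
      (∃ w : ℂ, (w = 1 ∨ w = -1) ∧ ∀ s, Λ s = w * Λ (2 - s)) ∧
      (∀ σ₁ σ₂ : ℝ, ∃ M : ℝ, ∀ s : ℂ, σ₁ ≤ s.re → s.re ≤ σ₂ → ‖Λ s‖ ≤ M) ∧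
      (∀ s : ℂ, 3 / 2 < s.re → Λ s = (N : ℂ) ^ (s / 2) * ((2 * Real.pi : ℂ) ^ (-s) * Gamma s) *
        ∑' n : ℕ, c n * (n : ℂ) ^ (-s)) ∧
      (∀ p : ℕ, p.Prime → ¬ (p : ℤ) ∣ 2 * (4 * a ^ 3 + 27 * b ^ 2) → ¬ (p : ℤ) ∣ D →
        ¬ p ∣ N ∧ c p = ((jacobiSym D p * ap a b p : ℤ) : ℂ)) ∧
      D ^ 2 ≤ (2 * (4 * a ^ 3 + 27 * b ^ 2)) ^ 2 * N := by
  obtain ⟨Q, hQ⟩ : ∃ Q : ℕ, Q = (2 * (4 * a ^ 3 + 27 * b ^ 2)).natAbs := ⟨_, rfl⟩
  have hQ0 : 0 < Q := by
    rw [hQ]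
    exact Int.natAbs_pos.2 (mul_ne_zero two_ne_zero hab)
  have h2 : 2 ∣ Q := by
    rw [hQ, Int.natAbs_mul]
    exact dvd_mul_right _ _
  have hQd : ∀ p : ℕ, (p : ℤ) ∣ 2 * (4 * a ^ 3 + 27 * b ^ 2) ↔ p ∣ Q := fun p => by
    rw [hQ, Int.natCast_dvd]
  obtain ⟨m, g, hd, hm, hms, hmQ, hg0, hgQ, hgle⟩ := decomp hQ0 h2 D hD
  obtain ⟨N, f, hf⟩ := hT g hg0
  have hpts : ∀ p : ℕ, p.Prime → ¬ p ∣ Q → ¬ (p : ℤ) ∣ g → ¬ p ∣ N ∧ f p = (ap (a * g ^ 2) (b * g ^ 3) p : ℂ) := by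
    intro p hp hpQ hpg
    have hpi : Prime (p : ℤ) := Nat.prime_iff_prime_int.1 hp
    refine hf.points p hp ?_
    have e : 2 * (4 * (a * g ^ 2) ^ 3 + 27 * (b * g ^ 3) ^ 2) =
        g ^ 6 * (2 * (4 * a ^ 3 + 27 * b ^ 2)) := by ring
    rw [e]
    intro h
    rcases hpi.dvd_or_dvd h with h | h
    · exact hpg (hpi.dvd_of_dvd_pow h)
    · exact hpQ ((hQd p).1 h)
  have hmN : m.Coprime N := by
    refine Nat.coprime_of_dvd fun p hp h1 h3 => ?_
    have hpQ : ¬ p ∣ Q := fun h4 => by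
      have := Nat.dvd_gcd h1 h4
      rw [hmQ] at this
      exact hp.ne_one (Nat.dvd_one.1 this)
    exact (hpts p hp hpQ (fun h => hpQ (hgQ p hp h))).1 h3
  obtain ⟨haf, Λ, h3, h4, h5, h6⟩ := tw_af hf hm hms hmN
  refine ⟨N * m ^ 2, tw f m, Λ, haf, h3, h4, h5, h6, ?_, ?_⟩
  · intro p hp hpQ hpD
    have hpQ' : ¬ p ∣ Q := fun h => hpQ ((hQd p).2 h)
    have hpg : ¬ (p : ℤ) ∣ g := fun h => hpD (by rw [hd]; exact h.mul_right _)
    have hpm : ¬ p ∣ m := fun h => hpD (by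
      rw [hd]
      exact ((Int.natCast_dvd_natCast.2 h).mul_left _).mul_left _)
    have hp2 : p ≠ 2 := by
      rintro rfl
      exact hpQ' h2
    obtain ⟨k1, k2⟩ := hpts p hp hpQ' hpg
    refine ⟨?_, ?_⟩
    · intro h
      rcases hp.dvd_mul.1 h with h | h
      · exact k1 h
      · exact hpm (hp.dvd_of_dvd_pow h)
    · have h7 := js_star hm (hp.odd_of_ne_two hp2) g
      rw [← hd] at h7
      unfold tw
      rw [k2, ap_twist a b g p hp hp2 hpg]
      unfold js at h7 ⊢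
      have h8 : (jacobiSym D p : ℤ) = jacobiSym g p * jacobiSym p m := by exact_mod_cast h7
      rw [h8]
      push_cast
      ring
  · have h7 : |D| ≤ Q * m := by
      rw [hd, abs_mul, abs_mul]
      have h8 : |(ZMod.χ₄ m : ℤ)| ≤ 1 := by
        rw [ZMod.χ₄_nat_eq_if_mod_four]
        split_ifs <;> norm_num
      have h9 : |(m : ℤ)| = m := abs_of_nonneg (Int.natCast_nonneg m)
      rw [h9]
      calc |g| * (|(ZMod.χ₄ m : ℤ)| * m) ≤ Q * (1 * m) := by
            apply mul_le_mul hgle _ (by positivity) (by positivity)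
            exact mul_le_mul_of_nonneg_right h8 (by positivity)
        _ = Q * m := by ring
    have h8 : D ^ 2 ≤ (Q * m) ^ 2 := by
      rw [← sq_abs D]
      exact pow_le_pow_left₀ (abs_nonneg _) h7 2
    have h9 : ((Q : ℤ)) ^ 2 = (2 * (4 * a ^ 3 + 27 * b ^ 2)) ^ 2 := by
      rw [hQ, Int.natCast_natAbs, sq_abs]
    have h10 : (1 : ℤ) ≤ N := by exact_mod_cast hf.pos
    calc D ^ 2 ≤ (Q * m) ^ 2 := h8
      _ = (Q : ℤ) ^ 2 * (1 * (m : ℤ) ^ 2) := by ring
      _ ≤ (Q : ℤ) ^ 2 * (N * (m : ℤ) ^ 2) := by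
          apply mul_le_mul_of_nonneg_left _ (by positivity)
          exact mul_le_mul_of_nonneg_right h10 (by positivity)
      _ = _ := by
          rw [h9]
          push_cast
          ring

/-! ### the Euler polynomials over the rationals -/

open Polynomial in
/-- the Euler polynomial of a coefficient sequence -/
noncomputable def epol (N : ℕ) (c : ℕ → ℂ) (p : ℕ) : ℝ[X] :=
  1 - C (c p).re * X + C (if p ∣ N then 0 else (p : ℝ)) * X ^ 2

section
variable {N : ℕ} {c : ℕ → ℂ}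

lemma epol_aeval (N : ℕ) (c : ℕ → ℂ) (p : ℕ) (x : ℂ) : Polynomial.aeval x (epol N c p) =
    1 - ((c p).re : ℂ) * x + (if p ∣ N then 0 else (p : ℂ)) * x ^ 2 := by
  unfold epol
  split_ifs <;> simp

lemma epol_fac (hf : AF 0 0 N c) {p : ℕ} (hp : p.Prime) (s : ℂ) :
    Polynomial.aeval ((p : ℂ) ^ (-s)) (epol N c p) = fac N c p s := by
  rw [epol_aeval]
  have h1 : c p = ((c p).re : ℂ) := by
    apply Complex.ext
    · simp
    · simp [hf.real p]
  have h2 : (p : ℂ) ^ (1 - 2 * s) = p * ((p : ℂ) ^ (-s)) ^ 2 :=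
    Pool.Agent.H82R3.EK.prime_cpow p hp.ne_zero s
  unfold fac
  rw [h2, ← h1]
  split_ifs <;> ring

lemma epol_coeff (N : ℕ) (c : ℕ → ℂ) (p : ℕ) : (epol N c p).eval 0 = 1 := by
  unfold epol
  simp

lemma epol_deg (N : ℕ) (c : ℕ → ℂ) (p : ℕ) : (epol N c p).natDegree ≤ 2 := by
  unfold epol
  compute_degree

lemma no_root {c u v : ℝ} (hc : |c| ≤ 2) (huv : u ^ 2 + v ^ 2 < 1) (h1 : 1 + u ^ 2 - v ^ 2 = c * u)
    (h2 : 2 * u * v = c * v) : False := by
  by_cases hv : v = 0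
  · subst hv
    have h3 : c * u ≤ 2 * |u| := by
      calc c * u ≤ |c * u| := le_abs_self _
        _ = |c| * |u| := abs_mul _ _
        _ ≤ 2 * |u| := mul_le_mul_of_nonneg_right hc (abs_nonneg _)
    have h4 : |u| ^ 2 = u ^ 2 := sq_abs u
    have h5 : (1 - |u|) ^ 2 ≤ 0 := by nlinarith
    have h6 : 1 - |u| = 0 := by
      have := sq_nonneg (1 - |u|)
      exact pow_eq_zero_iff (two_ne_zero) |>.1 (le_antisymm h5 this)
    have h7 : |u| = 1 := by linarith
    rw [h7] at h4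
    nlinarith
  · have h3 : 2 * u = c := mul_right_cancel₀ hv h2
    rw [← h3] at h1
    have h4 : u ^ 2 + v ^ 2 = 1 := by linear_combination -h1
    linarith

lemma epol_root (hf : AF 0 0 N c) {p : ℕ} (hp : p.Prime) {x : ℂ} (hx : ‖x‖ * Real.sqrt p < 1) :
    Polynomial.aeval x (epol N c p) ≠ 0 := by
  rw [epol_aeval]
  have hp0 : (0 : ℝ) < p := by exact_mod_cast hp.pos
  have hs0 : 0 < Real.sqrt p := Real.sqrt_pos.2 hp0
  have hs1 : 1 ≤ Real.sqrt p := by
    rw [Real.one_le_sqrt]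
    exact_mod_cast hp.one_lt.le
  have hss : Real.sqrt p * Real.sqrt p = p := Real.mul_self_sqrt hp0.le
  have h1 : ‖c p‖ = |(c p).re| := by
    have : c p = ((c p).re : ℂ) := by
      apply Complex.ext
      · simp
      · simp [hf.real p]
    conv_lhs => rw [this]
    rw [Complex.norm_real, Real.norm_eq_abs]
  split_ifs with h
  · have h2 := hf.bad p hp h
    rw [h1] at h2
    intro h3
    have h4 : ((c p).re : ℂ) * x = 1 := by linear_combination -h3
    have h5 := congrArg (fun z => ‖z‖) h4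
    simp only [norm_mul, Complex.norm_real, Real.norm_eq_abs, norm_one] at h5
    have h6 : |(c p).re| * ‖x‖ ≤ ‖x‖ * Real.sqrt p := by
      have := norm_nonneg x
      have := abs_nonneg (c p).re
      nlinarith
    linarith
  · have h2 := hf.good p hp h
    rw [h1] at h2
    intro h3
    obtain ⟨u, hu⟩ : ∃ u, u = x.re * Real.sqrt p := ⟨_, rfl⟩
    obtain ⟨v, hv⟩ : ∃ v, v = x.im * Real.sqrt p := ⟨_, rfl⟩
    obtain ⟨e, he⟩ : ∃ e, e = (c p).re / Real.sqrt p := ⟨_, rfl⟩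
    have he2 : (c p).re = e * Real.sqrt p := by rw [he]; field_simp
    have hxr : (x ^ 2).re = x.re ^ 2 - x.im ^ 2 := by rw [sq, Complex.mul_re]; ring
    have hxi : (x ^ 2).im = 2 * x.re * x.im := by rw [sq, Complex.mul_im]; ring
    have hre : 1 - (c p).re * x.re + p * (x.re ^ 2 - x.im ^ 2) = 0 := by
      have h4 := congrArg Complex.re h3
      rw [Complex.add_re, Complex.sub_re, Complex.one_re, Complex.re_ofReal_mul,
        ← Complex.ofReal_natCast, Complex.re_ofReal_mul, hxr, Complex.zero_re] at h4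
      exact h4
    have him : 0 - (c p).re * x.im + p * (2 * x.re * x.im) = 0 := by
      have h4 := congrArg Complex.im h3
      rw [Complex.add_im, Complex.sub_im, Complex.one_im, Complex.im_ofReal_mul,
        ← Complex.ofReal_natCast, Complex.im_ofReal_mul, hxi, Complex.zero_im] at h4
      exact h4
    refine no_root (c := e) (u := u) (v := v) ?_ ?_ ?_ ?_
    · rw [he, abs_div, abs_of_pos hs0, div_le_iff₀ hs0]
      exact h2
    · have h4 : u ^ 2 + v ^ 2 = (‖x‖ * Real.sqrt p) ^ 2 := by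
        rw [hu, hv, mul_pow, mul_pow, mul_pow, ← Complex.normSq_eq_norm_sq, Complex.normSq_apply]
        ring
      rw [h4]
      have h5 : 0 ≤ ‖x‖ * Real.sqrt p := by positivity
      nlinarith
    · rw [hu, hv]
      rw [he2] at hre
      linear_combination hre + (x.re ^ 2 - x.im ^ 2) * hss
    · rw [hu, hv]
      rw [he2] at him
      linear_combination him + (2 * x.re * x.im) * hss

end

end Pool.Agent.Helper92.HF
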