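import Pool.Agent.Helper92.HF.Mq

/-!
# Project HF: the completed L-functions over multiquadratic fields, second part (helper92)
-/

set_option autoImplicit false

open NumberField IsDedekindDomain Complex Filter Topology

namespace Pool.Agent.Helper92.HF

open Pool.Agent.Y19.QT (ap Fam)
open Pool.Agent.Y692.QN (AF summable_coef fac fac_ne_zero euler)
open Pool.Agent.Helper92.CM (trc)
open Pool.Agent.Helper92.MQ (IsMQ hasProd_mq trc_ap sf sf_spec sf_squarefree jacobi_prod trv)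
open Pool.Agent.W164.RC (lpoly)

open Classical in
theorem hasProd_S {a b n : ℤ} {k : ℕ} {d : Fin k → ℤ} (hd0 : ∀ i, d i ≠ 0)
    (hn : n = 2 * (4 * a ^ 3 + 27 * b ^ 2) * ∏ i, d i) (hn0 : n ≠ 0) (S : Finset (Fin k)) {N : ℕ} {c : ℕ → ℂ}
    (hf : AF 0 0 N c)
    (hpt : ∀ p : ℕ, p.Prime → ¬ (p : ℤ) ∣ 2 * (4 * a ^ 3 + 27 * b ^ 2) →
      ¬ (p : ℤ) ∣ sf (∏ i ∈ S, d i) → ¬ p ∣ N ∧
        c p = ((jacobiSym (sf (∏ i ∈ S, d i)) p * ap a b p : ℤ) : ℂ)) {s : ℂ} (hs : 3 / 2 < s.re) :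
    HasProd (fun p : Nat.Primes => if ((p : ℕ) : ℤ) ∣ n then 1 else
      (lpoly ((∏ i ∈ S, jacobiSym (d i) p) * trc (ZMod p) a b) 1 p s)⁻¹)
      ((∑' n : ℕ, c n * (n : ℂ) ^ (-s)) * ∏ p ∈ n.natAbs.primeFactors, fac N c p s) := by
  obtain ⟨B, hB⟩ : ∃ B, B = n.natAbs.primeFactors := ⟨_, rfl⟩
  have hBm : ∀ p : ℕ, p.Prime → (p ∈ B ↔ (p : ℤ) ∣ n) := fun p hp => by
    rw [hB, Nat.mem_primeFactors, Int.natCast_dvd]
    exact ⟨fun h => h.2.1, fun h => ⟨hp, h, Int.natAbs_ne_zero.2 hn0⟩⟩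
  rw [← hB]
  have h1 := euler hf hs
  have h2 : HasProd (fun p : ℕ => if p ∈ B then fac N c p s else 1) (∏ p ∈ B, fac N c p s) := by
    have h3 : ∏ p ∈ B, fac N c p s = ∏ p ∈ B, (if p ∈ B then fac N c p s else 1) :=
      Finset.prod_congr rfl fun p hp => by rw [if_pos hp]
    rw [h3]
    apply hasProd_prod_of_ne_finset_one
    intro p hp
    rw [if_neg hp]
  have h3 : HasProd ((fun p : ℕ => if p ∈ B then fac N c p s else 1) ∘ ((↑) : Nat.Primes → ℕ))
      (∏ p ∈ B, fac N c p s) := by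
    refine (hasProd_subtype_iff_of_mulSupport_subset (s := {p : ℕ | Nat.Prime p}) ?_).2 h2
    intro p hp
    rw [Function.mem_mulSupport] at hp
    by_contra hnp
    apply hp
    rw [if_neg]
    rw [hB]
    exact fun h => hnp (Nat.prime_of_mem_primeFactors h)
  refine (h1.mul h3).congr_fun fun p => ?_
  have hp := p.2
  simp only [Function.comp_apply]
  by_cases h : ((p : ℕ) : ℤ) ∣ n
  · rw [if_pos h, if_pos ((hBm p hp).2 h), inv_mul_cancel₀ (fac_ne_zero hf hs hp)]
  rw [if_neg h, if_neg (fun h4 => h ((hBm p hp).1 h4)), mul_one]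
  congr 1
  have hfp : Fact (p : ℕ).Prime := ⟨hp⟩
  have hne : NeZero (p : ℕ) := ⟨hp.ne_zero⟩
  have hpi : Prime ((p : ℕ) : ℤ) := Nat.prime_iff_prime_int.1 hp
  have hDp : ¬ ((p : ℕ) : ℤ) ∣ 2 * (4 * a ^ 3 + 27 * b ^ 2) := fun h3 => h (by
    rw [hn]
    exact h3.mul_right _)
  have hPS : ¬ ((p : ℕ) : ℤ) ∣ ∏ i ∈ S, d i := fun h3 => h (by
    rw [hn]
    exact (h3.trans (Finset.prod_dvd_prod_of_subset _ _ _ (Finset.subset_univ S))).mul_left _)
  obtain ⟨D, hD⟩ : ∃ D, D = sf (∏ i ∈ S, d i) := ⟨_, rfl⟩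
  obtain ⟨g, hg0, hg⟩ := sf_spec (n := ∏ i ∈ S, d i) (Finset.prod_ne_zero_iff.2 fun i _ => hd0 i)
  rw [← hD] at hg hpt
  have hpD : ¬ ((p : ℕ) : ℤ) ∣ D := fun h3 => hPS (by
    rw [hg]
    exact h3.mul_right _)
  have hpg : ¬ ((p : ℕ) : ℤ) ∣ g := fun h3 => hPS (by
    rw [hg]
    exact (h3.trans (dvd_pow_self g (by norm_num))).mul_left _)
  obtain ⟨k1, k2⟩ := hpt p hp hDp hpD
  have h6 := jacobi_prod d S p
  have h7 : jacobiSym (∏ i ∈ S, d i) p = jacobiSym D p := by
    rw [hg, jacobiSym.mul_left, pow_two, jacobiSym.mul_left]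
    have h8 : jacobiSym g p = 1 ∨ jacobiSym g p = -1 := by
      rw [← jacobiSym.legendreSym.to_jacobiSym]
      apply legendreSym.eq_one_or_neg_one
      rw [Ne, ZMod.intCast_zmod_eq_zero_iff_dvd]
      exact hpg
    rcases h8 with h8 | h8 <;> rw [h8] <;> norm_num
  unfold fac lpoly
  rw [if_neg k1, k2, ← h6, h7, trc_ap]
  push_cast
  ring

lemma natCast_prod_cpow {ι : Type} (T : Finset ι) (N : ι → ℕ) (z : ℂ) :
    ((∏ i ∈ T, N i : ℕ) : ℂ) ^ z = ∏ i ∈ T, (N i : ℂ) ^ z := by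
  classical
  induction T using Finset.induction_on with
  | empty => simp
  | insert i T hi ih =>
    rw [Finset.prod_insert hi, Finset.prod_insert hi, ← ih, Nat.cast_mul,
      Complex.natCast_mul_natCast_cpow]

lemma prod_sign {ι : Type} (T : Finset ι) (w : ι → ℂ) (hw : ∀ i, w i = 1 ∨ w i = -1) :
    (∏ i ∈ T, w i) = 1 ∨ (∏ i ∈ T, w i) = -1 := by
  classical
  induction T using Finset.induction_on with
  | empty => simp
  | insert i T hi ih =>
    rw [Finset.prod_insert hi]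
    rcases hw i with h | h <;> rcases ih with h' | h' <;> rw [h, h'] <;> norm_num

section
variable {k : ℕ} {d : Fin k → ℤ} {K : Type} [Field K] [NumberField K] {x : Fin k → K}

/-- **the completed L-function over a multiquadratic field** -/
theorem comp_mq (h : IsMQ d K x) (hd : ∀ i, d i ≠ 0) {a b : ℤ} (hab : 4 * a ^ 3 + 27 * b ^ 2 ≠ 0)
    (hT : AllTw a b) : ∃ (P : ℕ → Polynomial ℝ) (A : ℝ) (Λ : ℂ → ℂ),
      Comp K a b (2 * (4 * a ^ 3 + 27 * b ^ 2) * ∏ i, d i) P A Λ ∧
      ((∏ S : Finset (Fin k), sf (∏ i ∈ S, d i) : ℤ) : ℝ) ^ 2 ≤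
        ((2 * (4 * a ^ 3 + 27 * b ^ 2) : ℤ) : ℝ) ^ (2 * 2 ^ k) * A := by
  classical
  obtain ⟨n, hn⟩ : ∃ n : ℤ, n = 2 * (4 * a ^ 3 + 27 * b ^ 2) * ∏ i, d i := ⟨_, rfl⟩
  have hn0 : n ≠ 0 := by
    rw [hn]
    exact mul_ne_zero (mul_ne_zero two_ne_zero hab) (Finset.prod_ne_zero_iff.2 fun i _ => hd i)
  rw [← hn]
  have htw := fun S : Finset (Fin k) => twist_data hab hT (sf_squarefree (∏ i ∈ S, d i))
  choose N c Λ haf hdiff hfe hbd heu hpt hle using htw
  have hNpos : ∀ S, 0 < N S := fun S => (haf S).pos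
  have hAN : 0 < ∏ S : Finset (Fin k), N S := Finset.prod_pos fun S _ => hNpos S
  have hcardS : (Finset.univ : Finset (Finset (Fin k))).card = 2 ^ k := by
    rw [Finset.card_univ, Fintype.card_finset, Fintype.card_fin]
  refine ⟨fun p => ∏ S, epol (N S) (c S) p, ((∏ S, N S : ℕ) : ℝ), fun s => ∏ S, Λ S s, ?_, ?_⟩
  · refine
      { one_le := by exact_mod_cast hAN
        two := ?_
        poly := fun p hp => ?_
        entire := Differentiable.fun_finsetProd fun S _ => hdiff S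
        growth := fun σ₁ σ₂ => ?_
        euler := fun s hs => ?_
        fe := ?_ }
    · rw [hn]
      exact (dvd_mul_right _ _).mul_right _
    · have hpp := Nat.prime_of_mem_primeFactors hp
      refine ⟨?_, ?_, fun y hy => ?_⟩
      · rw [Polynomial.coeff_zero_eq_eval_zero, Polynomial.eval_prod]
        exact Finset.prod_eq_one fun S _ => epol_coeff _ _ _
      · refine (Polynomial.natDegree_prod_le _ _).trans ?_
        refine (Finset.sum_le_sum fun S _ => epol_deg (N S) (c S) p).trans ?_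
        rw [Finset.sum_const, hcardS, h.deg, smul_eq_mul]
        exact le_of_eq (mul_comm _ _)
      · rw [map_prod, Finset.prod_ne_zero_iff]
        exact fun S _ => epol_root (haf S) hpp hy
    · choose M hM using fun S => hbd S σ₁ σ₂
      refine ⟨∏ S, |M S|, fun s h1 h2 => ?_⟩
      have h3 : 0 ≤ ∏ S, |M S| := Finset.prod_nonneg fun S _ => abs_nonneg _
      rw [norm_prod]
      calc ∏ S, ‖Λ S s‖ ≤ ∏ S, |M S| :=
            Finset.prod_le_prod (fun S _ => norm_nonneg _) fun S _ => (hM S s h1 h2).trans (le_abs_self _)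
        _ ≤ (∏ S, |M S|) * (1 + |s.im|) := by
            have := abs_nonneg s.im
            nlinarith
        _ ≤ Real.exp ((∏ S, |M S|) * (1 + |s.im|)) := by
            have := Real.add_one_le_exp ((∏ S, |M S|) * (1 + |s.im|))
            linarith
    · have hmq := hasProd_mq h hn s hs (fun S => (∑' n : ℕ, c S n * (n : ℂ) ^ (-s)) *
        ∏ p ∈ n.natAbs.primeFactors, fac (N S) (c S) p s)
        (fun S => hasProd_S hd hn hn0 S (haf S) (hpt S) hs)
      have hEG : EG K a b n s = ∏ S, ((∑' n : ℕ, c S n * (n : ℂ) ^ (-s)) *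
          ∏ p ∈ n.natAbs.primeFactors, fac (N S) (c S) p s) := by
        rw [← hmq.tprod_eq]
        unfold EG
        congr 1
        funext v
        unfold gp
        split_ifs <;> simp
      have hEQ : EQ n (fun p => ∏ S, epol (N S) (c S) p) s =
          ∏ p ∈ n.natAbs.primeFactors, (∏ S, fac (N S) (c S) p s)⁻¹ := by
        unfold EQ
        refine Finset.prod_congr rfl fun p hp => ?_
        rw [map_prod]
        congr 1
        exact Finset.prod_congr rfl fun S _ => epol_fac (haf S) (Nat.prime_of_mem_primeFactors hp) s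
      have hprod : EG K a b n s * EQ n (fun p => ∏ S, epol (N S) (c S) p) s =
          ∏ S, ∑' n : ℕ, c S n * (n : ℂ) ^ (-s) := by
        have h9 : ∏ p ∈ n.natAbs.primeFactors, ((∏ S, fac (N S) (c S) p s) *
            (∏ S, fac (N S) (c S) p s)⁻¹) = 1 := by
          refine Finset.prod_eq_one fun p hp => ?_
          have hpp := Nat.prime_of_mem_primeFactors hp
          apply mul_inv_cancel₀
          rw [Finset.prod_ne_zero_iff]
          exact fun S _ => fac_ne_zero (haf S) hs hpp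
        rw [hEG, hEQ, Finset.prod_mul_distrib, mul_assoc, Finset.prod_comm, ← Finset.prod_mul_distrib,
          h9, mul_one]
      rw [hprod, h.deg, Finset.prod_congr rfl fun S _ => heu S s hs, Finset.prod_mul_distrib,
        Finset.prod_mul_distrib, Finset.prod_const, hcardS, Complex.ofReal_natCast, natCast_prod_cpow]
    · choose w hw hwe using hfe
      refine ⟨∏ S, w S, prod_sign _ _ hw, fun s => ?_⟩
      rw [← Finset.prod_mul_distrib]
      exact Finset.prod_congr rfl fun S _ => hwe S s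
  · have h1 : ∏ S : Finset (Fin k), (sf (∏ i ∈ S, d i)) ^ 2 ≤
        ∏ S : Finset (Fin k), ((2 * (4 * a ^ 3 + 27 * b ^ 2)) ^ 2 * (N S : ℤ)) :=
      Finset.prod_le_prod (fun S _ => sq_nonneg _) fun S _ => hle S
    rw [Finset.prod_mul_distrib, Finset.prod_const, hcardS, ← pow_mul, Finset.prod_pow] at h1
    exact_mod_cast h1

end

end Pool.Agent.Helper92.HF
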