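import Pool.Agent.W169.HF.DefsB
import Pool.Agent.W327.HF.Fwd

/-!
# Project HF: the saddle point lemma (helper92)
-/

set_option autoImplicit false

open Complex MeasureTheory Filter Topology Set
open scoped ComplexConjugate NNReal

namespace Pool.Agent.Helper92.HF

open Pool.Agent.W169.HF

/-- a fixed point of a map with small derivative -/
lemma fixed {e : ℂ → ℂ} {r θ : ℝ} (hθ : 0 < θ) (hθr : θ < r) (he : ∀ z ∈ Metric.ball (0 : ℂ) r, DifferentiableAt ℂ e z)
    (hb : ∀ z ∈ Metric.ball (0 : ℂ) r, ‖e z‖ ≤ θ) (hd : ∀ z ∈ Metric.ball (0 : ℂ) r, ‖deriv e z‖ ≤ 1 / 2) :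
    ∃ z : ℂ, ‖z‖ ≤ θ ∧ e z = z := by
  have hsub : Metric.closedBall (0 : ℂ) θ ⊆ Metric.ball 0 r := Metric.closedBall_subset_ball hθr
  have hmaps : MapsTo e (Metric.closedBall (0 : ℂ) θ) (Metric.closedBall (0 : ℂ) θ) := by
    intro z hz
    rw [mem_closedBall_zero_iff]
    exact hb z (hsub hz)
  have hlip : ∀ x ∈ Metric.closedBall (0 : ℂ) θ, ∀ y ∈ Metric.closedBall (0 : ℂ) θ,
      ‖e x - e y‖ ≤ 1 / 2 * ‖x - y‖ := by
    intro x hx y hy
    exact (convex_ball (0 : ℂ) r).norm_image_sub_le_of_norm_deriv_le he hd (hsub hy) (hsub hx)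
  have hc : ContractingWith (1 / 2 : ℝ≥0) (hmaps.restrict e _ _) := by
    refine ⟨by rw [← NNReal.coe_lt_coe]; norm_num, ?_⟩
    refine LipschitzWith.of_dist_le_mul fun x y => ?_
    rw [Subtype.dist_eq, Subtype.dist_eq, dist_eq_norm, dist_eq_norm]
    have := hlip x.1 x.2 y.1 y.2
    simpa using this
  obtain ⟨z, hz, hfix, -⟩ := hc.exists_fixedPoint' (Metric.isClosed_closedBall.isComplete) hmaps
    (Metric.mem_closedBall_self hθ.le) (edist_ne_top _ _)
  exact ⟨z, by rwa [mem_closedBall_zero_iff] at hz, hfix⟩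

/-- the Gaussian integral with a small perturbation -/
lemma gauss_pert {s b δ : ℝ} (hs : 0 < s) (hb : 1 / s ≤ b) (hδ0 : 0 ≤ δ) (hδ : δ ≤ 1 / 1000) {r : ℝ → ℂ}
    (hrc : ContinuousOn r (Icc (-b) b)) (hr : ∀ y ∈ Icc (-b) b, ‖r y‖ ≤ δ * (s ^ 2 * y ^ 2)) :
    1 / 2 / s ≤ ‖∫ y in (-b)..b, cexp (((-(s ^ 2 * y ^ 2 / 2) : ℝ) : ℂ) + r y)‖ := by
  have hs' : 0 < 1 / s := by positivity
  have hb0 : 0 < b := lt_of_lt_of_le hs' hb
  have hbb : -b ≤ b := by linarith
  have hcont : ContinuousOn (fun y : ℝ => cexp (((-(s ^ 2 * y ^ 2 / 2) : ℝ) : ℂ) + r y)) (uIcc (-b) b) := by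
    rw [uIcc_of_le hbb]
    refine ContinuousOn.cexp (ContinuousOn.add ?_ hrc)
    exact (Continuous.continuousOn (by fun_prop))
  have hint := hcont.intervalIntegrable (μ := volume)
  have hre : (∫ y in (-b)..b, cexp (((-(s ^ 2 * y ^ 2 / 2) : ℝ) : ℂ) + r y)).re =
      ∫ y in (-b)..b, (cexp (((-(s ^ 2 * y ^ 2 / 2) : ℝ) : ℂ) + r y)).re := by
    have := Complex.reCLM.intervalIntegral_comp_comm hint
    simp only [Complex.reCLM_apply] at this
    exact this.symm
  refine le_trans ?_ (Complex.re_le_norm _)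
  rw [hre]
  have hpt : ∀ y ∈ Icc (-b) b, Real.exp (-(s ^ 2 * y ^ 2 / 2)) - 8 * δ * Real.exp (-(s ^ 2 / 8) * y ^ 2) ≤
      (cexp (((-(s ^ 2 * y ^ 2 / 2) : ℝ) : ℂ) + r y)).re := by
    intro y hy
    obtain ⟨x, hx⟩ : ∃ x : ℝ, x = s ^ 2 * y ^ 2 := ⟨_, rfl⟩
    have hx0 : 0 ≤ x := by rw [hx]; positivity
    have h1 := hr y hy
    rw [← hx] at h1 ⊢
    have e1 : -(s ^ 2 / 8) * y ^ 2 = -(x / 8) := by rw [hx]; ring
    rw [e1, Complex.exp_add, ← Complex.ofReal_exp]
    have h2 : ((Real.exp (-(x / 2)) : ℝ) : ℂ) * cexp (r y) =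
        ((Real.exp (-(x / 2)) : ℝ) : ℂ) + ((Real.exp (-(x / 2)) : ℝ) : ℂ) * (cexp (r y) - 1) := by ring
    rw [h2, add_re, ofReal_re]
    have h3 : ‖cexp (r y) - 1‖ ≤ ‖r y‖ * Real.exp ‖r y‖ := by
      have := Complex.norm_exp_sub_sum_le_norm_mul_exp (r y) 1
      simpa using this
    have h4 : ‖((Real.exp (-(x / 2)) : ℝ) : ℂ) * (cexp (r y) - 1)‖ ≤ 8 * δ * Real.exp (-(x / 8)) := by
      rw [norm_mul, Complex.norm_real, Real.norm_eq_abs, abs_of_pos (Real.exp_pos _)]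
      have h5 : ‖r y‖ * Real.exp ‖r y‖ ≤ (δ * x) * Real.exp (x / 4) := by
        have h6 : ‖r y‖ ≤ x / 4 := by nlinarith
        have := Real.exp_le_exp.2 h6
        gcongr
      have h7 : x ≤ 8 * Real.exp (x / 8) := by
        have := Real.add_one_le_exp (x / 8)
        linarith
      calc Real.exp (-(x / 2)) * ‖cexp (r y) - 1‖
          ≤ Real.exp (-(x / 2)) * ((δ * x) * Real.exp (x / 4)) := by
            have := h3.trans h5
            gcongr
        _ ≤ Real.exp (-(x / 2)) * ((δ * (8 * Real.exp (x / 8))) * Real.exp (x / 4)) := by gcongr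
        _ = 8 * δ * (Real.exp (-(x / 2)) * Real.exp (x / 8) * Real.exp (x / 4)) := by ring
        _ = 8 * δ * Real.exp (-(x / 8)) := by
            rw [← Real.exp_add, ← Real.exp_add]
            congr 2
            ring
    have h8 := (Complex.abs_re_le_norm _).trans h4
    have h9 := (abs_le.1 h8).1
    linarith
  have hc1 : Continuous (fun y : ℝ => Real.exp (-(s ^ 2 * y ^ 2 / 2))) := by fun_prop
  have hc2 : Continuous (fun y : ℝ => 8 * δ * Real.exp (-(s ^ 2 / 8) * y ^ 2)) := by fun_prop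
  have hint2 : IntervalIntegrable (fun y : ℝ => (cexp (((-(s ^ 2 * y ^ 2 / 2) : ℝ) : ℂ) + r y)).re) volume (-b) b :=
    (Complex.continuous_re.comp_continuousOn hcont).intervalIntegrable
  have hmono := intervalIntegral.integral_mono_on hbb ((hc1.sub hc2).intervalIntegrable (-b) b) hint2 hpt
  have hsub : ∫ y in (-b)..b, (Real.exp (-(s ^ 2 * y ^ 2 / 2)) - 8 * δ * Real.exp (-(s ^ 2 / 8) * y ^ 2)) =
      (∫ y in (-b)..b, Real.exp (-(s ^ 2 * y ^ 2 / 2))) - ∫ y in (-b)..b, 8 * δ * Real.exp (-(s ^ 2 / 8) * y ^ 2) :=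
    intervalIntegral.integral_sub (hc1.intervalIntegrable _ _) (hc2.intervalIntegrable _ _)
  refine le_trans ?_ (hsub.symm.le.trans hmono)
  -- main term
  have hmain : 1 / s ≤ ∫ y in (-b)..b, Real.exp (-(s ^ 2 * y ^ 2 / 2)) := by
    have h1 : ∫ y in (-(1 / s))..(1 / s), Real.exp (-(s ^ 2 * y ^ 2 / 2)) ≤
        ∫ y in (-b)..b, Real.exp (-(s ^ 2 * y ^ 2 / 2)) := by
      apply intervalIntegral.integral_mono_interval (by linarith) (by linarith) hb
      · exact Eventually.of_forall fun y => (Real.exp_pos _).le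
      · exact hc1.intervalIntegrable _ _
    have h2 : ∫ y in (-(1 / s))..(1 / s), (1 / 2 : ℝ) ≤
        ∫ y in (-(1 / s))..(1 / s), Real.exp (-(s ^ 2 * y ^ 2 / 2)) := by
      apply intervalIntegral.integral_mono_on (by linarith) (intervalIntegrable_const) (hc1.intervalIntegrable _ _)
      intro y hy
      have h3 : y ^ 2 ≤ (1 / s) ^ 2 := sq_le_sq' hy.1 hy.2
      have h4 : s ^ 2 * y ^ 2 ≤ 1 := by
        calc s ^ 2 * y ^ 2 ≤ s ^ 2 * (1 / s) ^ 2 := by gcongr
          _ = 1 := by field_simp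
      have := Real.add_one_le_exp (-(s ^ 2 * y ^ 2 / 2))
      linarith
    rw [intervalIntegral.integral_const, smul_eq_mul] at h2
    have e2 : (1 / s - -(1 / s)) * (1 / 2) = 1 / s := by ring
    rw [e2] at h2
    exact h2.trans h1
  have herr : ∫ y in (-b)..b, 8 * δ * Real.exp (-(s ^ 2 / 8) * y ^ 2) ≤ 8 * δ * (6 / s) := by
    rw [intervalIntegral.integral_const_mul]
    apply mul_le_mul_of_nonneg_left _ (by positivity)
    have hgi : Integrable (fun y : ℝ => Real.exp (-(s ^ 2 / 8) * y ^ 2)) :=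
      integrable_exp_neg_mul_sq (by positivity)
    have h1 : ∫ y in (-b)..b, Real.exp (-(s ^ 2 / 8) * y ^ 2) ≤ ∫ y : ℝ, Real.exp (-(s ^ 2 / 8) * y ^ 2) := by
      rw [intervalIntegral.integral_of_le hbb]
      exact setIntegral_le_integral hgi (Eventually.of_forall fun y => (Real.exp_pos _).le)
    refine h1.trans ?_
    rw [integral_gaussian]
    rw [Real.sqrt_le_left (by positivity), div_pow, div_le_div_iff₀ (by positivity) (by positivity)]
    have := Real.pi_lt_d2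
    nlinarith [sq_nonneg s, sq_pos_of_pos hs]
  have hfin : 8 * δ * (6 / s) ≤ 1 / 2 / s := by
    have : 8 * δ * (6 / s) = 48 * δ * (1 / s) := by ring
    rw [this]
    have h2 : 1 / 2 / s = 1 / 2 * (1 / s) := by ring
    rw [h2]
    apply mul_le_mul_of_nonneg_right _ hs'.le
    linarith
  have h3 : 1 / s = 1 / 2 / s + 1 / 2 / s := by ring
  linarith

theorem sadl : S_SADL := by
  intro F p μ ρ s θ hρ hρ2 hs hs5 hθ hθρ hL
  have hs0 : 0 < s := by linarith
  have hs20 : 0 < s ^ 2 := by positivity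
  have hp : p ∈ Metric.ball p ρ := Metric.mem_ball_self hρ
  have hmem : ∀ z ∈ Metric.ball (0 : ℂ) ρ, p + z ∈ Metric.ball p ρ := by
    intro z hz
    rw [mem_ball_zero_iff] at hz
    rwa [Metric.mem_ball, dist_eq_norm, add_sub_cancel_left]
  have hFp : F p ≠ 0 := (hL p hp).2.1
  have hFd : ∀ z ∈ Metric.ball (0 : ℂ) ρ, HasDerivAt (fun z => F (p + z)) (deriv F (p + z)) z := by
    intro z hz
    have h1 := (hL _ (hmem z hz)).1.hasDerivAt
    have h2 : HasDerivAt (fun z : ℂ => p + z) 1 z := (hasDerivAt_id z).const_add p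
    have h3 := h1.comp z h2
    rw [mul_one] at h3
    exact h3
  obtain ⟨f, hfd, hf0, hfk⟩ := W327.HF.exlog (k := fun z => F (p + z) / F p) hρ
    (fun z hz => ((hFd z hz).differentiableAt.div_const _).differentiableWithinAt)
    (fun z hz => div_ne_zero (hL _ (hmem z hz)).2.1 hFp) (by simp [hFp])
  have hF : ∀ z ∈ Metric.ball (0 : ℂ) ρ, F (p + z) = F p * cexp (f z) := by
    intro z hz
    have h1 : F (p + z) / F p = cexp (f z) := hfk z hz
    rw [← h1]
    field_simp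
  have hopen : ∀ z ∈ Metric.ball (0 : ℂ) ρ, Metric.ball (0 : ℂ) ρ ∈ 𝓝 z := fun z hz =>
    Metric.isOpen_ball.mem_nhds hz
  have hfd' : ∀ z ∈ Metric.ball (0 : ℂ) ρ, HasDerivAt f (deriv f z) z := fun z hz =>
    (hfd.differentiableAt (hopen z hz)).hasDerivAt
  have hder : ∀ z ∈ Metric.ball (0 : ℂ) ρ, deriv f z = logDeriv F (p + z) := by
    intro z hz
    have h1 : HasDerivAt (fun z => F (p + z)) (F p * (cexp (f z) * deriv f z)) z := by
      refine HasDerivAt.congr_of_eventuallyEq (((hfd' z hz).cexp).const_mul (F p)) ?_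
      filter_upwards [hopen z hz] with w hw
      exact hF w hw
    have h2 := (hFd z hz).unique h1
    rw [logDeriv_apply, h2, hF z hz]
    have := Complex.exp_ne_zero (f z)
    field_simp
  obtain ⟨e, he⟩ : ∃ e : ℂ → ℂ, e = fun z => (deriv f z - μ) / s ^ 2 := ⟨_, rfl⟩
  have hed : DifferentiableOn ℂ e (Metric.ball 0 ρ) := by
    rw [he]
    exact ((hfd.deriv Metric.isOpen_ball).sub_const _).div_const _
  have heb : ∀ z ∈ Metric.ball (0 : ℂ) ρ, ‖e z‖ ≤ θ := by
    intro z hz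
    have h1 := (hL _ (hmem z hz)).2.2
    rw [← hder z hz] at h1
    have h2 : e z = (deriv f z - μ) / s ^ 2 := by rw [he]
    rw [h2, norm_div, norm_pow, Complex.norm_real, Real.norm_eq_abs, abs_of_pos hs0, div_le_iff₀ hs20]
    exact h1
  have hder_e : ∀ z ∈ Metric.ball (0 : ℂ) (ρ / 2), ‖deriv e z‖ ≤ 2 * θ / ρ := by
    intro z hz
    rw [mem_ball_zero_iff] at hz
    have hsub : Metric.closedBall z (ρ / 2) ⊆ Metric.ball 0 ρ := by
      intro w hw
      rw [mem_closedBall_iff_norm] at hw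
      rw [mem_ball_zero_iff]
      have : ‖w‖ ≤ ‖w - z‖ + ‖z‖ := by
        have := norm_add_le (w - z) z
        rwa [sub_add_cancel] at this
      linarith
    have h1 := Complex.norm_deriv_le_of_forall_mem_sphere_norm_le (c := z) (R := ρ / 2) (C := θ)
      (f := e) (by positivity)
      ⟨hed.mono (Metric.ball_subset_closedBall.trans hsub),
        (hed.continuousOn).mono (Metric.closure_ball_subset_closedBall.trans hsub)⟩
      (fun w hw => heb w (hsub (Metric.sphere_subset_closedBall hw)))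
    refine h1.trans (le_of_eq ?_)
    field_simp
  obtain ⟨δ, hδd⟩ : ∃ δ : ℝ, δ = 2 * θ / ρ := ⟨_, rfl⟩
  have hδ0 : 0 ≤ δ := by rw [hδd]; positivity
  have hδ : δ ≤ 1 / 1000 := by
    rw [hδd, div_le_iff₀ hρ]
    linarith
  rw [← hδd] at hder_e
  have hsubρ : Metric.ball (0 : ℂ) (ρ / 2) ⊆ Metric.ball 0 ρ := Metric.ball_subset_ball (by linarith)
  obtain ⟨z0, hz0, hfix⟩ := fixed (e := e) (r := ρ / 2) hθ (by linarith)
    (fun z hz => hed.differentiableAt (hopen z (hsubρ hz))) (fun z hz => heb z (hsubρ hz))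
    (fun z hz => (hder_e z hz).trans (by linarith))
  have hz0m : z0 ∈ Metric.ball (0 : ℂ) (ρ / 2) := by
    rw [mem_ball_zero_iff]; linarith
  -- the function `h`
  obtain ⟨Ψ, hΨ⟩ : ∃ Ψ : ℂ → ℂ, Ψ = fun z => -((s : ℂ) ^ 2 * (z + μ / s ^ 2) ^ 2 / 2) + f z := ⟨_, rfl⟩
  have hsc : (s : ℂ) ≠ 0 := by exact_mod_cast hs0.ne'
  have hQ : ∀ z ∈ Metric.ball (0 : ℂ) ρ, Q F s (p - μ / s ^ 2) (p + z) = F p * cexp (Ψ z) := by
    intro z hz
    unfold Q
    rw [hF z hz, hΨ]
    simp only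
    rw [Complex.exp_add]
    have : p + z - (p - μ / s ^ 2) = z + μ / s ^ 2 := by ring
    rw [this]
    ring
  obtain ⟨h, hh⟩ : ∃ h : ℂ → ℂ, h = fun z => Ψ z + (s : ℂ) ^ 2 * (z - z0) ^ 2 / 2 := ⟨_, rfl⟩
  have hhd : ∀ z ∈ Metric.ball (0 : ℂ) ρ, HasDerivAt h ((s : ℂ) ^ 2 * (e z - e z0)) z := by
    intro z hz
    rw [hh, hΨ]
    have h1 : HasDerivAt (fun z : ℂ => -((s : ℂ) ^ 2 * (z + μ / s ^ 2) ^ 2 / 2))
        (-((s : ℂ) ^ 2 * (z + μ / s ^ 2))) z := by
      have h2 : HasDerivAt (fun z : ℂ => (z + μ / s ^ 2) ^ 2) (((2 : ℕ) : ℂ) * (z + μ / s ^ 2) ^ (2 - 1) * 1) z :=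
        ((hasDerivAt_id z).add_const _).pow 2
      have h3 := ((h2.const_mul ((s : ℂ) ^ 2)).div_const 2).neg
      refine h3.congr_deriv ?_
      push_cast
      ring
    have h4 : HasDerivAt (fun z : ℂ => (s : ℂ) ^ 2 * (z - z0) ^ 2 / 2) ((s : ℂ) ^ 2 * (z - z0)) z := by
      have h2 : HasDerivAt (fun z : ℂ => (z - z0) ^ 2) (((2 : ℕ) : ℂ) * (z - z0) ^ (2 - 1) * 1) z :=
        ((hasDerivAt_id z).sub_const _).pow 2
      have h3 := (h2.const_mul ((s : ℂ) ^ 2)).div_const 2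
      refine h3.congr_deriv ?_
      push_cast
      ring
    have h5 := (h1.add (hfd' z hz)).add h4
    refine h5.congr_deriv ?_
    rw [hfix, he]
    field_simp
    ring
  have hele : ∀ z ∈ Metric.ball (0 : ℂ) (ρ / 2), ‖e z - e z0‖ ≤ δ * ‖z - z0‖ := fun z hz =>
    (convex_ball (0 : ℂ) (ρ / 2)).norm_image_sub_le_of_norm_deriv_le
      (fun z hz => hed.differentiableAt (hopen z (hsubρ hz))) hder_e hz0m hz
  have hyρ : ∀ y : ℝ, |y| ≤ ρ / 5 → z0 + y ∈ Metric.ball (0 : ℂ) (ρ / 2) := by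
    intro y hy
    rw [mem_ball_zero_iff]
    have := norm_add_le z0 (y : ℂ)
    rw [Complex.norm_real, Real.norm_eq_abs] at this
    linarith
  have hr : ∀ y : ℝ, |y| ≤ ρ / 5 → ‖h (z0 + y) - h z0‖ ≤ δ * (s ^ 2 * y ^ 2) := by
    intro y hy
    have hconv : Convex ℝ (Metric.ball (0 : ℂ) (ρ / 2) ∩ Metric.closedBall z0 |y|) :=
      (convex_ball _ _).inter (convex_closedBall _ _)
    have h1 := hconv.norm_image_sub_le_of_norm_hasDerivWithin_le (f := h) (C := s ^ 2 * (δ * |y|))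
      (fun z hz => (hhd z (hsubρ hz.1)).hasDerivWithinAt) (fun z hz => by
        rw [norm_mul, norm_pow, Complex.norm_real, Real.norm_eq_abs, abs_of_pos hs0]
        refine mul_le_mul_of_nonneg_left ((hele z hz.1).trans ?_) (by positivity)
        have := hz.2
        rw [mem_closedBall_iff_norm] at this
        gcongr)
      (x := z0) (y := z0 + y) ⟨hz0m, Metric.mem_closedBall_self (abs_nonneg _)⟩
      ⟨hyρ y hy, by rw [mem_closedBall_iff_norm, add_sub_cancel_left, Complex.norm_real, Real.norm_eq_abs]⟩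
    rw [add_sub_cancel_left, Complex.norm_real, Real.norm_eq_abs] at h1
    refine h1.trans (le_of_eq ?_)
    rw [← sq_abs y]
    ring
  have hQy : ∀ y : ℝ, |y| ≤ ρ / 5 → Q F s (p - μ / s ^ 2) (p + z0 + y) =
      Q F s (p - μ / s ^ 2) (p + z0) * cexp (((-(s ^ 2 * y ^ 2 / 2) : ℝ) : ℂ) + (h (z0 + y) - h z0)) := by
    intro y hy
    rw [add_assoc, hQ _ (hsubρ (hyρ y hy)), hQ _ (hsubρ hz0m), mul_assoc, ← Complex.exp_add]
    congr 2
    rw [hh]
    simp only
    push_cast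
    ring
  refine ⟨p + z0, by rwa [add_sub_cancel_left], fun y hy => ?_, ?_⟩
  · rw [hQy y hy, norm_mul, mul_comm]
    apply mul_le_mul_of_nonneg_right _ (norm_nonneg _)
    rw [Complex.norm_exp]
    apply Real.exp_le_exp.2
    rw [add_re, ofReal_re]
    have h1 := (Complex.re_le_norm _).trans (hr y hy)
    have h2 : 0 ≤ s ^ 2 * y ^ 2 := by positivity
    nlinarith
  · have hcongr : ∫ y in (-(ρ / 5) : ℝ)..(ρ / 5), Q F s (p - μ / s ^ 2) (p + z0 + y) =
        ∫ y in (-(ρ / 5) : ℝ)..(ρ / 5), Q F s (p - μ / s ^ 2) (p + z0) *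
          cexp (((-(s ^ 2 * y ^ 2 / 2) : ℝ) : ℂ) + (h (z0 + y) - h z0)) := by
      apply intervalIntegral.integral_congr
      intro y hy
      rw [uIcc_of_le (by linarith)] at hy
      exact hQy y (abs_le.2 hy)
    rw [hcongr, intervalIntegral.integral_const_mul, norm_mul, mul_comm]
    apply mul_le_mul_of_nonneg_left _ (norm_nonneg _)
    refine gauss_pert hs0 (b := ρ / 5) ?_ hδ0 hδ ?_ (fun y hy => hr y (abs_le.2 hy))
    · rw [div_le_iff₀ hρ] at hs5
      rw [div_le_iff₀ hs0]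
      linarith
    · intro y hy
      have h1 := (hhd _ (hsubρ (hyρ y (abs_le.2 hy)))).continuousAt
      have h2 : ContinuousAt (fun y : ℝ => z0 + (y : ℂ)) y := by fun_prop
      exact ((ContinuousAt.comp (f := fun y : ℝ => z0 + (y : ℂ)) h1 h2).sub continuousAt_const).continuousWithinAt

end Pool.Agent.Helper92.HF
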