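import Pool.Agent.Helper92.HF.Fam
import Pool.Agent.W816.HF.JU2
import Pool.Agent.W816.HF.JL2
import Pool.Agent.W320.HF.Rect
import Pool.Agent.W327.HF.Size
import Pool.Agent.W131.HF.Fwd2
import Pool.Agent.W169.HF.Maj

/-!
# Project HF: the size on the critical line and the heat flow (helper92)
-/

set_option autoImplicit false

open Complex Filter Topology Set
open scoped ComplexConjugate

namespace Pool.Agent.Helper92.HF

open H353.E H353.F Pool.Agent.W169.HF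

theorem rect_all : S_RECT := Pool.Agent.W320.HF.rect

theorem size_all : S_SIZE := Pool.Agent.W327.HF.size_of Pool.Agent.W351.HF.tc Pool.Agent.W565.HF.hup
  hlo_all inv_all rect_all

theorem fwd2_all : S_FWD2 := Pool.Agent.W131.HF.fwd2_of Pool.Agent.W816.HF.ju2
  (Pool.Agent.W816.HF.jl2_of sadl)

/-- the factor of the completed L-function -/
noncomputable def gam (n : ℕ) (A : ℝ) (s : ℂ) : ℂ :=
  (A : ℂ) ^ (s / 2) * ((2 * Real.pi : ℂ) ^ (-s) * Gamma s) ^ n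

lemma gaf_eq (n : ℕ) {A : ℝ} (hA : 1 ≤ A) (z : ℂ) :
    gaf A (mu n) z = (2 ^ n * (A : ℂ) ^ (-(1 / 4) : ℂ)) * gam n A (1 / 2 + z) := by
  have hAc : (A : ℂ) ≠ 0 := by
    have : A ≠ 0 := by linarith
    exact_mod_cast this
  unfold gaf gam
  rw [prod_gamma]
  have e : (A : ℂ) ^ (-(1 / 4) : ℂ) * (A : ℂ) ^ ((1 / 2 + z) / 2) = (A : ℂ) ^ (z / 2) := by
    rw [← cpow_add _ _ hAc]
    congr 1
    ring
  rw [← e, add_comm (1 / 2 : ℂ) z, mul_pow (2 : ℂ)]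
  ring

/-- the shift by one -/
lemma gam_shift (n : ℕ) {A : ℝ} (hA : 1 ≤ A) {s : ℂ} (hs : 0 < s.re) :
    gam n A (s + 1) = gam n A s * (((Real.sqrt A : ℝ) : ℂ) * (s / (2 * Real.pi)) ^ n) := by
  have hA0 : 0 < A := by linarith
  have hAc : (A : ℂ) ≠ 0 := by exact_mod_cast hA0.ne'
  have hs0 : s ≠ 0 := by
    rintro rfl
    simp at hs
  have hpi : (2 * Real.pi : ℂ) ≠ 0 := by
    have := Real.pi_pos
    exact_mod_cast (by positivity : (2 * Real.pi : ℝ) ≠ 0)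
  unfold gam
  have e1 : (A : ℂ) ^ ((s + 1) / 2) = (A : ℂ) ^ (s / 2) * ((Real.sqrt A : ℝ) : ℂ) := by
    have e2 : ((Real.sqrt A : ℝ) : ℂ) = (A : ℂ) ^ (1 / 2 : ℂ) := by
      rw [Real.sqrt_eq_rpow, Complex.ofReal_cpow hA0.le]
      push_cast
      rfl
    rw [e2, ← cpow_add _ _ hAc]
    congr 1
    ring
  have e3 : (2 * Real.pi : ℂ) ^ (-(s + 1)) = (2 * Real.pi : ℂ) ^ (-s) * (2 * Real.pi : ℂ)⁻¹ := by
    rw [neg_add, cpow_add _ _ hpi, cpow_neg_one]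
  rw [e1, e3, Complex.Gamma_add_one s hs0]
  have e4 : (2 * Real.pi : ℂ) ^ (-s) * (2 * Real.pi : ℂ)⁻¹ * (s * Gamma s) =
      ((2 * Real.pi : ℂ) ^ (-s) * Gamma s) * (s / (2 * Real.pi)) := by
    rw [div_eq_mul_inv]
    ring
  rw [e4, mul_pow]
  ring

lemma gaf_shift (n : ℕ) {A : ℝ} (hA : 1 ≤ A) {z : ℂ} (hz : 0 ≤ z.re) :
    gaf A (mu n) (z + 1) = gaf A (mu n) z * (((Real.sqrt A : ℝ) : ℂ) * ((1 / 2 + z) / (2 * Real.pi)) ^ n) := by
  rw [gaf_eq n hA, gaf_eq n hA, ← add_assoc, gam_shift n hA (s := 1 / 2 + z) (by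
    have : (1 / 2 + z : ℂ).re = 1 / 2 + z.re := by simp
    rw [this]; linarith)]
  ring

lemma exp_half_log {n : ℕ} {A : ℝ} (hA : 1 ≤ A) (y : ℝ) :
    Real.exp (1 / 2 * Real.log (cond n A y)) = Real.sqrt A * (1 + |y|) ^ n := by
  have hA0 : 0 < A := by linarith
  have hc := cond_pos (n := n) hA y
  have e : Real.exp (1 / 2 * Real.log (cond n A y)) = Real.sqrt (cond n A y) := by
    rw [Real.sqrt_eq_rpow, Real.rpow_def_of_pos hc]
    congr 1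
    ring
  rw [e]
  unfold cond
  have e2 : A * (1 + |y|) ^ (2 * n) = A * ((1 + |y|) ^ n) ^ 2 := by
    rw [← pow_mul]
    congr 2
    ring
  rw [e2, Real.sqrt_mul hA0.le, Real.sqrt_sq (by positivity)]

/-- the norm of the linear factor -/
lemma lin_up (y : ℝ) (u : ℂ) : ‖(1 + y * I + u : ℂ)‖ ≤ (1 + |y|) * (1 + ‖u‖) := by
  have h1 : ‖(1 + y * I + u : ℂ)‖ ≤ 1 + |y| + ‖u‖ := by
    refine (norm_add_le _ _).trans ?_
    have := norm_add_le (1 : ℂ) (y * I)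
    rw [norm_one, norm_mul, Complex.norm_I, Complex.norm_real, Real.norm_eq_abs, mul_one] at this
    linarith
  have := abs_nonneg y
  have := norm_nonneg u
  nlinarith

lemma lin_lo (y : ℝ) {u : ℂ} (hu : 0 ≤ u.re) : 1 + |y| ≤ (2 + ‖u‖) * ‖(1 + y * I + u : ℂ)‖ := by
  obtain ⟨w, hw⟩ : ∃ w : ℂ, w = 1 + y * I + u := ⟨_, rfl⟩
  rw [← hw]
  have h1 : 1 ≤ ‖w‖ := by
    have h2 := Complex.re_le_norm w
    have h3 : w.re = 1 + u.re := by rw [hw]; simp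
    linarith
  have h2 : |y| ≤ ‖w‖ + ‖u‖ := by
    have h3 : y = w.im - u.im := by rw [hw]; simp
    have h4 := abs_sub w.im u.im
    have h5 := Complex.abs_im_le_norm w
    have h6 := Complex.abs_im_le_norm u
    rw [← h3] at h4
    linarith
  have := norm_nonneg u
  nlinarith

lemma pow_le_exp {c r : ℝ} (hc : 0 ≤ c) (hr : 0 ≤ r) (n : ℕ) :
    (c + r) ^ n ≤ Real.exp (n * (c + 1) * (1 + r ^ 2)) := by
  have h1 : c + r ≤ Real.exp (c + r) := by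
    have := Real.add_one_le_exp (c + r)
    linarith
  have h2 : (c + r) ^ n ≤ Real.exp (c + r) ^ n := pow_le_pow_left₀ (by positivity) h1 n
  rw [← Real.exp_nat_mul] at h2
  refine h2.trans (Real.exp_le_exp.2 ?_)
  rw [mul_assoc]
  apply mul_le_mul_of_nonneg_left _ (Nat.cast_nonneg n)
  nlinarith [sq_nonneg (r - 1), sq_nonneg r]

section
variable {n : ℕ} {A : ℝ}

/-- the bounds for the gamma factor in the right half of the strip -/
theorem gam_bounds (hn : 1 ≤ n) (hA : 1 ≤ A) (y : ℝ) {u : ℂ} (hu : 0 ≤ u.re) :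
    gaf A (mu n) (1 / 2 + y * I + u) ≠ 0 ∧
    ‖(gaf A (mu n) (1 / 2 + y * I + u))⁻¹‖ ≤
      (‖gaf A (mu n) (3 / 2 + y * I)‖ * Real.exp (-(1 / 2 * Real.log (cond n A y))))⁻¹ *
        Real.exp (-(1 / 2 * Real.log (cond n A y) * u.re) + (600 * n) * (1 + ‖u‖ ^ 2)) ∧
    ‖gaf A (mu n) (1 / 2 + y * I + u)‖ ≤
      (‖gaf A (mu n) (3 / 2 + y * I)‖ * Real.exp (-(1 / 2 * Real.log (cond n A y)))) *
        Real.exp (1 / 2 * Real.log (cond n A y) * u.re + (600 * n) * (1 + ‖u‖ ^ 2)) := by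
  have hn' : (1 : ℝ) ≤ n := by exact_mod_cast hn
  obtain ⟨ℓ, hℓ⟩ : ∃ ℓ : ℝ, ℓ = 1 / 2 * Real.log (cond n A y) := ⟨_, rfl⟩
  have hexpℓ : Real.exp ℓ = Real.sqrt A * (1 + |y|) ^ n := by rw [hℓ]; exact exp_half_log hA y
  rw [← hℓ]
  have hm : 1 ≤ n + n := by omega
  have gp := gaf_GP hm hA (mu_re n)
  have hD := D_close hm hA (mu_re n) (K0 := n) (ℓ := ℓ) (y := y) (by rw [hℓ]; exact log_cnd hA y)
  have hC1 : (0 : ℝ) ≤ n + 13 * ((n + n : ℕ) : ℝ) := by positivity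
  obtain ⟨g1, g2⟩ := gam_two gp hC1 hD (u := u + 1) (by
    have : (u + 1 : ℂ).re = u.re + 1 := by simp
    rw [this]; linarith)
  have hre1 : (u + 1 : ℂ).re - 1 = u.re := by simp
  rw [hre1] at g1 g2
  have hz0 : 0 ≤ (1 / 2 + y * I + u : ℂ).re := by
    have : (1 / 2 + y * I + u : ℂ).re = 1 / 2 + u.re := by simp
    rw [this]; linarith
  have hsh := gaf_shift n hA hz0
  have e1 : (1 / 2 + y * I + u + 1 : ℂ) = 1 / 2 + y * I + (u + 1) := by ring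
  have e2 : (1 / 2 + (1 / 2 + y * I + u) : ℂ) = 1 + y * I + u := by ring
  rw [e1, e2] at hsh
  obtain ⟨w, hw⟩ : ∃ w : ℂ, w = 1 + y * I + u := ⟨_, rfl⟩
  have hup := lin_up y u
  have hlo := lin_lo y hu
  rw [← hw] at hsh hup hlo
  obtain ⟨γ0, hγ0⟩ : ∃ γ0 : ℂ, γ0 = gaf A (mu n) (1 / 2 + y * I + u) := ⟨_, rfl⟩
  obtain ⟨γ1, hγ1⟩ : ∃ γ1 : ℂ, γ1 = gaf A (mu n) (1 / 2 + y * I + (u + 1)) := ⟨_, rfl⟩
  obtain ⟨γ3, hγ3⟩ : ∃ γ3 : ℂ, γ3 = gaf A (mu n) (3 / 2 + y * I) := ⟨_, rfl⟩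
  rw [← hγ0, ← hγ1] at hsh
  rw [← hγ1, ← hγ3] at g1 g2
  rw [← hγ0, ← hγ3]
  have hγ3n : 0 < ‖γ3‖ := by
    rw [hγ3]
    exact norm_pos_iff.2 (gp.ne _ (by simp; norm_num))
  have hγ1n : 0 < ‖γ1‖ := by
    by_contra hcon
    have h0 : ‖γ1‖ = 0 := le_antisymm (not_lt.1 hcon) (norm_nonneg _)
    rw [h0, zero_mul] at g2
    linarith
  have hγ0' : γ0 ≠ 0 := by
    rintro h
    rw [h, zero_mul] at hsh
    rw [hsh, norm_zero] at hγ1n
    exact lt_irrefl _ hγ1n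
  have hγ0n : 0 < ‖γ0‖ := norm_pos_iff.2 hγ0'
  have hpi3 : (3 : ℝ) < Real.pi := Real.pi_gt_three
  have hpi4 : Real.pi ≤ 4 := Real.pi_le_four
  have hsA : 0 < Real.sqrt A := Real.sqrt_pos.2 (by linarith)
  have hwn : 0 < ‖w‖ := by
    by_contra hcon
    have h0 : ‖w‖ = 0 := le_antisymm (not_lt.1 hcon) (norm_nonneg _)
    rw [h0, mul_zero] at hlo
    linarith [abs_nonneg y]
  have hnorm : ‖γ1‖ = ‖γ0‖ * (Real.sqrt A * (‖w‖ / (2 * Real.pi)) ^ n) := by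
    rw [hsh, norm_mul, norm_mul, norm_pow, norm_div, Complex.norm_real, Real.norm_eq_abs,
      abs_of_pos hsA]
    congr 3
    rw [norm_mul, Complex.norm_real, Real.norm_eq_abs, abs_of_pos Real.pi_pos]
    norm_num
  -- the linear factor in terms of exp ℓ
  have hU := norm_nonneg u
  have k1 : Real.sqrt A * (‖w‖ / (2 * Real.pi)) ^ n ≤ Real.exp ℓ * (1 + ‖u‖) ^ n := by
    rw [hexpℓ, mul_assoc, ← mul_pow]
    apply mul_le_mul_of_nonneg_left _ hsA.le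
    apply pow_le_pow_left₀ (by positivity)
    rw [div_le_iff₀ (by positivity)]
    have : 0 ≤ (1 + |y|) * (1 + ‖u‖) := by positivity
    nlinarith
  have k2 : Real.exp ℓ ≤ (16 + 8 * ‖u‖) ^ n * (Real.sqrt A * (‖w‖ / (2 * Real.pi)) ^ n) := by
    rw [hexpℓ, mul_left_comm, ← mul_pow]
    apply mul_le_mul_of_nonneg_left _ hsA.le
    apply pow_le_pow_left₀ (by positivity)
    rw [mul_div_assoc', le_div_iff₀ (by positivity)]
    have h1 : (1 + |y|) * (2 * Real.pi) ≤ (1 + |y|) * 8 :=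
      mul_le_mul_of_nonneg_left (by linarith) (by positivity)
    nlinarith
  have hu1 : 1 + ‖u + 1‖ ^ 2 ≤ 3 * (1 + ‖u‖ ^ 2) := by
    have h1 : ‖u + 1‖ ≤ ‖u‖ + 1 := by
      have := norm_add_le u 1
      rwa [norm_one] at this
    have h2 : ‖u + 1‖ ^ 2 ≤ (‖u‖ + 1) ^ 2 := pow_le_pow_left₀ (norm_nonneg _) h1 2
    nlinarith [sq_nonneg (‖u‖ - 1)]
  have hconst : 2 * (n + 13 * ((n + n : ℕ) : ℝ) + 6 * ((n + n : ℕ) : ℝ)) * (1 + ‖u + 1‖ ^ 2) ≤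
      (234 * n) * (1 + ‖u‖ ^ 2) := by
    push_cast
    have h1 : 2 * ((n : ℝ) + 13 * (n + n) + 6 * (n + n)) = 78 * n := by ring
    rw [h1]
    calc 78 * (n : ℝ) * (1 + ‖u + 1‖ ^ 2) ≤ 78 * n * (3 * (1 + ‖u‖ ^ 2)) :=
          mul_le_mul_of_nonneg_left hu1 (by positivity)
      _ = _ := by ring
  have p1 : (1 + ‖u‖) ^ n ≤ Real.exp ((2 * n) * (1 + ‖u‖ ^ 2)) := by
    refine (pow_le_exp zero_le_one hU n).trans (le_of_eq ?_)
    congr 1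
    ring
  have p2 : (16 + 8 * ‖u‖) ^ n ≤ Real.exp ((320 * n) * (1 + ‖u‖ ^ 2)) := by
    have h1 : 16 + 8 * ‖u‖ ≤ Real.exp (16 + 8 * ‖u‖) := by
      have := Real.add_one_le_exp (16 + 8 * ‖u‖)
      linarith
    have h2 : (16 + 8 * ‖u‖) ^ n ≤ Real.exp (16 + 8 * ‖u‖) ^ n := pow_le_pow_left₀ (by positivity) h1 n
    rw [← Real.exp_nat_mul] at h2
    refine h2.trans (Real.exp_le_exp.2 ?_)
    have h3 : 16 + 8 * ‖u‖ ≤ 320 * (1 + ‖u‖ ^ 2) := by nlinarith [sq_nonneg (‖u‖ - 1), sq_nonneg ‖u‖]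
    calc (n : ℝ) * (16 + 8 * ‖u‖) ≤ n * (320 * (1 + ‖u‖ ^ 2)) :=
          mul_le_mul_of_nonneg_left h3 (by linarith)
      _ = _ := by ring
  refine ⟨hγ0', ?_, ?_⟩
  · rw [norm_inv, mul_inv, ← Real.exp_neg, neg_neg]
    rw [inv_le_iff_one_le_mul₀ hγ0n]
    have h1 : ‖γ3‖ ≤ ‖γ0‖ * (Real.exp ℓ * (1 + ‖u‖) ^ n) * Real.exp (-(ℓ * u.re) + (234 * n) * (1 + ‖u‖ ^ 2)) := by
      refine g2.trans ?_
      rw [hnorm]
      apply mul_le_mul (mul_le_mul_of_nonneg_left k1 hγ0n.le) _ (Real.exp_pos _).le (by positivity)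
      exact Real.exp_le_exp.2 (by linarith)
    have h2 : ‖γ3‖ ≤ ‖γ0‖ * (Real.exp ℓ * Real.exp (-(ℓ * u.re) + (600 * n) * (1 + ‖u‖ ^ 2))) := by
      refine h1.trans ?_
      rw [mul_assoc, mul_assoc]
      apply mul_le_mul_of_nonneg_left _ hγ0n.le
      apply mul_le_mul_of_nonneg_left _ (Real.exp_pos _).le
      calc (1 + ‖u‖) ^ n * Real.exp (-(ℓ * u.re) + (234 * n) * (1 + ‖u‖ ^ 2)) ≤
            Real.exp ((2 * n) * (1 + ‖u‖ ^ 2)) * Real.exp (-(ℓ * u.re) + (234 * n) * (1 + ‖u‖ ^ 2)) :=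
            mul_le_mul_of_nonneg_right p1 (Real.exp_pos _).le
        _ ≤ _ := by
            rw [← Real.exp_add]
            apply Real.exp_le_exp.2
            have : 0 ≤ (n : ℝ) * (1 + ‖u‖ ^ 2) := by positivity
            nlinarith
    calc (1 : ℝ) = ‖γ3‖⁻¹ * ‖γ3‖ := (inv_mul_cancel₀ hγ3n.ne').symm
      _ ≤ ‖γ3‖⁻¹ * (‖γ0‖ * (Real.exp ℓ * Real.exp (-(ℓ * u.re) + (600 * n) * (1 + ‖u‖ ^ 2)))) :=
          mul_le_mul_of_nonneg_left h2 (by positivity)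
      _ = _ := by ring
  · have h1 : ‖γ0‖ * Real.exp ℓ ≤ (16 + 8 * ‖u‖) ^ n * ‖γ1‖ := by
      rw [hnorm]
      calc ‖γ0‖ * Real.exp ℓ ≤ ‖γ0‖ * ((16 + 8 * ‖u‖) ^ n * (Real.sqrt A * (‖w‖ / (2 * Real.pi)) ^ n)) :=
            mul_le_mul_of_nonneg_left k2 hγ0n.le
        _ = _ := by ring
    have h2 : ‖γ0‖ * Real.exp ℓ ≤ ‖γ3‖ * Real.exp (ℓ * u.re + (600 * n) * (1 + ‖u‖ ^ 2)) := by
      refine h1.trans ?_
      calc (16 + 8 * ‖u‖) ^ n * ‖γ1‖ ≤ Real.exp ((320 * n) * (1 + ‖u‖ ^ 2)) *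
            (‖γ3‖ * Real.exp (ℓ * u.re + (234 * n) * (1 + ‖u‖ ^ 2))) := by
            apply mul_le_mul p2 _ (norm_nonneg _) (Real.exp_pos _).le
            refine g1.trans ?_
            apply mul_le_mul_of_nonneg_left _ (norm_nonneg _)
            exact Real.exp_le_exp.2 (by linarith)
        _ = ‖γ3‖ * Real.exp ((320 * n) * (1 + ‖u‖ ^ 2) + (ℓ * u.re + (234 * n) * (1 + ‖u‖ ^ 2))) := by
            rw [Real.exp_add ((320 * n) * (1 + ‖u‖ ^ 2))]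
            ring
        _ ≤ _ := by
            apply mul_le_mul_of_nonneg_left _ (norm_nonneg _)
            apply Real.exp_le_exp.2
            have : 0 ≤ (n : ℝ) * (1 + ‖u‖ ^ 2) := by positivity
            nlinarith
    calc ‖γ0‖ = ‖γ0‖ * Real.exp ℓ * Real.exp (-ℓ) := by
          rw [mul_assoc, ← Real.exp_add]; simp
      _ ≤ ‖γ3‖ * Real.exp (ℓ * u.re + (600 * n) * (1 + ‖u‖ ^ 2)) * Real.exp (-ℓ) :=
          mul_le_mul_of_nonneg_right h2 (Real.exp_pos _).le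
      _ = _ := by ring

end

end Pool.Agent.Helper92.HF
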