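import Pool.Agent.Helper92.HF.Sc

/-!
# Project HF: the size on the critical line and the heat flow, second part (helper92)
-/

set_option autoImplicit false

open Complex Filter Topology Set
open scoped ComplexConjugate

namespace Pool.Agent.Helper92.HF

open H353.E H353.F Pool.Agent.W169.HF

lemma two_half_log {n : ℕ} {A : ℝ} (t y : ℝ) :
    2 * t * (1 / 2 * Real.log (cond n A y)) = t * Real.log (cond n A y) := by ring

/-- the constant is not zero -/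
lemma xx_norm (n : ℕ) {A : ℝ} (hA : 1 ≤ A) (Λ : ℂ → ℂ) (z : ℂ) {B : ℝ} :
    ‖XX A (LN n A Λ) z‖ ≤ B * ‖gaf A (mu n) z‖ ↔ ‖Λ (1 / 2 + z)‖ ≤ B * ‖gam n A (1 / 2 + z)‖ := by
  obtain ⟨c, hc0⟩ : ∃ c : ℂ, c = 2 ^ n * (A : ℂ) ^ (-(1 / 4) : ℂ) := ⟨_, rfl⟩
  have hc : 0 < ‖c‖ := by rw [hc0]; exact norm_pos_iff.2 (cst_ne n hA)
  rw [xx_ln n hA, gaf_eq n hA, ← hc0, norm_mul, norm_mul]
  constructor
  · intro h
    refine le_of_mul_le_mul_left ?_ hc
    calc _ ≤ _ := h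
      _ = _ := by ring
  · intro h
    calc _ ≤ ‖c‖ * (B * ‖gam n A (1 / 2 + z)‖) := mul_le_mul_of_nonneg_left h hc.le
      _ = _ := by ring

theorem size_comp {n : ℕ} (hn : 1 ≤ n) {g κ : ℝ} (hg : 0 < g) (hκ : 0 < κ) :
    ∃ R C0 : ℝ, ∀ (A : ℝ) (Λ : ℂ → ℂ), IsC n A Λ → ∀ y t : ℝ, C0 ≤ cond n A y → 0 < t →
      g ≤ t * Real.log (cond n A y) → t * Real.log (cond n A y) ≤ 2 →
      (∀ s : ℂ, heat t Λ s = 0 → |s.im - y| ≤ R → s.re = 1) →
      ‖Λ (1 + y * I)‖ ≤ (cond n A y) ^ (t * Real.log (cond n A y) / 4 + κ) * ‖gam n A (1 + y * I)‖ := by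
  have hn' : (1 : ℝ) ≤ n := by exact_mod_cast hn
  have hm : 1 ≤ n + n := by omega
  have hm' : (1 : ℝ) ≤ ((n + n : ℕ) : ℝ) := by exact_mod_cast hm
  obtain ⟨c, hc⟩ : ∃ c : ℝ, c = n + 13 * ((n + n : ℕ) : ℝ) := ⟨_, rfl⟩
  have hc0 : 0 < c := by rw [hc]; linarith
  have hBB : 1 ≤ BB (n + n) (EB2 n) := by
    unfold BB
    have h1 : 1 ≤ Real.exp ((6 * ((n + n : ℕ) : ℝ)) ^ 2 / 4 + 64) := Real.one_le_exp (by positivity)
    have h2 := one_le_EB2 n 1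
    nlinarith
  have hC : (1 : ℝ) ≤ 6 * ((n + n : ℕ) : ℝ) := by linarith
  have hKU := one_le_KU (C := 6 * ((n + n : ℕ) : ℝ)) (B := BB (n + n) (EB2 n)) (C1 := c) hC hBB hc0.le
  obtain ⟨R, ℓ1, H⟩ := size_all (KU (6 * ((n + n : ℕ) : ℝ)) (BB (n + n) (EB2 n)) c) (3 / 2) g 2 κ hKU (by norm_num)
    (by norm_num) hg (by norm_num) hκ
  refine ⟨R, Real.exp (max (2 * ℓ1) (1200 * n / κ)), ?_⟩
  intro A Λ h y t hC0 ht h1 h2 hline
  have hA := h.one_le
  obtain ⟨E, w, hd⟩ := h.dat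
  have hcp := cond_pos (n := n) hA y
  obtain ⟨L, hL⟩ : ∃ L : ℝ, L = Real.log (cond n A y) := ⟨_, rfl⟩
  have hLge : max (2 * ℓ1) (1200 * n / κ) ≤ L := by
    have := Real.log_le_log (Real.exp_pos _) hC0
    rwa [Real.log_exp, ← hL] at this
  have hL1 : 2 * ℓ1 ≤ L := (le_max_left _ _).trans hLge
  have hL2 : 1200 * n / κ ≤ L := (le_max_right _ _).trans hLge
  rw [div_le_iff₀ hκ] at hL2
  have hL0 : 0 ≤ L := by
    have : 0 ≤ 1200 * (n : ℝ) / κ := by positivity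
    exact this.trans ((le_max_right _ _).trans hLge)
  rw [← hL] at h1 h2 ⊢
  obtain ⟨S, hslow, hfe, hzer, hne⟩ := sharpE (by omega) (one_le_EB1 n) (one_le_EB2 n 1) hd
  have hD := D_close (by omega) hA (mu_re n) (K0 := n) (ℓ := 1 / 2 * L) (y := y) (by
    rw [hL]; exact log_cnd hA y)
  rw [← hc] at hD
  have hud := ud_of_sharp S hslow (by norm_num) (by norm_num) hc0.le y (1 / 2 * L) hD
  have e32 : (2 : ℝ) - 1 / 2 = 3 / 2 := by norm_num
  rw [e32] at hud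
  have key := H (1 / 2 * L) _ t _ (by linarith) hud ht (by linarith) (by linarith) (fun u hu hur h0 => by
    rw [heat_shift t (XX A (LN n A Λ)) (1 / 2 + y * I) _, heat_xx n hA] at h0
    have h5 := hline _ h0 (by
      have : (1 / 2 + (1 / 2 + y * I + u) : ℂ).im - y = u.im := by simp
      rw [this]
      exact hur)
    have h6 : (1 / 2 + (1 / 2 + y * I + u) : ℂ).re = 1 + u.re := by simp; ring
    rw [h6] at h5
    linarith)
  obtain ⟨-, gb, -⟩ := gam_bounds hn hA y (u := 0) (by simp)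
  rw [← hL] at gb
  simp only [norm_zero, zero_re, mul_zero, neg_zero, zero_add, add_zero] at gb key
  obtain ⟨G, hG⟩ : ∃ G : ℝ, G = ‖gaf A (mu n) (3 / 2 + y * I)‖ * Real.exp (-(1 / 2 * L)) := ⟨_, rfl⟩
  have hG0 : 0 < G := by rw [hG]; exact hud.hG
  rw [← hG] at gb key
  have hγ : gaf A (mu n) (1 / 2 + y * I) ≠ 0 := by
    have := (gam_bounds hn hA y (u := 0) (by simp)).1
    simpa using this
  have hγn : 0 < ‖gaf A (mu n) (1 / 2 + y * I)‖ := norm_pos_iff.2 hγ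
  have hGle : G ≤ ‖gaf A (mu n) (1 / 2 + y * I)‖ * Real.exp (600 * n) := by
    rw [norm_inv] at gb
    have h7 : ‖gaf A (mu n) (1 / 2 + y * I)‖⁻¹ * (G * ‖gaf A (mu n) (1 / 2 + y * I)‖) ≤
        G⁻¹ * Real.exp (600 * n * (1 + 0 ^ 2)) * (G * ‖gaf A (mu n) (1 / 2 + y * I)‖) :=
      mul_le_mul_of_nonneg_right gb (by positivity)
    have e1 : ‖gaf A (mu n) (1 / 2 + y * I)‖⁻¹ * (G * ‖gaf A (mu n) (1 / 2 + y * I)‖) = G := by
      rw [mul_left_comm, inv_mul_cancel₀ hγn.ne', mul_one]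
    have e2 : G⁻¹ * Real.exp (600 * n * (1 + 0 ^ 2)) * (G * ‖gaf A (mu n) (1 / 2 + y * I)‖) =
        ‖gaf A (mu n) (1 / 2 + y * I)‖ * Real.exp (600 * n) := by
      have : (600 * n * (1 + 0 ^ 2) : ℝ) = 600 * n := by ring
      rw [this]
      calc G⁻¹ * Real.exp (600 * n) * (G * ‖gaf A (mu n) (1 / 2 + y * I)‖) =
            (G⁻¹ * G) * (‖gaf A (mu n) (1 / 2 + y * I)‖ * Real.exp (600 * n)) := by ring
        _ = _ := by rw [inv_mul_cancel₀ hG0.ne', one_mul]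
    rwa [e1, e2] at h7
  have e3 : (1 + y * I : ℂ) = 1 / 2 + (1 / 2 + y * I) := by ring
  rw [e3, ← xx_norm n hA]
  refine key.trans ?_
  calc G * Real.exp (t * (1 / 2 * L) ^ 2 + κ * (1 / 2 * L))
      ≤ (‖gaf A (mu n) (1 / 2 + y * I)‖ * Real.exp (600 * n)) *
        Real.exp (t * (1 / 2 * L) ^ 2 + κ * (1 / 2 * L)) := mul_le_mul_of_nonneg_right hGle (Real.exp_pos _).le
    _ = Real.exp (600 * n + (t * (1 / 2 * L) ^ 2 + κ * (1 / 2 * L))) *
        ‖gaf A (mu n) (1 / 2 + y * I)‖ := by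
        rw [Real.exp_add (600 * n)]
        ring
    _ ≤ _ := by
        apply mul_le_mul_of_nonneg_right _ (norm_nonneg _)
        rw [Real.rpow_def_of_pos hcp, ← hL]
        apply Real.exp_le_exp.2
        nlinarith

lemma inv_gaf_diff (n : ℕ) {A : ℝ} (hA : 1 ≤ A) (c : ℂ) :
    Differentiable ℂ (fun u : ℂ => (gaf A (mu n) (c + u))⁻¹) := by
  have hA0 : 0 < A := by linarith
  have hAc : (A : ℂ) ≠ 0 := by exact_mod_cast hA0.ne'
  have hpi : (2 * Real.pi : ℂ) ≠ 0 := by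
    have := Real.pi_pos
    exact_mod_cast (by positivity : (2 * Real.pi : ℝ) ≠ 0)
  have e : (fun u : ℂ => (gaf A (mu n) (c + u))⁻¹) = fun u : ℂ => (A : ℂ) ^ (-((c + u) / 2)) *
      (2⁻¹ * ((2 * Real.pi : ℂ) ^ (c + u + 1 / 2) * (Gamma (c + u + 1 / 2))⁻¹)) ^ n := by
    funext u
    unfold gaf
    rw [prod_gamma, mul_inv, ← cpow_neg, ← inv_pow, mul_inv, mul_inv, ← cpow_neg, neg_neg]
  rw [e]
  have d1 : Differentiable ℂ (fun u : ℂ => (A : ℂ) ^ (-((c + u) / 2))) := fun u => by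
    have h1 : DifferentiableAt ℂ (fun u : ℂ => -((c + u) / 2)) u := by fun_prop
    exact h1.const_cpow (Or.inl hAc)
  have d2 : Differentiable ℂ (fun u : ℂ => (2 * Real.pi : ℂ) ^ (c + u + 1 / 2)) := fun u => by
    have h1 : DifferentiableAt ℂ (fun u : ℂ => c + u + 1 / 2) u := by fun_prop
    exact h1.const_cpow (Or.inl hpi)
  have d3 : Differentiable ℂ (fun u : ℂ => (Gamma (c + u + 1 / 2))⁻¹) :=
    Complex.differentiable_one_div_Gamma.comp (by fun_prop)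
  exact d1.mul (((d2.mul d3).const_mul _).pow n)

theorem fwd2_comp {n : ℕ} (hn : 1 ≤ n) {μ g : ℝ} (hμ : 0 ≤ μ) (hμ1 : μ ≤ 1 / 4) (hg : 0 < g) :
    ∃ R κ C0 t1 : ℝ, 0 < κ ∧ 0 < t1 ∧ ∀ (A : ℝ) (Λ : ℂ → ℂ), IsC n A Λ → ∀ y t : ℝ,
      C0 ≤ cond n A y → 0 < t → t ≤ t1 → 1 / (2 - 4 * μ) + g ≤ t * Real.log (cond n A y) →
      (∀ v : ℝ, |v| ≤ R → ‖Λ (1 + (y + v) * I)‖ ≤
        (cond n A y) ^ (μ + κ) * ‖gam n A (1 + (y + v) * I)‖) →
      ∀ s : ℂ, s.im = y → heat t Λ s = 0 → s.re = 1 := by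
  have hn' : (1 : ℝ) ≤ n := by exact_mod_cast hn
  have hm : 1 ≤ n + n := by omega
  have hm' : (1 : ℝ) ≤ ((n + n : ℕ) : ℝ) := by exact_mod_cast hm
  obtain ⟨c, hc⟩ : ∃ c : ℝ, c = n + 13 * ((n + n : ℕ) : ℝ) := ⟨_, rfl⟩
  have hc0 : 0 < c := by rw [hc]; linarith
  have hBB : 1 ≤ BB (n + n) (EB2 n) := by
    unfold BB
    have h1 : 1 ≤ Real.exp ((6 * ((n + n : ℕ) : ℝ)) ^ 2 / 4 + 64) := Real.one_le_exp (by positivity)
    have h2 := one_le_EB2 n 1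
    nlinarith
  have hC : (1 : ℝ) ≤ 6 * ((n + n : ℕ) : ℝ) := by linarith
  obtain ⟨K, hK⟩ : ∃ K : ℝ, K = KU (6 * ((n + n : ℕ) : ℝ)) (BB (n + n) (EB2 n)) c := ⟨_, rfl⟩
  have hK1 : 1 ≤ K := by rw [hK]; exact one_le_KU hC hBB hc0.le
  -- the parameters
  obtain ⟨g', hg'd⟩ : ∃ g' : ℝ, g' = min (g / 8) 1 := ⟨_, rfl⟩
  have hg' : 0 < g' := by rw [hg'd]; exact lt_min (by positivity) one_pos
  have hg'1 : g' ≤ 1 := by rw [hg'd]; exact min_le_right _ _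
  have hg'2 : g' ≤ g / 8 := by rw [hg'd]; exact min_le_left _ _
  obtain ⟨ρ, hρd⟩ : ∃ ρ : ℝ, ρ = g' / 2 := ⟨_, rfl⟩
  have hρ : 0 < ρ := by rw [hρd]; positivity
  have hρ1 : ρ ≤ 1 := by rw [hρd]; linarith
  obtain ⟨ϑ, hϑ⟩ : ∃ ϑ : ℝ, ϑ = 1 / 2 + ρ := ⟨_, rfl⟩
  obtain ⟨κF, RF, ℓF, hκF, HF⟩ := fwd2_all K (3 / 2) ϑ (2 * μ) g' 4 hK1 (by norm_num) (by norm_num)
    (by linarith) (by linarith) (by linarith) (by linarith) hg' hg'1 (by norm_num)
  obtain ⟨κM, RM, ρM, ℓM, hκM, hρM, hρM1, HM⟩ := maj rect_all (K := K) (K1 := 600 * n) (ϑ0 := 3 / 2)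
    (b := ϑ) (M0 := 2 * μ) (κ := κF) hK1 (by positivity) (by norm_num) (by norm_num) (by linarith)
    (by linarith) (by linarith) (by linarith) hκF (fun _ => 600 * n)
  obtain ⟨R1, ℓ1, -, H1⟩ := prof_all K (3 / 2) (1 / 2) ρ κF (max RF 1) hK1 (by norm_num) (by norm_num)
    (by norm_num) (by norm_num) hρ hρ1 hκF (le_max_right _ _)
  obtain ⟨R2, ℓ2, -, H2⟩ := prof_all K (3 / 2) (1 / 2) ρ κM (max RM 1) hK1 (by norm_num) (by norm_num)
    (by norm_num) (by norm_num) hρ hρ1 hκM (le_max_right _ _)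
  obtain ⟨t1, ℓ3, ht1, HL⟩ := local_of_sharp lap_all rep_all (6 * ((n + n : ℕ) : ℝ)) (BB (n + n) (EB2 n)) 2
    (fun K => 4 * Real.exp (2 * |K| + 10)) hC hBB (by norm_num) (by norm_num)
    (show (0 : ℝ) < 1 / 2 by norm_num)
  refine ⟨RM, κM / 2, Real.exp (2 * max (max ℓF ℓM) (max (max ℓ1 ℓ2) (ℓ3 + c))), min t1 (1 / (4 * c)),
    by positivity, lt_min ht1 (by positivity), ?_⟩
  intro A Λ h y t hC0 ht htt hx hsize s hs hz
  have hA := h.one_le
  obtain ⟨E, w, hd⟩ := h.dat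
  have hcp := cond_pos (n := n) hA y
  obtain ⟨ℓ, hℓ⟩ : ∃ ℓ : ℝ, ℓ = 1 / 2 * Real.log (cond n A y) := ⟨_, rfl⟩
  have hLL : Real.log (cond n A y) = 2 * ℓ := by rw [hℓ]; ring
  have hℓge : max (max ℓF ℓM) (max (max ℓ1 ℓ2) (ℓ3 + c)) ≤ ℓ := by
    have := Real.log_le_log (Real.exp_pos _) hC0
    rw [Real.log_exp, hLL] at this
    linarith
  have a1 : ℓF ≤ ℓ := (le_max_left _ _).trans ((le_max_left _ _).trans hℓge)
  have a2 : ℓM ≤ ℓ := (le_max_right _ _).trans ((le_max_left _ _).trans hℓge)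
  have a3 : ℓ1 ≤ ℓ := (le_max_left _ _).trans ((le_max_left _ _).trans ((le_max_right _ _).trans hℓge))
  have a4 : ℓ2 ≤ ℓ := (le_max_right _ _).trans ((le_max_left _ _).trans ((le_max_right _ _).trans hℓge))
  have a5 : ℓ3 + c ≤ ℓ := (le_max_right _ _).trans ((le_max_right _ _).trans hℓge)
  rw [hLL] at hx
  obtain ⟨S, hslow, hfe, hzer, hne⟩ := sharpE (by omega) (one_le_EB1 n) (one_le_EB2 n 1) hd
  have hD := D_close (by omega) hA (mu_re n) (K0 := n) (ℓ := ℓ) (y := y) (by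
    rw [hℓ]; exact log_cnd hA y)
  rw [← hc] at hD
  have hta : t ≤ t1 := htt.trans (min_le_left _ _)
  have htb : t ≤ 1 / (4 * c) := htt.trans (min_le_right _ _)
  rw [le_div_iff₀ (by positivity)] at htb
  have hDre : ℓ - c ≤ (gaD A (mu n) (3 / 2 + y * I)).re := by
    have h3 := (Complex.abs_re_le_norm _).trans hD
    rw [sub_re, ofReal_re] at h3
    linarith [(abs_le.1 h3).1]
  have hz' : heat t (XX A (LN n A Λ)) (s - 1 / 2) = 0 := by
    rw [heat_xx n hA, half_add_half]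
    exact hz
  have hs' : (s - 1 / 2 : ℂ).im = y := by rw [im_sub_half]; exact hs
  rcases le_or_gt (2 * t * ℓ) 4 with h4 | h4
  · have hud := ud_of_sharp S hslow (by norm_num) (by norm_num) hc0.le y ℓ hD
    have e32 : (2 : ℝ) - 1 / 2 = 3 / 2 := by norm_num
    rw [e32, ← hK] at hud
    obtain ⟨G, hG⟩ : ∃ G : ℝ, G = ‖gaf A (mu n) (3 / 2 + y * I)‖ * Real.exp (-ℓ) := ⟨_, rfl⟩
    have hG' := hG
    rw [hℓ] at hG'
    rw [← hG] at hud
    have hfree : ∀ u : ℂ, 1 / 2 < u.re → XX A (LN n A Λ) (1 / 2 + y * I + u) ≠ 0 := fun u hu h0 => by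
      have h6 := hzer _ h0
      have h7 : (1 / 2 + y * I + u : ℂ).re = 1 / 2 + u.re := by simp
      rw [h7] at h6
      linarith
    have hPF := H1 ℓ G (fun u : ℂ => XX A (LN n A Λ) (1 / 2 + y * I + u)) a3 hud (fun u hu _ => hfree u hu)
    have hPM := H2 ℓ G (fun u : ℂ => XX A (LN n A Λ) (1 / 2 + y * I + u)) a4 hud (fun u hu _ => hfree u hu)
    rw [← hϑ] at hPF hPM
    have mono : ∀ {κ R R' : ℝ}, Pf κ ϑ R ℓ G (fun u : ℂ => XX A (LN n A Λ) (1 / 2 + y * I + u)) → R' ≤ R →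
        Pf κ ϑ R' ℓ G (fun u : ℂ => XX A (LN n A Λ) (1 / 2 + y * I + u)) := fun hp hR =>
      { low := fun u h1 h2 h3 => hp.low u h1 (h2.trans hR) (h3.trans hR)
        upp := fun u h1 h2 => hp.upp u (h1.trans hR) (h2.trans hR)
        der := fun u h1 h2 h3 => hp.der u h1 (h2.trans hR) (h3.trans hR) }
    have hgb := fun (u : ℂ) (hu : 0 ≤ u.re) => gam_bounds hn hA y hu
    rw [← hℓ, ← hG] at hgb
    have hMj := HM ℓ G (fun u : ℂ => XX A (LN n A Λ) (1 / 2 + y * I + u))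
      (fun u : ℂ => XX A (LN n A Λ) (1 / 2 + y * I + u) * (gaf A (mu n) (1 / 2 + y * I + u))⁻¹)
      (fun u : ℂ => gaf A (mu n) (1 / 2 + y * I + u)) a2 hud (mono hPM (le_max_left _ _))
      (hud.slow.1.mul (inv_gaf_diff n hA _)) (fun u => rfl) (fun u hu => (hgb u hu).2.1)
      (fun u hu => ⟨(hgb u (by linarith)).1, (hgb u (by linarith)).2.2⟩) (fun v hv => by
        have h1 := hsize v hv
        have e1 : (1 + (y + v) * I : ℂ) = 1 / 2 + (1 / 2 + y * I + v * I) := by ring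
        rw [e1, ← xx_norm n hA] at h1
        have h2 := (hgb (v * I) (by simp)).1
        have h3 : 0 < ‖gaf A (mu n) (1 / 2 + y * I + v * I)‖ := norm_pos_iff.2 h2
        rw [norm_mul, norm_inv]
        rw [mul_inv_le_iff₀ h3]
        refine h1.trans (le_of_eq ?_)
        congr 1
        rw [Real.rpow_def_of_pos hcp, hLL]
        congr 1
        ring)
    by_contra hcon
    have hx2 := zeros_strip hslow ⟨w, hd.norm_eq, hfe⟩ hzer hne ht.le hz'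
    rw [re_sub_half] at hx2
    refine HF ℓ G t _ a1 hud (mono hPF (le_max_left _ _)) hMj ht ?_ h4 (s.re - 1) (fun h => hcon (by linarith)) ?_ ?_
    · have h5 : 0 < 2 - 4 * μ := by linarith
      have h6 : 1 / 2 + g / 2 ≤ (1 - 2 * μ) * (2 * t * ℓ) := by
        have h7 : (1 - 2 * μ) * (1 / (2 - 4 * μ) + g) ≤ (1 - 2 * μ) * (t * (2 * ℓ)) :=
          mul_le_mul_of_nonneg_left hx (by linarith)
        have h8 : (1 - 2 * μ) * (1 / (2 - 4 * μ) + g) = 1 / 2 + (1 - 2 * μ) * g := by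
          have h11 : 1 - 2 * μ ≠ 0 := by linarith
          have h12 : (1 - 2 * μ) * (1 / (2 - 4 * μ)) = 1 / 2 := by
            have h13 : 2 - 4 * μ = 2 * (1 - 2 * μ) := by ring
            rw [h13, one_div, mul_inv, mul_left_comm, mul_inv_cancel₀ h11]
            norm_num
          rw [mul_add, h12]
        have h9 : g / 2 ≤ (1 - 2 * μ) * g := by nlinarith
        linarith
      have h10 : 0 ≤ 2 * t * ℓ := by
        by_contra hcon2
        push Not at hcon2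
        nlinarith
      rw [hϑ]
      nlinarith
    · rw [abs_le] at hx2 ⊢
      constructor <;> linarith [hx2.1, hx2.2]
    · rw [heat_shift t (XX A (LN n A Λ)) (1 / 2 + y * I) _]
      have e2 : (1 / 2 + y * I + ((s.re - 1 : ℝ) : ℂ) : ℂ) = s - 1 / 2 := by
        have := half_line hs'
        rw [re_sub_half] at this
        rw [← this]
        push_cast
        ring
      rw [e2]
      exact hz'
  · have := HL (XX A (LN n A Λ)) (gaf A (mu n)) (gaD A (mu n)) S hslow t y ht hta (by linarith) (by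
      have h5 : 2 * t * (ℓ - c) ≤ 2 * t * (gaD A (mu n) (3 / 2 + y * I)).re :=
        mul_le_mul_of_nonneg_left hDre (by positivity)
      have h6 : 2 * t * (ℓ - c) = 2 * t * ℓ - t * (4 * c) / 2 := by ring
      linarith) (s - 1 / 2) hs' hz'
    rw [re_sub_half] at this
    linarith

end Pool.Agent.Helper92.HF
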