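import Pool.Agent.Helper92.HF.Mel

/-!
# Project HF: the completed L-functions of the quadratic twists (helper92)
-/

set_option autoImplicit false

open Complex Set MeasureTheory Filter Topology

namespace Pool.Agent.Helper92.HF

open Pool.Agent.Y19.QT (ap IsFormOf Fam TwistsModular)
open Pool.Agent.Y692.QN (AF summable_coef fac euler js_mul_left js_one_left js_sq js_pow_left js_pow_right decomp js_star)
open Pool.Agent.H306R2.RZ (js)
open Pool.Agent.Y705.QT (js_mul js_one js_abs_le)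

/-- a sequence with a functional equation for its theta series -/
lemma compl_of {b : ℕ → ℂ} (hb0 : b 0 = 0)
    (hsum : ∀ s : ℂ, 3 / 2 < s.re → Summable (fun n : ℕ => ‖b n * (n : ℂ) ^ (-s)‖)) {N : ℕ} (hN : 0 < N)
    {w : ℝ} (hw : w ^ 2 = 1)
    (hfe : ∀ z : ℂ, 0 < z.re → ∑' n : ℕ, b n * cexp (-(2 * Real.pi * n * (1 / z) / (Real.sqrt N : ℝ))) =
      w * z ^ 2 * ∑' n : ℕ, b n * cexp (-(2 * Real.pi * n * z / (Real.sqrt N : ℝ)))) :
    ∃ Λ : ℂ → ℂ, Differentiable ℂ Λ ∧ (∃ w : ℂ, (w = 1 ∨ w = -1) ∧ ∀ s, Λ s = w * Λ (2 - s)) ∧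
      (∀ σ₁ σ₂ : ℝ, ∃ M : ℝ, ∀ s : ℂ, σ₁ ≤ s.re → s.re ≤ σ₂ → ‖Λ s‖ ≤ M) ∧
      ∀ s : ℂ, 3 / 2 < s.re → Λ s = (N : ℂ) ^ (s / 2) * ((2 * Real.pi : ℂ) ^ (-s) * Gamma s) *
        ∑' n : ℕ, b n * (n : ℂ) ^ (-s) := by
  have hN0 : (0 : ℝ) < N := by exact_mod_cast hN
  have hR : 0 < Real.sqrt N := Real.sqrt_pos.2 hN0
  have hw1 : w = 1 ∨ w = -1 := mul_self_eq_one_iff.1 (by rw [← sq]; exact hw)
  have hw0 : (w : ℂ) ≠ 0 := by
    rcases hw1 with rfl | rfl <;> simp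
  obtain ⟨Λ, h1, h2, h3, h4⟩ := mel hb0 hsum hR hw0 (fun t ht => by
    have := hfe (t : ℂ) (by simpa using ht)
    exact this)
  refine ⟨Λ, h1, ⟨w, ?_, fun s => ?_⟩, h3, fun s hs => ?_⟩
  · rcases hw1 with rfl | rfl <;> simp
  · have h5 := h2 (2 - s)
    have e : 2 - (2 - s) = s := by ring
    rw [e] at h5
    exact h5
  · rw [h4 s hs]
    have hpi : (0 : ℝ) < 2 * Real.pi := by have := Real.pi_pos; positivity
    have e : ((Real.sqrt N / (2 * Real.pi) : ℝ) : ℂ) ^ s = (N : ℂ) ^ (s / 2) * (2 * Real.pi : ℂ) ^ (-s) := by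
      have e1 : ((Real.sqrt N / (2 * Real.pi) : ℝ) : ℂ) =
          ((Real.sqrt N : ℝ) : ℂ) * (((2 * Real.pi)⁻¹ : ℝ) : ℂ) := by
        rw [div_eq_mul_inv]; push_cast; ring
      rw [e1, Complex.mul_cpow_ofReal_nonneg hR.le (by positivity)]
      congr 1
      · have e3 : ((Real.sqrt N : ℝ) : ℂ) ≠ 0 := by exact_mod_cast hR.ne'
        have e4 : (N : ℂ) ≠ 0 := by exact_mod_cast hN.ne'
        rw [cpow_def_of_ne_zero e3, cpow_def_of_ne_zero e4, ← Complex.ofReal_log hR.le,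
          Real.log_sqrt hN0.le, ← Complex.ofReal_natCast, ← Complex.ofReal_log hN0.le]
        congr 1
        push_cast
        ring
      · rw [Complex.ofReal_inv, Complex.inv_cpow, Complex.cpow_neg]
        · push_cast; rfl
        · rw [Complex.arg_ofReal_of_nonneg hpi.le]; exact Real.pi_pos.ne
    rw [e]
    ring

section
variable {a b : ℤ} {N : ℕ} {f : ℕ → ℂ}

/-- the twisted coefficients -/
noncomputable def tw (f : ℕ → ℂ) (m n : ℕ) : ℂ := f n * js n m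

lemma js_norm_le (x : ℤ) (m : ℕ) : ‖((js x m : ℝ) : ℂ)‖ ≤ 1 := by
  rw [Complex.norm_real, Real.norm_eq_abs]
  exact js_abs_le x m

lemma tw_norm_le (f : ℕ → ℂ) (m n : ℕ) : ‖tw f m n‖ ≤ ‖f n‖ := by
  unfold tw
  rw [norm_mul]
  calc ‖f n‖ * ‖((js n m : ℝ) : ℂ)‖ ≤ ‖f n‖ * 1 :=
        mul_le_mul_of_nonneg_left (js_norm_le _ _) (norm_nonneg _)
    _ = _ := mul_one _

lemma tw_summable (hf : AF a b N f) (m : ℕ) {s : ℂ} (hs : 3 / 2 < s.re) :
    Summable (fun n : ℕ => ‖tw f m n * (n : ℂ) ^ (-s)‖) := by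
  refine Summable.of_nonneg_of_le (fun _ => norm_nonneg _) (fun n => ?_) (summable_coef hf hs)
  rw [norm_mul, norm_mul]
  exact mul_le_mul_of_nonneg_right (tw_norm_le f m n) (norm_nonneg _)

lemma tw_fe (hf : AF a b N f) {m : ℕ} (hm : Odd m) (hs : Squarefree m) (hc : m.Coprime N) {m' : ℕ}
    (hm' : Odd m') (hs' : Squarefree m') (hc' : m'.Coprime (N * m ^ 2)) :
    ∃ w : ℝ, w ^ 2 = 1 ∧ ∀ z : ℂ, 0 < z.re →
      ∑' n : ℕ, tw f m n * js n m' * cexp (-(2 * Real.pi * n * (1 / z) / (m' * Real.sqrt (N * m ^ 2 : ℕ) : ℝ))) =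
        w * z ^ 2 *
          ∑' n : ℕ, tw f m n * js n m' * cexp (-(2 * Real.pi * n * z / (m' * Real.sqrt (N * m ^ 2 : ℕ) : ℝ))) := by
  have hcm : m'.Coprime m := Nat.Coprime.coprime_dvd_right (Dvd.dvd.mul_left (dvd_pow_self m two_ne_zero) N) hc'
  have hcN : m'.Coprime N := Nat.Coprime.coprime_dvd_right (dvd_mul_right N _) hc'
  obtain ⟨w, hw, h⟩ := hf.fe (m * m') (hm.mul hm') ((Nat.squarefree_mul hcm.symm).2 ⟨hs, hs'⟩)
    (Nat.Coprime.mul_left hc hcN)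
  refine ⟨w, hw, fun z hz => ?_⟩
  have hz := h z hz
  have e1 : (((m * m' : ℕ) : ℝ) * Real.sqrt N) = (m' * Real.sqrt (N * m ^ 2 : ℕ) : ℝ) := by
    push_cast
    rw [Real.sqrt_mul (Nat.cast_nonneg N), Real.sqrt_sq (Nat.cast_nonneg m)]
    ring
  have e2 : ∀ n : ℕ, f n * ((js n (m * m') : ℝ) : ℂ) = tw f m n * ((js n m' : ℝ) : ℂ) := by
    intro n
    unfold tw js
    have hm0 : m ≠ 0 := hm.pos.ne'
    have hm0' : m' ≠ 0 := hm'.pos.ne'
    rw [jacobiSym.mul_right' _ hm0 hm0']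
    push_cast
    ring
  simp only [e1, e2] at hz
  exact hz

/-- the twist as an abstract coefficient sequence -/
theorem tw_af (hf : AF a b N f) {m : ℕ} (hm : Odd m) (hs : Squarefree m) (hc : m.Coprime N) :
    AF 0 0 (N * m ^ 2) (tw f m) ∧
    ∃ Λ : ℂ → ℂ, Differentiable ℂ Λ ∧ (∃ w : ℂ, (w = 1 ∨ w = -1) ∧ ∀ s, Λ s = w * Λ (2 - s)) ∧
      (∀ σ₁ σ₂ : ℝ, ∃ M : ℝ, ∀ s : ℂ, σ₁ ≤ s.re → s.re ≤ σ₂ → ‖Λ s‖ ≤ M) ∧
      ∀ s : ℂ, 3 / 2 < s.re → Λ s = ((N * m ^ 2 : ℕ) : ℂ) ^ (s / 2) * ((2 * Real.pi : ℂ) ^ (-s) * Gamma s) *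
        ∑' n : ℕ, tw f m n * (n : ℂ) ^ (-s) := by
  have hpos : 0 < N * m ^ 2 := Nat.mul_pos hf.pos (pow_pos hm.pos 2)
  have hzero : tw f m 0 = 0 := by unfold tw; rw [hf.zero, zero_mul]
  obtain ⟨w, hw, hfe⟩ := tw_fe hf hm hs hc (m' := 1) odd_one squarefree_one (Nat.coprime_one_left _)
  obtain ⟨Λ, h1, h2, h3, h4⟩ := compl_of hzero (fun s hs => tw_summable hf m hs) hpos hw (fun z hz => by
    have := hfe z hz
    simp only [Nat.cast_one, one_mul, js_one, Complex.ofReal_one, mul_one] at this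
    exact this)
  refine ⟨?_, Λ, h1, h2, h3, h4⟩
  have hjs : ∀ p : ℕ, p.Prime → p ∣ m → js p m = 0 := by
    intro p hp hpm
    unfold js
    have : jacobiSym (p : ℤ) m = 0 := by
      rw [jacobiSym.eq_zero_iff]
      refine ⟨hm.pos.ne', ?_⟩
      intro h
      have h2 : p ∣ Int.gcd (p : ℤ) m := by
        rw [Int.gcd_natCast_natCast]
        exact Nat.dvd_gcd dvd_rfl hpm
      rw [h] at h2
      exact hp.one_lt.ne' (Nat.dvd_one.1 h2)
    rw [this]
    simp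
  have hdvd : ∀ p : ℕ, p.Prime → ¬ p ∣ m → (p ∣ N * m ^ 2 ↔ p ∣ N) := by
    intro p hp hpm
    rw [hp.dvd_mul]
    constructor
    · rintro (h | h)
      · exact h
      · exact absurd (hp.dvd_of_dvd_pow h) hpm
    · exact Or.inl
  refine
    { pos := hpos
      zero := hzero
      one := ?_
      real := fun n => ?_
      mul := fun x y hxy => ?_
      pow := fun p j hp => ?_
      good := fun p hp hN => ?_
      bad := fun p hp hN => ?_
      fe := fun m' hm' hs' hc' => tw_fe hf hm hs hc hm' hs' hc'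
      ent := ?_
      points := fun p hp hpd => ?_ }
  · unfold tw
    rw [hf.one, one_mul]
    have := js_one_left m
    rw [Nat.cast_one, this]
    simp
  · unfold tw
    rw [Complex.mul_im, hf.real n]
    simp
  · unfold tw
    rw [hf.mul x y hxy, Nat.cast_mul, js_mul_left]
    push_cast
    ring
  · unfold tw
    rw [hf.pow p j hp]
    simp only [Nat.cast_pow, js_pow_left]
    by_cases hpm : p ∣ m
    · rw [hjs p hp hpm, if_pos (Dvd.dvd.mul_left (dvd_pow hpm two_ne_zero) N)]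
      simp
    · simp only [hdvd p hp hpm]
      have hsq : js p m ^ 2 = 1 := by
        apply js_sq
        rw [Int.gcd_natCast_natCast]
        exact (Nat.Prime.coprime_iff_not_dvd hp).2 hpm
      have hsqc : ((js p m : ℝ) : ℂ) ^ 2 = 1 := by exact_mod_cast hsq
      split_ifs
      · push_cast
        ring
      · push_cast
        linear_combination (-(p : ℂ) * f (p ^ j) * ((js p m : ℝ) : ℂ) ^ j) * hsqc
  · have h5 : ¬ p ∣ N := fun h => hN (Dvd.dvd.mul_right h _)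
    exact (tw_norm_le f m p).trans (hf.good p hp h5)
  · by_cases hpm : p ∣ m
    · unfold tw
      rw [hjs p hp hpm]
      simp
    · rw [hdvd p hp hpm] at hN
      exact (tw_norm_le f m p).trans (hf.bad p hp hN)
  · have hpi : (0 : ℝ) < 2 * Real.pi := by have := Real.pi_pos; positivity
    have hpic : (2 * Real.pi : ℂ) ≠ 0 := by exact_mod_cast hpi.ne'
    have hNc : ((N * m ^ 2 : ℕ) : ℂ) ≠ 0 := by exact_mod_cast hpos.ne'
    refine ⟨fun s => Λ s * (((N * m ^ 2 : ℕ) : ℂ) ^ (-(s / 2)) * (2 * Real.pi : ℂ) ^ s * (Gamma s)⁻¹), ?_, fun s hs => ?_⟩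
    · have d1 : Differentiable ℂ (fun s : ℂ => ((N * m ^ 2 : ℕ) : ℂ) ^ (-(s / 2))) := fun s => by
        have h1 : DifferentiableAt ℂ (fun z : ℂ => -(z / 2)) s := by fun_prop
        exact h1.const_cpow (Or.inl hNc)
      have d2 : Differentiable ℂ (fun s : ℂ => (2 * Real.pi : ℂ) ^ s) := fun s =>
        differentiableAt_id.const_cpow (Or.inl hpic)
      exact h1.mul ((d1.mul d2).mul Complex.differentiable_one_div_Gamma)
    · simp only
      rw [h4 s hs]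
      have hG : Gamma s ≠ 0 := Complex.Gamma_ne_zero_of_re_pos (by linarith)
      have e1 : ((N * m ^ 2 : ℕ) : ℂ) ^ (s / 2) * ((N * m ^ 2 : ℕ) : ℂ) ^ (-(s / 2)) = 1 := by
        rw [← cpow_add _ _ hNc]; simp
      have e2 : (2 * Real.pi : ℂ) ^ (-s) * (2 * Real.pi : ℂ) ^ s = 1 := by
        rw [← cpow_add _ _ hpic]; simp
      have e3 : Gamma s * (Gamma s)⁻¹ = 1 := mul_inv_cancel₀ hG
      calc _ = (((N * m ^ 2 : ℕ) : ℂ) ^ (s / 2) * ((N * m ^ 2 : ℕ) : ℂ) ^ (-(s / 2))) *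
            ((2 * Real.pi : ℂ) ^ (-s) * (2 * Real.pi : ℂ) ^ s) * (Gamma s * (Gamma s)⁻¹) *
            ∑' n : ℕ, tw f m n * (n : ℂ) ^ (-s) := by ring
        _ = _ := by rw [e1, e2, e3]; ring
  · exfalso
    apply hpd
    norm_num

end

/-- all the quadratic twists have coefficient sequences -/
def AllTw (a b : ℤ) : Prop := ∀ g : ℤ, g ≠ 0 → ∃ (N : ℕ) (f : ℕ → ℂ), AF (a * g ^ 2) (b * g ^ 3) N f

theorem af_of_form {a b : ℤ} {N : ℕ} {f : CuspForm (CongruenceSubgroup.Gamma0 N : Subgroup (GL (Fin 2) ℝ)) 2}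
    (hf : IsFormOf a b N f) : AF a b N (fun n => Pool.Agent.Y19.QT.coef f n) :=
  { pos := hf.pos
    zero := Pool.Agent.Y818.QT13b.coef_zero hf
    one := hf.one
    real := hf.real
    mul := hf.mul
    pow := hf.pow
    good := hf.good
    bad := hf.bad
    fe := fun m h1 h2 h3 => Pool.Agent.Y496.QT10a.T10a a b N f hf m h1 h2 h3
    ent := Pool.Agent.Y818.QT13b.entire hf
    points := hf.points }

theorem allTw_of_modular {a b : ℤ} (h : TwistsModular a b) : AllTw a b := fun g hg => by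
  obtain ⟨N, f, hf⟩ := h g hg
  exact ⟨N, _, af_of_form hf⟩

theorem allTw {a b : ℤ} (h : Fam a b) : AllTw a b := by
  rcases h with ⟨ha, rfl⟩ | ⟨rfl, hb⟩ | ⟨g, hg, ⟨rfl, rfl⟩ | ⟨rfl, rfl⟩⟩
  · intro g hg
    have h0 : a * g ^ 2 ≠ 0 := mul_ne_zero ha (pow_ne_zero _ hg)
    have := Pool.Agent.Y692.QN.quartic_af (a * g ^ 2) h0 (Pool.Agent.Y153.QN3.quartic_data _ h0)
    rw [zero_mul]
    exact this
  · intro g hg
    have h0 : b * g ^ 3 ≠ 0 := mul_ne_zero hb (pow_ne_zero _ hg)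
    have := Pool.Agent.Y692.QTN4.sextic_af (b * g ^ 3) h0
    rw [zero_mul]
    exact this
  · exact allTw_of_modular (Pool.Agent.Y19.QT.twistsModular_twist Pool.Agent.Y812.QTN11.twists11 hg)
  · exact allTw_of_modular (Pool.Agent.Y19.QT.twistsModular_twist Pool.Agent.Y812.TM.twists14 hg)

end Pool.Agent.Helper92.HF
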